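import Pool.Agent.H478.QM.Stm

/-!
# BND: from the energy of a window to its pair sum
-/

set_option autoImplicit false

open Filter Topology MeasureTheory Set

namespace Pool.Agent.H478.QM.BND

/-- `(1 + x²)^(1/3)` -/
noncomputable def u (x : ℝ) : ℝ := (1 + x ^ 2) ^ (1 / 3 : ℝ)

lemma u_cube (x : ℝ) : u x ^ 3 = 1 + x ^ 2 := by
  unfold u
  rw [← Real.rpow_natCast, ← Real.rpow_mul (by positivity)]
  norm_num

lemma one_le_u (x : ℝ) : 1 ≤ u x := Real.one_le_rpow (by nlinarith [sq_nonneg x]) (by norm_num)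

lemma u_pos (x : ℝ) : 0 < u x := lt_of_lt_of_le one_pos (one_le_u x)

lemma u_cont : Continuous u := by
  unfold u
  exact (by fun_prop : Continuous fun x : ℝ => 1 + x ^ 2).rpow_const (fun x => Or.inr (by norm_num))

lemma u_mono {a b : ℝ} (h : a ^ 2 ≤ b ^ 2) : u a ≤ u b := by
  unfold u
  exact Real.rpow_le_rpow (by positivity) (by linarith) (by norm_num)

/-- the basic inequality -/
lemma key {x v y : ℝ} (h : x ^ 2 + v ^ 2 ≤ y ^ 2) : 1 / (1 + y ^ 2) ≤ 1 / (u v * u x ^ 2) := by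
  have hu := u_pos v
  have hx := u_pos x
  refine one_div_le_one_div_of_le (by positivity) ?_
  have h1 : (u v * u x ^ 2) ^ 3 ≤ (1 + y ^ 2) ^ 3 := by
    have e : (u v * u x ^ 2) ^ 3 = u v ^ 3 * (u x ^ 3) ^ 2 := by ring
    rw [e, u_cube, u_cube]
    have a1 : 1 + v ^ 2 ≤ 1 + y ^ 2 := by nlinarith [sq_nonneg x]
    have a2 : 1 + x ^ 2 ≤ 1 + y ^ 2 := by nlinarith [sq_nonneg v]
    calc (1 + v ^ 2) * (1 + x ^ 2) ^ 2 ≤ (1 + y ^ 2) * (1 + y ^ 2) ^ 2 := by
          apply mul_le_mul a1 (pow_le_pow_left₀ (by positivity) a2 2) (by positivity) (by positivity)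
      _ = (1 + y ^ 2) ^ 3 := by ring
  exact (pow_le_pow_iff_left₀ (by positivity) (by positivity) (by norm_num)).1 h1

lemma ww_le (x : ℝ) : 1 / (1 + x ^ 2) ≤ 1 / u x ^ 2 := by
  rw [← u_cube]
  refine one_div_le_one_div_of_le (pow_pos (u_pos x) 2) ?_
  nlinarith [one_le_u x, pow_pos (u_pos x) 2]

lemma shift {a b : ℝ} (h : |a - b| ≤ 2) : 1 / u b ^ 2 ≤ 9 / u a ^ 2 := by
  have ha := u_pos a
  have hb := u_pos b
  have h1 : u a ≤ 3 * u b := by
    have h2 : u a ^ 3 ≤ (3 * u b) ^ 3 := by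
      have e : (3 * u b) ^ 3 = 27 * u b ^ 3 := by ring
      rw [e, u_cube, u_cube]
      have := abs_le.1 h
      nlinarith [sq_nonneg b, sq_nonneg (a - 2 * b), sq_nonneg (a - b)]
    exact (pow_le_pow_iff_left₀ (by positivity) (by positivity) (by norm_num)).1 h2
  rw [div_le_div_iff₀ (by positivity) (by positivity)]
  nlinarith

lemma u_sq (v : ℝ) : 1 / u v ^ 2 = ((1 : ℝ) + ‖v‖ ^ 2) ^ (-(4 / 3 : ℝ) / 2) := by
  unfold u
  rw [← Real.rpow_natCast, ← Real.rpow_mul (by positivity), one_div, ← Real.rpow_neg (by positivity),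
    Real.norm_eq_abs, sq_abs]
  norm_num

lemma int_u : Integrable (fun v : ℝ => 1 / u v ^ 2) := by
  have h := integrable_rpow_neg_one_add_norm_sq (E := ℝ) (μ := volume) (r := 4 / 3)
    (by simp; norm_num)
  exact h.congr (Eventually.of_forall fun v => (u_sq v).symm)

lemma summ_u : Summable (fun j : ℤ => 1 / u j ^ 2) := by
  have h1 : Summable (fun j : ℤ => |(j : ℝ)| ^ (-(4 / 3 : ℝ)) + if j = 0 then (1 : ℝ) else 0) :=
    (Real.summable_abs_int_rpow (by norm_num)).add (hasSum_ite_eq 0 1).summable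
  refine Summable.of_nonneg_of_le (fun j => by positivity) (fun j => ?_) h1
  by_cases hj : j = 0
  · subst hj
    rw [if_pos rfl]
    have : u ((0 : ℤ) : ℝ) = 1 := by
      unfold u
      simp
    rw [this]
    have h0 : 0 ≤ |((0 : ℤ) : ℝ)| ^ (-(4 / 3 : ℝ)) := by positivity
    linarith
  · rw [if_neg hj, add_zero]
    have hj' : 0 < |(j : ℝ)| := abs_pos.2 (by exact_mod_cast hj)
    rw [u_sq]
    have e : (-(4 / 3 : ℝ)) = 2 * (-(4 / 3 : ℝ) / 2) := by ring
    conv_rhs => rw [e, Real.rpow_mul hj'.le]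
    refine Real.rpow_le_rpow_of_nonpos (by positivity) ?_ (by norm_num)
    rw [Real.rpow_two, Real.norm_eq_abs]
    linarith

/-- the sum of the majorants -/
noncomputable def B0 : ℝ := 9 * ∑' j : ℤ, 1 / u j ^ 2

lemma B0_pos : 0 < B0 := by
  unfold B0
  have h : 1 / u ((0 : ℤ) : ℝ) ^ 2 ≤ ∑' j : ℤ, 1 / u j ^ 2 :=
    summ_u.le_tsum 0 (fun j _ => by positivity)
  have : 0 < 1 / u ((0 : ℤ) : ℝ) ^ 2 := by
    have := u_pos ((0 : ℤ) : ℝ)
    positivity
  linarith

/-- application of CEL -/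
lemma cel' {C ε C1 T0 : ℝ} (hC1 : ∀ T : ℝ, T0 ≤ T →
    ∀ (Z : Finset ℝ) (m : ℝ → ℕ), PtD C T Z m → ∀ w : ℝ → ℝ, Measurable w → (∀ x, 0 ≤ w x) →
      ∀ (b : ℤ → ℝ) (B : ℝ), (∀ (j : ℤ) (x : ℝ), |x - j| ≤ 1 → w x ≤ b j) → Summable b →
      ∑' j, b j ≤ B → (∀ x : ℝ, ε * T * Real.log T / 100 ≤ |x| → w x ≤ B * Real.log T / x ^ 2) →
      ∫ t in (T + ε * T)..(2 * T - ε * T), Ws w Z m (Real.log T) t ^ 2 ≤ C1 * B ^ 2 * T)
    (T : ℝ) (hT : T0 ≤ T) (Z : Finset ℝ) (m : ℝ → ℕ) (hZ : PtD C T Z m) (f : ℝ → ℝ)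
    (hf : Continuous f) (hf0 : ∀ x, 0 ≤ f x) (κ M B s Λ : ℝ) (hf1 : ∀ x, f x ≤ κ / u x ^ 2)
    (hf2 : ∀ x, f x ≤ M / (1 + x ^ 2)) (hM : 0 ≤ M) (hs0 : 0 ≤ s) (hs1 : s ≤ Λ) (hΛ : 0 < Λ)
    (hκ : κ * B0 ≤ B) (hMB : 4 * M ≤ B * Real.log T) (hε : 2 * Λ ≤ ε * T * Real.log T / 100) :
    ∫ t in (T + ε * T)..(2 * T - ε * T), Ws (fun x => f (x - s)) Z m (Real.log T) t ^ 2 ≤
      C1 * B ^ 2 * T := by
  have hκ0 : 0 ≤ κ := by
    have h1 := (hf0 0).trans (hf1 0)
    have h2 := pow_pos (u_pos 0) 2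
    rw [le_div_iff₀ h2] at h1
    linarith
  refine hC1 T hT Z m hZ (fun x => f (x - s)) (by fun_prop) (fun x => hf0 _)
    (fun j => κ * (9 * (1 / u ((j - ⌊s⌋ : ℤ) : ℝ) ^ 2))) B ?_ ?_ ?_ ?_
  · intro j x hx
    refine (hf1 _).trans ?_
    rw [div_eq_mul_one_div]
    refine mul_le_mul_of_nonneg_left ?_ hκ0
    have h1 : |(((j - ⌊s⌋ : ℤ) : ℝ)) - (x - s)| ≤ 2 := by
      push_cast
      have h2 := Int.floor_le s
      have h3 := (Int.lt_floor_add_one s).le
      have h4 := abs_le.1 hx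
      rw [abs_le]
      constructor <;> linarith
    have h2 := shift h1
    rw [div_eq_mul_one_div (9 : ℝ)] at h2
    exact h2
  · refine Summable.mul_left _ (Summable.mul_left _ ?_)
    exact (Equiv.subRight ⌊s⌋).summable_iff.2 summ_u
  · rw [tsum_mul_left, tsum_mul_left]
    have e : ∑' j : ℤ, 1 / u ((j - ⌊s⌋ : ℤ) : ℝ) ^ 2 = ∑' j : ℤ, 1 / u j ^ 2 :=
      (Equiv.subRight ⌊s⌋).tsum_eq (fun j : ℤ => 1 / u (j : ℝ) ^ 2)
    rw [e]
    exact hκ
  · intro x hx
    have hx0 : 2 * Λ ≤ |x| := hε.trans hx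
    have hx1 : 0 < |x| := by linarith
    have hx2 : 0 < x ^ 2 := by
      rw [← sq_abs]
      positivity
    have h1 : |x| / 2 ≤ |x - s| := by
      have := abs_sub_abs_le_abs_sub x s
      rw [abs_of_nonneg hs0] at this
      linarith
    have h2 : x ^ 2 / 4 ≤ (x - s) ^ 2 := by
      rw [← sq_abs x, ← sq_abs (x - s)]
      nlinarith [abs_nonneg (x - s)]
    refine (hf2 _).trans ?_
    rw [div_le_div_iff₀ (by positivity) hx2]
    have h3 : M * x ^ 2 ≤ 4 * M * (1 + (x - s) ^ 2) := by nlinarith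
    have h4 : 4 * M * (1 + (x - s) ^ 2) ≤ B * Real.log T * (1 + (x - s) ^ 2) :=
      mul_le_mul_of_nonneg_right hMB (by positivity)
    linarith

/-- majorant for the points outside the window -/
noncomputable def ps (Lam x : ℝ) : ℝ := min (1 / u x ^ 2) (u Lam / (1 + x ^ 2))

/-- majorant for the Gaussian factors -/
noncomputable def hh (L Lam x : ℝ) : ℝ := min (20 / L ^ 2) ((4 + 4 * Lam ^ 2) / (1 + x ^ 2))

/-- the basic weight -/
noncomputable def ww (x : ℝ) : ℝ := 1 / (1 + x ^ 2)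

lemma ps_nonneg (Lam x : ℝ) : 0 ≤ ps Lam x :=
  le_min (by positivity) (div_nonneg (u_pos _).le (by positivity))

lemma hh_nonneg (L Lam x : ℝ) : 0 ≤ hh L Lam x := le_min (by positivity) (by positivity)

lemma ww_nonneg (x : ℝ) : 0 ≤ ww x := by unfold ww; positivity

lemma ps_cont (Lam : ℝ) : Continuous (ps Lam) := by
  unfold ps
  refine Continuous.min ?_ ?_
  · exact continuous_const.div (u_cont.pow 2) (fun x => (pow_pos (u_pos x) 2).ne')
  · exact continuous_const.div (by fun_prop) (fun x => by positivity)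

lemma hh_cont (L Lam : ℝ) : Continuous (hh L Lam) := by
  unfold hh
  refine Continuous.min continuous_const ?_
  exact continuous_const.div (by fun_prop) (fun x => by positivity)

lemma ww_cont : Continuous ww := by
  unfold ww
  exact continuous_const.div (by fun_prop) (fun x => by positivity)

lemma ps_eq {Lam x : ℝ} (h : x ^ 2 ≤ Lam ^ 2) : ps Lam x = 1 / u x ^ 2 := by
  unfold ps
  refine min_eq_left ?_
  rw [← u_cube x, div_le_div_iff₀ (pow_pos (u_pos x) 2) (pow_pos (u_pos x) 3)]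
  have := u_mono h
  have h2 := pow_pos (u_pos x) 2
  nlinarith

/-- a point and a place on different sides of `0` -/
lemma out {Lam x v y : ℝ} (hv : v ^ 2 ≤ Lam ^ 2) (h : x ^ 2 + v ^ 2 ≤ y ^ 2) :
    ww y ≤ ps Lam x / u v := by
  have hu := u_pos v
  unfold ps ww
  rw [le_div_iff₀ hu]
  refine le_min ?_ ?_
  · have h1 := key h
    have h2 : 1 / (u v * u x ^ 2) * u v = 1 / u x ^ 2 := by
      have := u_pos x
      field_simp
    rw [← h2]
    exact mul_le_mul_of_nonneg_right h1 hu.le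
  · have h1 : 1 / (1 + y ^ 2) ≤ 1 / (1 + x ^ 2) :=
      one_div_le_one_div_of_le (by positivity) (by nlinarith [sq_nonneg v])
    calc 1 / (1 + y ^ 2) * u v ≤ 1 / (1 + x ^ 2) * u Lam :=
          mul_le_mul h1 (u_mono hv) hu.le (by positivity)
      _ = u Lam / (1 + x ^ 2) := by ring

/-- the pointwise inequality in the window -/
lemma point {L Lam x v G : ℝ} (hv0 : 0 ≤ v) (hv1 : v ≤ Lam) (hG0 : 0 ≤ G) (hG1 : G ≤ 1)
    (hG2 : 1 - G ≤ 20 / L ^ 2 * (x - v) ^ 2) :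
    |G - (if 0 < x ∧ x ≤ Lam then 1 else 0)| * ww (x - v) ≤
      hh L Lam x + ps Lam x / u v + ps Lam (x - Lam) / u (Lam - v) := by
  have p1 : 0 ≤ ps Lam x / u v := div_nonneg (ps_nonneg _ _) (u_pos _).le
  have p2 : 0 ≤ ps Lam (x - Lam) / u (Lam - v) := div_nonneg (ps_nonneg _ _) (u_pos _).le
  have p3 := hh_nonneg L Lam x
  have hLam : 0 ≤ Lam := hv0.trans hv1
  by_cases h : 0 < x ∧ x ≤ Lam
  · rw [if_pos h, abs_sub_comm, abs_of_nonneg (by linarith)]
    suffices (1 - G) * ww (x - v) ≤ hh L Lam x by linarith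
    unfold hh ww
    refine le_min ?_ ?_
    · have h1 : (1 - G) * (1 / (1 + (x - v) ^ 2)) ≤
          20 / L ^ 2 * (x - v) ^ 2 * (1 / (1 + (x - v) ^ 2)) :=
        mul_le_mul_of_nonneg_right hG2 (by positivity)
      refine h1.trans ?_
      have h2 : (x - v) ^ 2 * (1 / (1 + (x - v) ^ 2)) ≤ 1 := by
        rw [mul_one_div, div_le_one (by positivity)]
        linarith
      calc 20 / L ^ 2 * (x - v) ^ 2 * (1 / (1 + (x - v) ^ 2)) =
            20 / L ^ 2 * ((x - v) ^ 2 * (1 / (1 + (x - v) ^ 2))) := by ring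
        _ ≤ 20 / L ^ 2 * 1 := mul_le_mul_of_nonneg_left h2 (by positivity)
        _ = 20 / L ^ 2 := mul_one _
    · have h1 : (1 - G) * (1 / (1 + (x - v) ^ 2)) ≤ 1 := by
        have h2 : 1 / (1 + (x - v) ^ 2) ≤ 1 := by
          rw [div_le_one (by positivity)]
          nlinarith [sq_nonneg (x - v)]
        have h3 : 0 ≤ 1 / (1 + (x - v) ^ 2) := by positivity
        nlinarith
      refine h1.trans ?_
      rw [le_div_iff₀ (by positivity)]
      nlinarith [h.1, h.2]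
  · rw [if_neg h, sub_zero, abs_of_nonneg hG0]
    have h0 : G * ww (x - v) ≤ ww (x - v) := by
      have := ww_nonneg (x - v)
      nlinarith
    refine h0.trans ?_
    rcases le_or_gt x 0 with hx | hx
    · have := out (Lam := Lam) (x := x) (v := v) (y := x - v) (by nlinarith) (by nlinarith)
      linarith
    · have hx2 : Lam < x := by
        by_contra h'
        exact h ⟨hx, not_lt.1 h'⟩
      have := out (Lam := Lam) (x := x - Lam) (v := Lam - v) (y := x - v) (by nlinarith)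
        (by nlinarith)
      linarith

/-- the Gaussian factor -/
lemma gauss {L y : ℝ} (hL : 0 < L) :
    1 - Real.exp (-(y * (2 * Real.pi / L)) ^ 2 / 2) ≤ 20 / L ^ 2 * y ^ 2 := by
  have h1 := Real.add_one_le_exp (-(y * (2 * Real.pi / L)) ^ 2 / 2)
  have h2 : (y * (2 * Real.pi / L)) ^ 2 / 2 ≤ 20 / L ^ 2 * y ^ 2 := by
    have e : (y * (2 * Real.pi / L)) ^ 2 / 2 = (2 * Real.pi ^ 2) * (y ^ 2 / L ^ 2) := by
      field_simp
    have e2 : 20 / L ^ 2 * y ^ 2 = 20 * (y ^ 2 / L ^ 2) := by ring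
    rw [e, e2]
    refine mul_le_mul_of_nonneg_right ?_ (by positivity)
    have := Real.pi_lt_d2
    have := Real.pi_pos
    nlinarith
  have e3 : -(y * (2 * Real.pi / L)) ^ 2 / 2 = -((y * (2 * Real.pi / L)) ^ 2 / 2) := by ring
  rw [e3] at h1 ⊢
  linarith

/-- the normalised position -/
noncomputable def X (L t z : ℝ) : ℝ := (z - t) * L / (2 * Real.pi)

/-- the statistic of the window -/
noncomputable def Aw (g : ℝ → ℝ) (Z : Finset ℝ) (m : ℝ → ℕ) (L Lam t v : ℝ) : ℝ :=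
  ∑ z ∈ Z.filter (fun z => t < z ∧ z ≤ t + 2 * Real.pi * Lam / L), (m z : ℝ) * g (X L t z - v)

lemma win_iff {L Lam t z : ℝ} (hL : 0 < L) :
    (t < z ∧ z ≤ t + 2 * Real.pi * Lam / L) ↔ (0 < X L t z ∧ X L t z ≤ Lam) := by
  have hp := Real.pi_pos
  unfold X
  constructor
  · rintro ⟨h1, h2⟩
    constructor
    · have : 0 < z - t := by linarith
      positivity
    · rw [div_le_iff₀ (by positivity)]
      have h3 : z - t ≤ 2 * Real.pi * Lam / L := by linarith
      rw [le_div_iff₀ hL] at h3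
      linarith
  · rintro ⟨h1, h2⟩
    constructor
    · by_contra h
      have h3 : z - t ≤ 0 := by linarith [not_lt.1 h]
      have h4 : (z - t) * L / (2 * Real.pi) ≤ 0 :=
        div_nonpos_of_nonpos_of_nonneg (mul_nonpos_of_nonpos_of_nonneg h3 hL.le) (by positivity)
      linarith
    · rw [div_le_iff₀ (by positivity)] at h2
      have h3 : z - t ≤ 2 * Real.pi * Lam / L := by
        rw [le_div_iff₀ hL]
        linarith
      linarith

lemma V_eq {L : ℝ} (hL : 0 < L) (g : ℝ → ℝ) (Z : Finset ℝ) (m : ℝ → ℕ) (t v : ℝ) :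
    Vs g Z m L (t + 2 * Real.pi * v / L) =
      ∑ z ∈ Z, (m z : ℝ) * (Real.exp (-((X L t z - v) * (2 * Real.pi / L)) ^ 2 / 2) *
        g (X L t z - v)) := by
  have hp := Real.pi_pos
  unfold Vs
  refine Finset.sum_congr rfl fun z _ => ?_
  have e1 : (z - (t + 2 * Real.pi * v / L)) * L / (2 * Real.pi) = X L t z - v := by
    unfold X
    field_simp
    ring
  have e2 : z - (t + 2 * Real.pi * v / L) = (X L t z - v) * (2 * Real.pi / L) := by
    rw [← e1]
    field_simp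
  rw [e1, e2, mul_assoc]

/-- sum of the basic weights -/
noncomputable def Al (Z : Finset ℝ) (m : ℝ → ℕ) (L t v : ℝ) : ℝ :=
  ∑ z ∈ Z, (m z : ℝ) * ww (X L t z - v)

lemma Al_nonneg (Z : Finset ℝ) (m : ℝ → ℕ) (L t v : ℝ) : 0 ≤ Al Z m L t v :=
  Finset.sum_nonneg fun z _ => mul_nonneg (Nat.cast_nonneg _) (ww_nonneg _)

lemma Aw_le {K : ℝ} {g : ℝ → ℝ} (hK : 0 < K) (hg : ∀ x, |g x| ≤ K / (1 + x ^ 2)) (Z : Finset ℝ)
    (m : ℝ → ℕ) (L Lam t v : ℝ) : |Aw g Z m L Lam t v| ≤ K * Al Z m L t v := by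
  unfold Aw Al
  refine (Finset.abs_sum_le_sum_abs _ _).trans ?_
  rw [Finset.mul_sum]
  refine (Finset.sum_le_sum (g := fun z => K * ((m z : ℝ) * ww (X L t z - v))) ?_).trans
    (Finset.sum_le_sum_of_subset_of_nonneg (Finset.filter_subset _ _)
      fun z _ _ => mul_nonneg hK.le (mul_nonneg (Nat.cast_nonneg _) (ww_nonneg _)))
  intro z _
  rw [abs_mul, Nat.abs_cast]
  have := hg (X L t z - v)
  have e : K * ((m z : ℝ) * ww (X L t z - v)) = (m z : ℝ) * (K / (1 + (X L t z - v) ^ 2)) := by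
    unfold ww
    ring
  rw [e]
  exact mul_le_mul_of_nonneg_left this (Nat.cast_nonneg _)

lemma Vs_le {K L : ℝ} {g : ℝ → ℝ} (hL : 0 < L) (hK : 0 < K) (hg : ∀ x, |g x| ≤ K / (1 + x ^ 2))
    (Z : Finset ℝ) (m : ℝ → ℕ) (t v : ℝ) :
    |Vs g Z m L (t + 2 * Real.pi * v / L)| ≤ K * Al Z m L t v := by
  rw [V_eq hL]
  unfold Al
  refine (Finset.abs_sum_le_sum_abs _ _).trans ?_
  rw [Finset.mul_sum]
  refine Finset.sum_le_sum fun z _ => ?_
  rw [abs_mul, Nat.abs_cast, abs_mul, Real.abs_exp]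
  have h1 := hg (X L t z - v)
  have h2 : Real.exp (-((X L t z - v) * (2 * Real.pi / L)) ^ 2 / 2) ≤ 1 := by
    rw [Real.exp_le_one_iff]
    nlinarith [sq_nonneg ((X L t z - v) * (2 * Real.pi / L))]
  have e : K * ((m z : ℝ) * ww (X L t z - v)) = (m z : ℝ) * (1 * (K / (1 + (X L t z - v) ^ 2))) := by
    unfold ww
    ring
  rw [e]
  refine mul_le_mul_of_nonneg_left ?_ (Nat.cast_nonneg _)
  exact mul_le_mul h2 h1 (abs_nonneg _) (by norm_num)

/-- the difference of the two statistics -/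
lemma diff_le {K L Lam v : ℝ} {g : ℝ → ℝ} (hL : 0 < L) (hK : 0 < K)
    (hg : ∀ x, |g x| ≤ K / (1 + x ^ 2)) (Z : Finset ℝ) (m : ℝ → ℕ) (t : ℝ) (hv0 : 0 ≤ v)
    (hv1 : v ≤ Lam) :
    |Vs g Z m L (t + 2 * Real.pi * v / L) - Aw g Z m L Lam t v| ≤
      K * (Ws (hh L Lam) Z m L t + Ws (ps Lam) Z m L t / u v +
        Ws (fun x => ps Lam (x - Lam)) Z m L t / u (Lam - v)) := by
  rw [V_eq hL]
  unfold Aw Ws
  rw [Finset.sum_filter, ← Finset.sum_sub_distrib]
  refine (Finset.abs_sum_le_sum_abs _ _).trans ?_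
  rw [Finset.sum_div, Finset.sum_div, ← Finset.sum_add_distrib, ← Finset.sum_add_distrib,
    Finset.mul_sum]
  refine Finset.sum_le_sum fun z _ => ?_
  have hx : (z - t) * L / (2 * Real.pi) = X L t z := rfl
  simp only [hx]
  set x := X L t z with hxdef
  set G := Real.exp (-((x - v) * (2 * Real.pi / L)) ^ 2 / 2) with hG
  have hG0 : 0 ≤ G := (Real.exp_pos _).le
  have hG1 : G ≤ 1 := by
    rw [hG, Real.exp_le_one_iff]
    nlinarith [sq_nonneg ((x - v) * (2 * Real.pi / L))]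
  have hp := point (L := L) (Lam := Lam) (x := x) (v := v) (G := G) hv0 hv1 hG0 hG1 (gauss hL)
  have e1 : (m z : ℝ) * (G * g (x - v)) - (if t < z ∧ z ≤ t + 2 * Real.pi * Lam / L then
      (m z : ℝ) * g (x - v) else 0) =
      (m z : ℝ) * ((G - (if 0 < x ∧ x ≤ Lam then 1 else 0)) * g (x - v)) := by
    by_cases h : 0 < x ∧ x ≤ Lam
    · rw [if_pos h, if_pos ((win_iff hL).2 h)]
      ring
    · rw [if_neg h, if_neg (fun h' => h ((win_iff hL).1 h'))]
      ring
  rw [e1, abs_mul, Nat.abs_cast, abs_mul]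
  have h1 : |G - (if 0 < x ∧ x ≤ Lam then 1 else 0)| * |g (x - v)| ≤
      K * (|G - (if 0 < x ∧ x ≤ Lam then 1 else 0)| * ww (x - v)) := by
    have h2 := mul_le_mul_of_nonneg_left (hg (x - v))
      (abs_nonneg (G - (if 0 < x ∧ x ≤ Lam then 1 else 0)))
    refine h2.trans (le_of_eq ?_)
    unfold ww
    ring
  have h3 := h1.trans (mul_le_mul_of_nonneg_left hp hK.le)
  have h4 := mul_le_mul_of_nonneg_left h3 (Nat.cast_nonneg (α := ℝ) (m z))
  refine h4.trans (le_of_eq ?_)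
  ring

/-- integral of the majorant -/
noncomputable def c3 : ℝ := ∫ v : ℝ, 1 / u v ^ 2

lemma c3_nonneg : 0 ≤ c3 := integral_nonneg fun v => by positivity

lemma Aw_cont {g : ℝ → ℝ} (hg : Continuous g) (Z : Finset ℝ) (m : ℝ → ℕ) (L Lam t : ℝ) :
    Continuous (Aw g Z m L Lam t) := by
  unfold Aw
  exact continuous_finsetSum _ fun z _ => continuous_const.mul (hg.comp (by fun_prop))

lemma Al_cont (Z : Finset ℝ) (m : ℝ → ℕ) (L t : ℝ) : Continuous (Al Z m L t) := by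
  unfold Al
  exact continuous_finsetSum _ fun z _ => continuous_const.mul (ww_cont.comp (by fun_prop))

lemma Vs_cont {g : ℝ → ℝ} (hg : Continuous g) (Z : Finset ℝ) (m : ℝ → ℕ) (L : ℝ) :
    Continuous (Vs g Z m L) := by
  unfold Vs
  refine continuous_finsetSum _ fun z _ => ?_
  exact (continuous_const.mul (by fun_prop)).mul (hg.comp (by fun_prop))

lemma Ws_cont {w : ℝ → ℝ} (hw : Continuous w) (Z : Finset ℝ) (m : ℝ → ℕ) (L : ℝ) :
    Continuous (Ws w Z m L) := by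
  unfold Ws
  exact continuous_finsetSum _ fun z _ => continuous_const.mul (hw.comp (by fun_prop))

lemma Ws_nonneg {w : ℝ → ℝ} (hw : ∀ x, 0 ≤ w x) (Z : Finset ℝ) (m : ℝ → ℕ) (L t : ℝ) :
    0 ≤ Ws w Z m L t := Finset.sum_nonneg fun z _ => mul_nonneg (Nat.cast_nonneg _) (hw _)

lemma int_prod {K : ℝ} {g1 g2 : ℝ → ℝ} (hK : 0 < K) (c1 : Continuous g1) (c2 : Continuous g2)
    (h1 : ∀ x, |g1 x| ≤ K / (1 + x ^ 2)) (h2 : ∀ x, |g2 x| ≤ K / (1 + x ^ 2)) (x y : ℝ) :
    Integrable (fun v => g1 (x - v) * g2 (y - v)) := by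
  have hi : Integrable (fun v : ℝ => K ^ 2 * (1 + (x - v) ^ 2)⁻¹) :=
    (integrable_inv_one_add_sq.comp_sub_left x).const_mul (K ^ 2)
  refine hi.mono' (by fun_prop) (Eventually.of_forall fun v => ?_)
  rw [Real.norm_eq_abs, abs_mul]
  have a1 := h1 (x - v)
  have a2 : |g2 (y - v)| ≤ K := (h2 _).trans (div_le_self hK.le (by nlinarith [sq_nonneg (y - v)]))
  calc |g1 (x - v)| * |g2 (y - v)| ≤ K / (1 + (x - v) ^ 2) * K :=
        mul_le_mul a1 a2 (abs_nonneg _) (by positivity)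
    _ = K ^ 2 * (1 + (x - v) ^ 2)⁻¹ := by
        rw [div_eq_mul_inv]
        ring

lemma Ps_eq {K : ℝ} {g1 g2 F : ℝ → ℝ} (hK : 0 < K) (c1 : Continuous g1) (c2 : Continuous g2)
    (h1 : ∀ x, |g1 x| ≤ K / (1 + x ^ 2)) (h2 : ∀ x, |g2 x| ≤ K / (1 + x ^ 2))
    (hF : ∀ x y : ℝ, ∫ v, g1 (x - v) * g2 (y - v) = F (x - y)) (Z : Finset ℝ) (m : ℝ → ℕ)
    (L Lam t : ℝ) : Integrable (fun v => Aw g1 Z m L Lam t v * Aw g2 Z m L Lam t v) ∧
      Ps F Z m L Lam t = ∫ v, Aw g1 Z m L Lam t v * Aw g2 Z m L Lam t v := by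
  have e : (fun v => Aw g1 Z m L Lam t v * Aw g2 Z m L Lam t v) = fun v =>
      ∑ z ∈ Z.filter (fun z => t < z ∧ z ≤ t + 2 * Real.pi * Lam / L),
        ∑ y ∈ Z.filter (fun z => t < z ∧ z ≤ t + 2 * Real.pi * Lam / L),
          ((m z : ℝ) * m y) * (g1 (X L t z - v) * g2 (X L t y - v)) := by
    funext v
    unfold Aw
    rw [Finset.sum_mul_sum]
    refine Finset.sum_congr rfl fun z _ => Finset.sum_congr rfl fun y _ => ?_
    ring
  have hi : ∀ z y : ℝ, Integrable (fun v =>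
      ((m z : ℝ) * m y) * (g1 (X L t z - v) * g2 (X L t y - v))) := fun z y =>
    (int_prod hK c1 c2 h1 h2 _ _).const_mul _
  refine ⟨?_, ?_⟩
  · rw [e]
    exact integrable_finsetSum _ fun z _ => integrable_finsetSum _ fun y _ => hi z y
  · rw [e, integral_finsetSum _ fun z _ => integrable_finsetSum _ fun y _ => hi z y]
    unfold Ps
    refine Finset.sum_congr rfl fun z _ => ?_
    rw [integral_finset_sum _ fun y _ => hi z y]
    refine Finset.sum_congr rfl fun y _ => ?_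
    rw [integral_const_mul, hF]
    congr 2
    unfold X
    ring

lemma Aw_out {K L Lam t v : ℝ} {g : ℝ → ℝ} (hL : 0 < L) (hK : 0 < K)
    (hg : ∀ x, |g x| ≤ K / (1 + x ^ 2)) (Z : Finset ℝ) (m : ℝ → ℕ) (a b : ℝ)
    (h : ∀ x : ℝ, 0 < x → x ≤ Lam → ww (x - v) ≤ ps Lam (x - a) / u b) :
    |Aw g Z m L Lam t v| ≤ K * (Ws (fun x => ps Lam (x - a)) Z m L t / u b) := by
  unfold Aw Ws
  refine (Finset.abs_sum_le_sum_abs _ _).trans ?_
  rw [Finset.sum_div, Finset.mul_sum]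
  refine (Finset.sum_le_sum (g := fun z => K * ((m z : ℝ) *
    ps Lam ((z - t) * L / (2 * Real.pi) - a) / u b)) ?_).trans
    (Finset.sum_le_sum_of_subset_of_nonneg (Finset.filter_subset _ _)
      fun z _ _ => mul_nonneg hK.le (div_nonneg (mul_nonneg (Nat.cast_nonneg _) (ps_nonneg _ _))
        (u_pos _).le))
  intro z hz
  rw [Finset.mem_filter] at hz
  have hw := (win_iff hL).1 hz.2
  have h1 := h (X L t z) hw.1 hw.2
  rw [abs_mul, Nat.abs_cast]
  have h2 := hg (X L t z - v)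
  have h3 : |g (X L t z - v)| ≤ K * (ps Lam (X L t z - a) / u b) := by
    refine h2.trans ?_
    have h4 := mul_le_mul_of_nonneg_left h1 hK.le
    unfold ww at h4
    rw [mul_one_div] at h4
    exact h4
  have h5 := mul_le_mul_of_nonneg_left h3 (Nat.cast_nonneg (α := ℝ) (m z))
  refine h5.trans (le_of_eq ?_)
  unfold X
  ring

lemma outer_left {K L Lam t : ℝ} {g1 g2 : ℝ → ℝ} (hL : 0 < L) (hK : 0 < K)
    (h1 : ∀ x, |g1 x| ≤ K / (1 + x ^ 2)) (h2 : ∀ x, |g2 x| ≤ K / (1 + x ^ 2))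
    (Z : Finset ℝ) (m : ℝ → ℕ) :
    |∫ v in Iic (0 : ℝ), Aw g1 Z m L Lam t v * Aw g2 Z m L Lam t v| ≤
      K ^ 2 * Ws (fun x => ps Lam (x - 0)) Z m L t ^ 2 * c3 := by
  set S := Ws (fun x => ps Lam (x - 0)) Z m L t with hS
  have hi : Integrable (fun v : ℝ => K ^ 2 * S ^ 2 * (1 / u v ^ 2)) := int_u.const_mul _
  rw [← Real.norm_eq_abs]
  refine (norm_integral_le_of_norm_le (g := fun v : ℝ => K ^ 2 * S ^ 2 * (1 / u v ^ 2))
    hi.integrableOn ?_).trans ?_
  · refine (ae_restrict_iff' measurableSet_Iic).2 (Eventually.of_forall fun v hv => ?_)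
    have hv' : v ≤ 0 := hv
    have hb : ∀ x : ℝ, 0 < x → x ≤ Lam → ww (x - v) ≤ ps Lam (x - 0) / u v := by
      intro x hx0 hx1
      rw [ps_eq (by nlinarith)]
      have := key (x := x - 0) (v := v) (y := x - v) (by nlinarith)
      unfold ww
      refine this.trans (le_of_eq ?_)
      have := u_pos v
      have := u_pos (x - 0)
      field_simp
    have a1 := Aw_out (t := t) hL hK h1 Z m 0 v hb
    have a2 := Aw_out (t := t) hL hK h2 Z m 0 v hb
    rw [← hS] at a1 a2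
    rw [Real.norm_eq_abs, abs_mul]
    calc |Aw g1 Z m L Lam t v| * |Aw g2 Z m L Lam t v| ≤ (K * (S / u v)) * (K * (S / u v)) :=
          mul_le_mul a1 a2 (abs_nonneg _) ((abs_nonneg _).trans a1)
      _ = K ^ 2 * S ^ 2 * (1 / u v ^ 2) := by
          have := u_pos v
          field_simp
  · refine (setIntegral_le_integral hi (Eventually.of_forall fun v => by
      simp only [Pi.zero_apply]; positivity)).trans ?_
    rw [integral_const_mul]
    exact le_rfl

lemma outer_right {K L Lam t : ℝ} {g1 g2 : ℝ → ℝ} (hL : 0 < L) (hK : 0 < K)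
    (h1 : ∀ x, |g1 x| ≤ K / (1 + x ^ 2)) (h2 : ∀ x, |g2 x| ≤ K / (1 + x ^ 2))
    (Z : Finset ℝ) (m : ℝ → ℕ) :
    |∫ v in Ioi Lam, Aw g1 Z m L Lam t v * Aw g2 Z m L Lam t v| ≤
      K ^ 2 * Ws (fun x => ps Lam (x - Lam)) Z m L t ^ 2 * c3 := by
  set S := Ws (fun x => ps Lam (x - Lam)) Z m L t with hS
  have hi : Integrable (fun v : ℝ => K ^ 2 * S ^ 2 * (1 / u (v - Lam) ^ 2)) :=
    (int_u.comp_sub_right Lam).const_mul _
  rw [← Real.norm_eq_abs]
  refine (norm_integral_le_of_norm_le (g := fun v : ℝ => K ^ 2 * S ^ 2 * (1 / u (v - Lam) ^ 2))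
    hi.integrableOn ?_).trans ?_
  · refine (ae_restrict_iff' measurableSet_Ioi).2 (Eventually.of_forall fun v hv => ?_)
    have hv' : Lam < v := hv
    have hb : ∀ x : ℝ, 0 < x → x ≤ Lam → ww (x - v) ≤ ps Lam (x - Lam) / u (v - Lam) := by
      intro x hx0 hx1
      rw [ps_eq (by nlinarith)]
      have := key (x := x - Lam) (v := v - Lam) (y := x - v) (by nlinarith)
      unfold ww
      refine this.trans (le_of_eq ?_)
      have := u_pos (v - Lam)
      have := u_pos (x - Lam)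
      field_simp
    have a1 := Aw_out (t := t) hL hK h1 Z m Lam (v - Lam) hb
    have a2 := Aw_out (t := t) hL hK h2 Z m Lam (v - Lam) hb
    rw [← hS] at a1 a2
    rw [Real.norm_eq_abs, abs_mul]
    calc |Aw g1 Z m L Lam t v| * |Aw g2 Z m L Lam t v| ≤
          (K * (S / u (v - Lam))) * (K * (S / u (v - Lam))) :=
          mul_le_mul a1 a2 (abs_nonneg _) ((abs_nonneg _).trans a1)
      _ = K ^ 2 * S ^ 2 * (1 / u (v - Lam) ^ 2) := by
          have := u_pos (v - Lam)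
          field_simp
  · refine (setIntegral_le_integral hi (Eventually.of_forall fun v => by
      simp only [Pi.zero_apply]; positivity)).trans ?_
    rw [integral_const_mul, integral_sub_right_eq_self (fun v : ℝ => 1 / u v ^ 2) Lam]
    exact le_rfl

lemma inner {K L Lam t η : ℝ} {g1 g2 : ℝ → ℝ} (hL : 0 < L) (hK : 0 < K) (hLam : 0 ≤ Lam)
    (hη : 0 < η) (c1 : Continuous g1) (c2 : Continuous g2)
    (h1 : ∀ x, |g1 x| ≤ K / (1 + x ^ 2)) (h2 : ∀ x, |g2 x| ≤ K / (1 + x ^ 2))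
    (Z : Finset ℝ) (m : ℝ → ℕ) :
    |∫ v in (0 : ℝ)..Lam, (Aw g1 Z m L Lam t v * Aw g2 Z m L Lam t v -
      Vs g1 Z m L (t + 2 * Real.pi * v / L) * Vs g2 Z m L (t + 2 * Real.pi * v / L))| ≤
      3 * K ^ 2 / η * (Ws (fun x => ps Lam (x - 0)) Z m L t ^ 2 * c3 +
        Ws (fun x => ps Lam (x - Lam)) Z m L t ^ 2 * c3 + Ws (hh L Lam) Z m L t ^ 2 * Lam) +
      K ^ 2 * η * ∫ v in (0 : ℝ)..Lam, Al Z m L t v ^ 2 := by
  have e0 : (fun x => ps Lam (x - 0)) = ps Lam := by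
    funext x
    rw [sub_zero]
  rw [e0]
  set SA := Ws (ps Lam) Z m L t with hSA
  set SB := Ws (fun x => ps Lam (x - Lam)) Z m L t with hSB
  set S5 := Ws (hh L Lam) Z m L t with hS5
  have p1 : 0 ≤ SA := Ws_nonneg (fun x => ps_nonneg _ _) _ _ _ _
  have p2 : 0 ≤ SB := Ws_nonneg (fun x => ps_nonneg _ _) _ _ _ _
  have p3 : 0 ≤ S5 := Ws_nonneg (fun x => hh_nonneg _ _ _) _ _ _ _
  set R : ℝ → ℝ := fun v => 3 * K ^ 2 / η * (SA ^ 2 * (1 / u v ^ 2) +
    SB ^ 2 * (1 / u (Lam - v) ^ 2) + S5 ^ 2) + K ^ 2 * η * Al Z m L t v ^ 2 with hR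
  have cu : Continuous (fun v : ℝ => 1 / u v ^ 2) :=
    continuous_const.div (u_cont.pow 2) (fun x => (pow_pos (u_pos x) 2).ne')
  have cu2 : Continuous (fun v : ℝ => 1 / u (Lam - v) ^ 2) := cu.comp (by fun_prop)
  have cA := Al_cont Z m L t
  have cR : Continuous R := by
    rw [hR]
    exact (continuous_const.mul (((continuous_const.mul cu).add (continuous_const.mul cu2)).add
      continuous_const)).add (continuous_const.mul (cA.pow 2))
  have cD : Continuous (fun v => Aw g1 Z m L Lam t v * Aw g2 Z m L Lam t v -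
      Vs g1 Z m L (t + 2 * Real.pi * v / L) * Vs g2 Z m L (t + 2 * Real.pi * v / L)) := by
    have b1 := Aw_cont c1 Z m L Lam t
    have b2 := Aw_cont c2 Z m L Lam t
    have b3 : Continuous (fun v => Vs g1 Z m L (t + 2 * Real.pi * v / L)) :=
      (Vs_cont c1 Z m L).comp (by fun_prop)
    have b4 : Continuous (fun v => Vs g2 Z m L (t + 2 * Real.pi * v / L)) :=
      (Vs_cont c2 Z m L).comp (by fun_prop)
    exact (b1.mul b2).sub (b3.mul b4)
  have hpt : ∀ v ∈ Icc 0 Lam, |Aw g1 Z m L Lam t v * Aw g2 Z m L Lam t v -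
      Vs g1 Z m L (t + 2 * Real.pi * v / L) * Vs g2 Z m L (t + 2 * Real.pi * v / L)| ≤ R v := by
    intro v hv
    have d1 := diff_le hL hK h1 Z m t hv.1 hv.2
    have d2 := diff_le hL hK h2 Z m t hv.1 hv.2
    rw [← hSA, ← hSB, ← hS5] at d1 d2
    have a2 := Aw_le hK h2 Z m L Lam t v
    have b1 := Vs_le hL hK h1 Z m t v
    have hAl := Al_nonneg Z m L t v
    set A := Al Z m L t v with hA
    set a := Aw g1 Z m L Lam t v
    set b := Aw g2 Z m L Lam t v
    set x := Vs g1 Z m L (t + 2 * Real.pi * v / L)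
    set y := Vs g2 Z m L (t + 2 * Real.pi * v / L)
    have hu1 := u_pos v
    have hu2 := u_pos (Lam - v)
    set O := S5 + SA / u v + SB / u (Lam - v) with hO
    have hO0 : 0 ≤ O := by positivity
    have e1 : a * b - x * y = -(x - a) * b - x * (y - b) := by ring
    have s1 : |a * b - x * y| ≤ 2 * K ^ 2 * (O * A) := by
      rw [e1]
      refine (abs_sub _ _).trans ?_
      rw [abs_mul, abs_mul, abs_neg]
      have t1 : |x - a| * |b| ≤ (K * O) * (K * A) :=
        mul_le_mul d1 a2 (abs_nonneg _) (by positivity)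
      have t2 : |x| * |y - b| ≤ (K * A) * (K * O) :=
        mul_le_mul b1 d2 (abs_nonneg _) (by positivity)
      nlinarith
    have s2 : 2 * (O * A) ≤ O ^ 2 / η + η * A ^ 2 := by
      have : 0 ≤ (O - η * A) ^ 2 / η := by positivity
      have e2 : (O - η * A) ^ 2 / η = O ^ 2 / η - 2 * (O * A) + η * A ^ 2 := by
        field_simp
        ring
      linarith
    have s3 : O ^ 2 ≤ 3 * (SA ^ 2 * (1 / u v ^ 2) + SB ^ 2 * (1 / u (Lam - v) ^ 2) + S5 ^ 2) := by
      have e3 : SA ^ 2 * (1 / u v ^ 2) = (SA / u v) ^ 2 := by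
        field_simp
      have e4 : SB ^ 2 * (1 / u (Lam - v) ^ 2) = (SB / u (Lam - v)) ^ 2 := by
        field_simp
      rw [e3, e4, hO]
      nlinarith [sq_nonneg (S5 - SA / u v), sq_nonneg (S5 - SB / u (Lam - v)),
        sq_nonneg (SA / u v - SB / u (Lam - v))]
    have s4 : O ^ 2 / η ≤ 3 / η * (SA ^ 2 * (1 / u v ^ 2) + SB ^ 2 * (1 / u (Lam - v) ^ 2) +
        S5 ^ 2) := by
      rw [div_le_iff₀ hη]
      refine s3.trans (le_of_eq ?_)
      field_simp
    have s5 : 2 * K ^ 2 * (O * A) ≤ K ^ 2 * (3 / η * (SA ^ 2 * (1 / u v ^ 2) +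
        SB ^ 2 * (1 / u (Lam - v) ^ 2) + S5 ^ 2) + η * A ^ 2) := by
      have : 2 * (O * A) ≤ 3 / η * (SA ^ 2 * (1 / u v ^ 2) + SB ^ 2 * (1 / u (Lam - v) ^ 2) +
        S5 ^ 2) + η * A ^ 2 := by linarith
      have h6 := mul_le_mul_of_nonneg_left this (sq_nonneg K)
      linarith
    refine s1.trans (s5.trans (le_of_eq ?_))
    simp only [hR]
    rw [← hA]
    ring
  have hstep : |∫ v in (0 : ℝ)..Lam, (Aw g1 Z m L Lam t v * Aw g2 Z m L Lam t v -
      Vs g1 Z m L (t + 2 * Real.pi * v / L) * Vs g2 Z m L (t + 2 * Real.pi * v / L))| ≤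
      ∫ v in (0 : ℝ)..Lam, R v := by
    refine (intervalIntegral.abs_integral_le_integral_abs hLam).trans ?_
    exact intervalIntegral.integral_mono_on hLam (cD.abs.intervalIntegrable _ _)
      (cR.intervalIntegrable _ _) hpt
  refine hstep.trans ?_
  have i1 : ∫ v in (0 : ℝ)..Lam, 1 / u v ^ 2 ≤ c3 := by
    rw [intervalIntegral.integral_of_le hLam]
    exact setIntegral_le_integral int_u (Eventually.of_forall fun v => by
      simp only [Pi.zero_apply]; positivity)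
  have i2 : ∫ v in (0 : ℝ)..Lam, 1 / u (Lam - v) ^ 2 ≤ c3 := by
    rw [intervalIntegral.integral_comp_sub_left (fun v : ℝ => 1 / u v ^ 2) Lam, sub_self, sub_zero]
    exact i1
  have e5 : ∫ v in (0 : ℝ)..Lam, R v = 3 * K ^ 2 / η * (SA ^ 2 * (∫ v in (0 : ℝ)..Lam, 1 / u v ^ 2) +
      SB ^ 2 * (∫ v in (0 : ℝ)..Lam, 1 / u (Lam - v) ^ 2) + S5 ^ 2 * Lam) +
      K ^ 2 * η * ∫ v in (0 : ℝ)..Lam, Al Z m L t v ^ 2 := by
    simp only [hR]
    rw [intervalIntegral.integral_add, intervalIntegral.integral_const_mul,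
      intervalIntegral.integral_const_mul, intervalIntegral.integral_add,
      intervalIntegral.integral_add, intervalIntegral.integral_const_mul,
      intervalIntegral.integral_const_mul, intervalIntegral.integral_const, smul_eq_mul, sub_zero]
    · ring
    · exact (continuous_const.mul cu).intervalIntegrable _ _
    · exact (continuous_const.mul cu2).intervalIntegrable _ _
    · exact ((continuous_const.mul cu).add (continuous_const.mul cu2)).intervalIntegrable _ _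
    · exact continuous_const.intervalIntegrable _ _
    · exact (continuous_const.mul (((continuous_const.mul cu).add (continuous_const.mul cu2)).add
        continuous_const)).intervalIntegrable _ _
    · exact (continuous_const.mul (cA.pow 2)).intervalIntegrable _ _
  rw [e5]
  have k1 : SA ^ 2 * (∫ v in (0 : ℝ)..Lam, 1 / u v ^ 2) ≤ SA ^ 2 * c3 :=
    mul_le_mul_of_nonneg_left i1 (sq_nonneg _)
  have k2 : SB ^ 2 * (∫ v in (0 : ℝ)..Lam, 1 / u (Lam - v) ^ 2) ≤ SB ^ 2 * c3 :=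
    mul_le_mul_of_nonneg_left i2 (sq_nonneg _)
  have k3 : 0 ≤ 3 * K ^ 2 / η := by positivity
  have k4 := mul_le_mul_of_nonneg_left (add_le_add_right (add_le_add k1 k2) (S5 ^ 2 * Lam)) k3
  linarith

lemma al_sq {L Lam t : ℝ} (hLam : 0 ≤ Lam) (Z : Finset ℝ) (m : ℝ → ℕ) (N : ℕ) (hN : Lam ≤ N) :
    ∫ v in (0 : ℝ)..Lam, Al Z m L t v ^ 2 ≤
      9 * ∑ k ∈ Finset.range N, Ws (fun x => ww (x - k)) Z m L t ^ 2 := by
  have cA := (Al_cont Z m L t).pow 2
  have h1 : ∫ v in (0 : ℝ)..Lam, Al Z m L t v ^ 2 ≤ ∫ v in (0 : ℝ)..N, Al Z m L t v ^ 2 := by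
    refine intervalIntegral.integral_mono_interval le_rfl hLam hN ?_ (cA.intervalIntegrable _ _)
    exact Eventually.of_forall fun v => by simp only [Pi.zero_apply]; positivity
  refine h1.trans ?_
  have h2 := intervalIntegral.sum_integral_adjacent_intervals (μ := volume)
    (f := fun v => Al Z m L t v ^ 2) (a := fun k : ℕ => (k : ℝ)) (n := N)
    (fun k _ => cA.intervalIntegrable _ _)
  simp only [Nat.cast_zero] at h2
  rw [← h2, Finset.mul_sum]
  refine Finset.sum_le_sum fun k _ => ?_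
  have hk : (k : ℝ) ≤ ((k + 1 : ℕ) : ℝ) := by push_cast; linarith
  have h3 : ∫ v in (k : ℝ)..((k + 1 : ℕ) : ℝ), Al Z m L t v ^ 2 ≤
      ∫ v in (k : ℝ)..((k + 1 : ℕ) : ℝ), 9 * Ws (fun x => ww (x - k)) Z m L t ^ 2 := by
    refine intervalIntegral.integral_mono_on hk (cA.intervalIntegrable _ _)
      (continuous_const.intervalIntegrable _ _) ?_
    intro v hv
    have hv1 := hv.1
    have hv2 := hv.2
    push_cast at hv2
    have h4 : Al Z m L t v ≤ 3 * Ws (fun x => ww (x - k)) Z m L t := by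
      unfold Al Ws
      rw [Finset.mul_sum]
      refine Finset.sum_le_sum fun z _ => ?_
      have hx : (z - t) * L / (2 * Real.pi) = X L t z := rfl
      simp only [hx]
      set x := X L t z
      have h5 : ww (x - v) ≤ 3 * ww (x - k) := by
        unfold ww
        rw [mul_one_div, div_le_div_iff₀ (by positivity) (by positivity)]
        nlinarith [sq_nonneg ((x - v) - (v - k)), sq_nonneg (x - v)]
      have h6 := mul_le_mul_of_nonneg_left h5 (Nat.cast_nonneg (α := ℝ) (m z))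
      linarith
    have h0 := Al_nonneg Z m L t v
    calc Al Z m L t v ^ 2 ≤ (3 * Ws (fun x => ww (x - k)) Z m L t) ^ 2 := pow_le_pow_left₀ h0 h4 2
      _ = 9 * Ws (fun x => ww (x - k)) Z m L t ^ 2 := by ring
  refine h3.trans (le_of_eq ?_)
  rw [intervalIntegral.integral_const, smul_eq_mul]
  push_cast
  ring

/-- the inequality at one place -/
lemma pert {K L Lam t η : ℝ} {g1 g2 F : ℝ → ℝ} (hL : 0 < L) (hK : 0 < K) (hLam : 0 ≤ Lam)
    (hη : 0 < η) (c1 : Continuous g1) (c2 : Continuous g2)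
    (h1 : ∀ x, |g1 x| ≤ K / (1 + x ^ 2)) (h2 : ∀ x, |g2 x| ≤ K / (1 + x ^ 2))
    (hF : ∀ x y : ℝ, ∫ v, g1 (x - v) * g2 (y - v) = F (x - y))
    (Z : Finset ℝ) (m : ℝ → ℕ) (N : ℕ) (hN : Lam ≤ N) :
    |Ps F Z m L Lam t - ∫ v in (0 : ℝ)..Lam, Vs g1 Z m L (t + 2 * Real.pi * v / L) *
      Vs g2 Z m L (t + 2 * Real.pi * v / L)| ≤
      K ^ 2 * c3 * (1 + 3 / η) * Ws (fun x => ps Lam (x - 0)) Z m L t ^ 2 +
      K ^ 2 * c3 * (1 + 3 / η) * Ws (fun x => ps Lam (x - Lam)) Z m L t ^ 2 +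
      3 * K ^ 2 / η * Lam * Ws (hh L Lam) Z m L t ^ 2 +
      9 * K ^ 2 * η * ∑ k ∈ Finset.range N, Ws (fun x => ww (x - k)) Z m L t ^ 2 := by
  obtain ⟨hi, he⟩ := Ps_eq hK c1 c2 h1 h2 hF Z m L Lam t
  have cA : Continuous (fun v => Aw g1 Z m L Lam t v * Aw g2 Z m L Lam t v) :=
    (Aw_cont c1 Z m L Lam t).mul (Aw_cont c2 Z m L Lam t)
  have b3 : Continuous (fun v => Vs g1 Z m L (t + 2 * Real.pi * v / L)) :=
    (Vs_cont c1 Z m L).comp (by fun_prop)
  have b4 : Continuous (fun v => Vs g2 Z m L (t + 2 * Real.pi * v / L)) :=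
    (Vs_cont c2 Z m L).comp (by fun_prop)
  have b5 : Continuous (fun v => Vs g1 Z m L (t + 2 * Real.pi * v / L) *
      Vs g2 Z m L (t + 2 * Real.pi * v / L)) := b3.mul b4
  have e1 := intervalIntegral.integral_Iic_add_Ioi (b := (0 : ℝ)) hi.integrableOn hi.integrableOn
  have e2 := intervalIntegral.integral_interval_add_Ioi (a := (0 : ℝ)) (b := Lam)
    hi.integrableOn hi.integrableOn
  have e3 := intervalIntegral.integral_sub (μ := volume) (a := (0 : ℝ)) (b := Lam)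
    (cA.intervalIntegrable _ _) (b5.intervalIntegrable _ _)
  have o1 := outer_left (Lam := Lam) (t := t) hL hK h1 h2 Z m
  have o2 := outer_right (Lam := Lam) (t := t) hL hK h1 h2 Z m
  have o3 := inner (t := t) hL hK hLam hη c1 c2 h1 h2 Z m
  have o4 := al_sq (L := L) (t := t) hLam Z m N hN
  have e4 : Ps F Z m L Lam t - ∫ v in (0 : ℝ)..Lam, Vs g1 Z m L (t + 2 * Real.pi * v / L) *
      Vs g2 Z m L (t + 2 * Real.pi * v / L) =
      (∫ v in Iic (0 : ℝ), Aw g1 Z m L Lam t v * Aw g2 Z m L Lam t v) +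
      (∫ v in Ioi Lam, Aw g1 Z m L Lam t v * Aw g2 Z m L Lam t v) +
      ∫ v in (0 : ℝ)..Lam, (Aw g1 Z m L Lam t v * Aw g2 Z m L Lam t v -
      Vs g1 Z m L (t + 2 * Real.pi * v / L) * Vs g2 Z m L (t + 2 * Real.pi * v / L)) := by
    rw [he, e3]
    linarith
  rw [e4]
  refine (abs_add_three _ _ _).trans ?_
  have o5 := mul_le_mul_of_nonneg_left o4 (by positivity : 0 ≤ K ^ 2 * η)
  refine (add_le_add (add_le_add o1 o2) o3).trans ?_
  have e6 : 3 * K ^ 2 / η * (Ws (fun x => ps Lam (x - 0)) Z m L t ^ 2 * c3 +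
        Ws (fun x => ps Lam (x - Lam)) Z m L t ^ 2 * c3 + Ws (hh L Lam) Z m L t ^ 2 * Lam) =
      K ^ 2 * c3 * (3 / η) * Ws (fun x => ps Lam (x - 0)) Z m L t ^ 2 +
      K ^ 2 * c3 * (3 / η) * Ws (fun x => ps Lam (x - Lam)) Z m L t ^ 2 +
      3 * K ^ 2 / η * Lam * Ws (hh L Lam) Z m L t ^ 2 := by
    ring
  rw [e6]
  linarith

lemma hh_le {L Lam κ : ℝ} (hκ : 0 < κ) (hL : 20 * (4 + 4 * Lam ^ 2) ^ 2 / κ ^ 3 ≤ L ^ 2)
    (x : ℝ) : hh L Lam x ≤ κ / u x ^ 2 := by
  set c := 4 + 4 * Lam ^ 2 with hc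
  have hc0 : 0 < c := by positivity
  have hu := u_pos x
  have hL2 : 0 < L ^ 2 := lt_of_lt_of_le (by positivity) hL
  rcases le_or_gt c (κ * u x) with h | h
  · refine (min_le_right _ _).trans ?_
    rw [← hc, ← u_cube x, div_le_div_iff₀ (by positivity) (by positivity)]
    have := mul_le_mul_of_nonneg_right h (by positivity : 0 ≤ u x ^ 2)
    nlinarith
  · refine (min_le_left _ _).trans ?_
    rw [div_le_div_iff₀ hL2 (by positivity)]
    rw [div_le_iff₀ (by positivity)] at hL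
    have h1 : (κ * u x) ^ 2 ≤ c ^ 2 := pow_le_pow_left₀ (by positivity) h.le 2
    have h2 : κ ^ 2 * (20 * u x ^ 2) ≤ κ ^ 2 * (κ * L ^ 2) := by nlinarith
    exact le_of_mul_le_mul_left h2 (by positivity)

lemma int_le {a b : ℝ} (hab : a ≤ b) {E R : ℝ → ℝ} (hR : Continuous R) (hR0 : ∀ x, 0 ≤ R x)
    (h : ∀ x, E x ≤ R x) : ∫ t in a..b, E t ≤ ∫ t in a..b, R t := by
  by_cases hE : IntervalIntegrable E volume a b
  · exact intervalIntegral.integral_mono_on hab hE (hR.intervalIntegrable _ _) fun x _ => h x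
  · rw [intervalIntegral.integral_undef hE]
    exact intervalIntegral.integral_nonneg hab fun x _ => hR0 x

theorem t_BND (hcel : S_CEL) : S_BND := by
  intro C K g1 g2 F hC hK c1 c2 h1 h2 hF ε hε hε4
  obtain ⟨C1, Tc, hC1, hTc, hcel1⟩ := hcel C ε hC hε hε4
  have hB := B0_pos
  have hc3 := c3_nonneg
  obtain ⟨η, hη, hη1⟩ : ∃ η : ℝ, 0 < η ∧ 54 * K ^ 2 * B0 ^ 2 * C1 * η ≤ ε := by
    refine ⟨ε / (54 * K ^ 2 * B0 ^ 2 * C1), by positivity, le_of_eq ?_⟩
    field_simp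
  obtain ⟨β, hβ, hβ1⟩ : ∃ β : ℝ, 0 < β ∧ 9 * K ^ 2 / η * C1 * β ^ 2 ≤ ε := by
    refine ⟨min 1 (ε / (9 * K ^ 2 / η * C1)), lt_min one_pos (by positivity), ?_⟩
    set β := min 1 (ε / (9 * K ^ 2 / η * C1)) with hβd
    have b0 : 0 < β := lt_min one_pos (by positivity)
    have b1 : β ≤ 1 := min_le_left _ _
    have b2 : β ≤ ε / (9 * K ^ 2 / η * C1) := min_le_right _ _
    have b3 : β ^ 2 ≤ β := by nlinarith
    rw [le_div_iff₀ (by positivity)] at b2
    have b4 := mul_le_mul_of_nonneg_left b3 (by positivity : 0 ≤ 9 * K ^ 2 / η * C1)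
    linarith
  refine ⟨1 + 6 * (K ^ 2 * c3 * (1 + 3 / η)) * B0 ^ 2 * C1 / ε, by positivity, ?_⟩
  intro Lam hLam
  have hLam1 : 1 ≤ Lam := by
    have : 0 ≤ 6 * (K ^ 2 * c3 * (1 + 3 / η)) * B0 ^ 2 * C1 / ε := by positivity
    linarith
  have hLam2 : 6 * (K ^ 2 * c3 * (1 + 3 / η)) * B0 ^ 2 * C1 ≤ ε * Lam := by
    have : 6 * (K ^ 2 * c3 * (1 + 3 / η)) * B0 ^ 2 * C1 / ε ≤ Lam := by linarith
    rw [div_le_iff₀ hε] at this
    linarith
  have hLam0 : 0 ≤ Lam := by linarith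
  set κ := β / B0 with hκ
  have hκ0 : 0 < κ := by positivity
  have hκB : κ * B0 = β := by rw [hκ]; field_simp
  set c := 4 + 4 * Lam ^ 2 with hc
  have hc0 : 0 < c := by positivity
  have hul := u_pos Lam
  set L1 := 1 + 4 * u Lam / B0 + 4 * c / β + 4 / B0 + 20 * c ^ 2 / κ ^ 3 with hL1
  refine ⟨max (max Tc (Real.exp L1)) (200 * (Lam + 1) / ε), hTc.trans
    ((le_max_left _ _).trans (le_max_left _ _)), ?_⟩
  intro T hT Z m hZ
  have hT1 : Tc ≤ T := ((le_max_left _ _).trans (le_max_left _ _)).trans hT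
  have hT2 : Real.exp L1 ≤ T := ((le_max_right _ _).trans (le_max_left _ _)).trans hT
  have hT3 : 200 * (Lam + 1) / ε ≤ T := (le_max_right _ _).trans hT
  have hT0 : 0 < T := by linarith
  have hLT : L1 ≤ Real.log T := (Real.le_log_iff_exp_le hT0).2 hT2
  set L := Real.log T with hLd
  have q1 : 0 ≤ 4 * u Lam / B0 := by positivity
  have q2 : 0 ≤ 4 * c / β := by positivity
  have q3 : 0 ≤ 4 / B0 := by positivity
  have q4 : 0 ≤ 20 * c ^ 2 / κ ^ 3 := by positivity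
  have hL1' : 1 ≤ L := by linarith
  have hL0 : 0 < L := by linarith
  have r1 : 4 * u Lam ≤ B0 * L := by
    have : 4 * u Lam / B0 ≤ L := by linarith
    rw [div_le_iff₀ hB] at this
    linarith
  have r2 : 4 * c ≤ β * L := by
    have : 4 * c / β ≤ L := by linarith
    rw [div_le_iff₀ hβ] at this
    linarith
  have r3 : 4 * 1 ≤ B0 * L := by
    have : 4 / B0 ≤ L := by linarith
    rw [div_le_iff₀ hB] at this
    linarith
  have r4 : 20 * c ^ 2 / κ ^ 3 ≤ L ^ 2 := by nlinarith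
  have r5 : 2 * (Lam + 1) ≤ ε * T * L / 100 := by
    rw [div_le_iff₀ hε] at hT3
    have h5 : ε * T * 1 ≤ ε * T * L := mul_le_mul_of_nonneg_left hL1' (by positivity)
    rw [le_div_iff₀ (by norm_num)]
    linarith
  -- the four mean squares
  have cu : Continuous (fun x : ℝ => 1 / u x ^ 2) :=
    continuous_const.div (u_cont.pow 2) (fun x => (pow_pos (u_pos x) 2).ne')
  have m1 := cel' hcel1 T hT1 Z m hZ (ps Lam) (ps_cont Lam) (ps_nonneg Lam) 1 (u Lam) B0 0 (Lam + 1)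
    (fun x => min_le_left _ _) (fun x => min_le_right _ _) hul.le le_rfl (by linarith) (by linarith)
    (by linarith) r1 r5
  have m2 := cel' hcel1 T hT1 Z m hZ (ps Lam) (ps_cont Lam) (ps_nonneg Lam) 1 (u Lam) B0 Lam (Lam + 1)
    (fun x => min_le_left _ _) (fun x => min_le_right _ _) hul.le hLam0 (by linarith) (by linarith)
    (by linarith) r1 r5
  have m3 := cel' hcel1 T hT1 Z m hZ (hh L Lam) (hh_cont L Lam) (hh_nonneg L Lam) κ c β 0 (Lam + 1)
    (fun x => hh_le hκ0 r4 x) (fun x => min_le_right _ _) hc0.le le_rfl (by linarith) (by linarith)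
    hκB.le r2 r5
  have m4 : ∀ k ∈ Finset.range ⌈Lam⌉₊, ∫ t in (T + ε * T)..(2 * T - ε * T),
      Ws (fun x => ww (x - (k : ℕ))) Z m L t ^ 2 ≤ C1 * B0 ^ 2 * T := by
    intro k hk
    have hk1 : k < ⌈Lam⌉₊ := Finset.mem_range.1 hk
    have hk2 : (k : ℝ) < Lam := Nat.lt_ceil.1 hk1
    exact cel' hcel1 T hT1 Z m hZ ww ww_cont ww_nonneg 1 1 B0 k (Lam + 1)
      (fun x => ww_le x) (fun x => le_rfl) (by norm_num) (Nat.cast_nonneg k) (by linarith)
      (by linarith) (by linarith) r3 r5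
  have e0 : (fun x => hh L Lam (x - 0)) = hh L Lam := by
    funext x
    rw [sub_zero]
  rw [e0] at m3
  have hN : Lam ≤ (⌈Lam⌉₊ : ℝ) := Nat.le_ceil _
  have hN2 : (⌈Lam⌉₊ : ℝ) ≤ 2 * Lam := by
    have := (Nat.ceil_lt_add_one hLam0).le
    linarith
  set W1 := Ws (fun x => ps Lam (x - 0)) Z m L with hW1
  set W2 := Ws (fun x => ps Lam (x - Lam)) Z m L with hW2
  set W3 := Ws (hh L Lam) Z m L with hW3
  have d1 : Continuous W1 := Ws_cont ((ps_cont Lam).comp (by fun_prop)) Z m L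
  have d2 : Continuous W2 := Ws_cont ((ps_cont Lam).comp (by fun_prop)) Z m L
  have d3 : Continuous W3 := Ws_cont (hh_cont L Lam) Z m L
  have d4 : ∀ k : ℕ, Continuous (fun t => Ws (fun x => ww (x - (k : ℕ))) Z m L t ^ 2) := fun k =>
    (Ws_cont (ww_cont.comp (by fun_prop)) Z m L).pow 2
  set a1 := K ^ 2 * c3 * (1 + 3 / η) with ha1
  set a3 := 3 * K ^ 2 / η * Lam with ha3
  set a4 := 9 * K ^ 2 * η with ha4
  have ha1' : 0 ≤ a1 := by positivity
  have ha3' : 0 ≤ a3 := by positivity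
  have ha4' : 0 ≤ a4 := by positivity
  have hab : T + ε * T ≤ 2 * T - ε * T := by nlinarith
  have cR : Continuous (fun t => a1 * W1 t ^ 2 + a1 * W2 t ^ 2 + a3 * W3 t ^ 2 +
      a4 * ∑ k ∈ Finset.range ⌈Lam⌉₊, Ws (fun x => ww (x - (k : ℕ))) Z m L t ^ 2) := by
    refine (((continuous_const.mul (d1.pow 2)).add (continuous_const.mul (d2.pow 2))).add
      (continuous_const.mul (d3.pow 2))).add (continuous_const.mul ?_)
    exact continuous_finsetSum _ fun k _ => d4 k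
  have hmain := int_le hab (E := fun t => |Ps F Z m L Lam t -
    ∫ v in (0 : ℝ)..Lam, Vs g1 Z m L (t + 2 * Real.pi * v / L) *
      Vs g2 Z m L (t + 2 * Real.pi * v / L)|) cR
    (fun t => by
      have : 0 ≤ ∑ k ∈ Finset.range ⌈Lam⌉₊, Ws (fun x => ww (x - (k : ℕ))) Z m L t ^ 2 :=
        Finset.sum_nonneg fun k _ => sq_nonneg _
      positivity)
    (fun t => pert hL0 hK hLam0 hη c1 c2 h1 h2 hF Z m ⌈Lam⌉₊ hN)
  refine hmain.trans ?_
  have eR : ∫ t in (T + ε * T)..(2 * T - ε * T), (a1 * W1 t ^ 2 + a1 * W2 t ^ 2 + a3 * W3 t ^ 2 +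
      a4 * ∑ k ∈ Finset.range ⌈Lam⌉₊, Ws (fun x => ww (x - (k : ℕ))) Z m L t ^ 2) =
      a1 * (∫ t in (T + ε * T)..(2 * T - ε * T), W1 t ^ 2) +
      a1 * (∫ t in (T + ε * T)..(2 * T - ε * T), W2 t ^ 2) +
      a3 * (∫ t in (T + ε * T)..(2 * T - ε * T), W3 t ^ 2) +
      a4 * ∑ k ∈ Finset.range ⌈Lam⌉₊, ∫ t in (T + ε * T)..(2 * T - ε * T),
        Ws (fun x => ww (x - (k : ℕ))) Z m L t ^ 2 := by
    rw [intervalIntegral.integral_add, intervalIntegral.integral_add,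
      intervalIntegral.integral_add, intervalIntegral.integral_const_mul,
      intervalIntegral.integral_const_mul, intervalIntegral.integral_const_mul,
      intervalIntegral.integral_const_mul, intervalIntegral.integral_finset_sum]
    · intro k _
      exact (d4 k).intervalIntegrable _ _
    · exact (continuous_const.mul (d1.pow 2)).intervalIntegrable _ _
    · exact (continuous_const.mul (d2.pow 2)).intervalIntegrable _ _
    · exact ((continuous_const.mul (d1.pow 2)).add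
        (continuous_const.mul (d2.pow 2))).intervalIntegrable _ _
    · exact (continuous_const.mul (d3.pow 2)).intervalIntegrable _ _
    · exact (((continuous_const.mul (d1.pow 2)).add (continuous_const.mul (d2.pow 2))).add
        (continuous_const.mul (d3.pow 2))).intervalIntegrable _ _
    · exact (continuous_const.mul (continuous_finsetSum _ fun k _ => d4 k)).intervalIntegrable _ _
  rw [eR]
  have s4 : ∑ k ∈ Finset.range ⌈Lam⌉₊, ∫ t in (T + ε * T)..(2 * T - ε * T),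
        Ws (fun x => ww (x - (k : ℕ))) Z m L t ^ 2 ≤ 2 * Lam * (C1 * B0 ^ 2 * T) := by
    refine (Finset.sum_le_sum m4).trans ?_
    rw [Finset.sum_const, Finset.card_range, nsmul_eq_mul]
    exact mul_le_mul_of_nonneg_right hN2 (by positivity)
  have t1 := mul_le_mul_of_nonneg_left m1 ha1'
  have t2 := mul_le_mul_of_nonneg_left m2 ha1'
  have t3 := mul_le_mul_of_nonneg_left m3 ha3'
  have t4 := mul_le_mul_of_nonneg_left s4 ha4'
  have f1 : a1 * (C1 * B0 ^ 2 * T) + a1 * (C1 * B0 ^ 2 * T) ≤ ε * Lam * T / 3 := by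
    have := mul_le_mul_of_nonneg_right hLam2 hT0.le
    rw [le_div_iff₀ (by norm_num)]
    refine le_trans (le_of_eq ?_) this
    ring
  have f2 : a3 * (C1 * β ^ 2 * T) ≤ ε * Lam * T / 3 := by
    have := mul_le_mul_of_nonneg_right hβ1 (mul_nonneg hLam0 hT0.le)
    rw [le_div_iff₀ (by norm_num)]
    refine le_trans (le_of_eq ?_) (this.trans (le_of_eq ?_))
    · rw [ha3]; ring
    · ring
  have f3 : a4 * (2 * Lam * (C1 * B0 ^ 2 * T)) ≤ ε * Lam * T / 3 := by
    have := mul_le_mul_of_nonneg_right hη1 (mul_nonneg hLam0 hT0.le)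
    rw [le_div_iff₀ (by norm_num)]
    refine le_trans (le_of_eq ?_) (this.trans (le_of_eq ?_))
    · rw [ha4]; ring
    · ring
  linarith

end Pool.Agent.H478.QM.BND
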