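import Pool.Agent.H478.QM.Stm

/-! Mean squares of linear statistics (by helper52). -/

namespace Pool.Agent.H478.QM.CEL

open Filter Topology MeasureTheory

theorem ii_bdd {f : ℝ → ℝ} (hf : Measurable f) {M : ℝ} (h : ∀ x, |f x| ≤ M) (a b : ℝ) :
    IntervalIntegrable f volume a b := by
  rw [intervalIntegrable_iff]
  refine Measure.integrableOn_of_bounded (M := M) ?_ hf.aestronglyMeasurable ?_
  · rw [Set.uIoc, Real.volume_Ioc]
    exact ENNReal.ofReal_ne_top
  · exact Eventually.of_forall fun x => by rw [Real.norm_eq_abs]; exact h x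

/-- the number of points near `s` -/
noncomputable def nn (Z : Finset ℝ) (m : ℝ → ℕ) (L s : ℝ) : ℝ :=
  ∑ z ∈ Z.filter (fun z => |z - s| ≤ 2 * Real.pi / L), (m z : ℝ)

theorem nn_nonneg (Z : Finset ℝ) (m : ℝ → ℕ) (L s : ℝ) : 0 ≤ nn Z m L s :=
  Finset.sum_nonneg fun _ _ => Nat.cast_nonneg _

theorem nn_le (Z : Finset ℝ) (m : ℝ → ℕ) (L s : ℝ) : nn Z m L s ≤ ∑ z ∈ Z, (m z : ℝ) :=
  Finset.sum_le_sum_of_subset_of_nonneg (Finset.filter_subset _ _) fun _ _ _ => Nat.cast_nonneg _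

theorem nn_meas (Z : Finset ℝ) (m : ℝ → ℕ) (L : ℝ) : Measurable (nn Z m L) := by
  have h : nn Z m L = fun s => ∑ z ∈ Z, if |z - s| ≤ 2 * Real.pi / L then (m z : ℝ) else 0 := by
    funext s
    unfold nn
    rw [Finset.sum_filter]
  rw [h]
  refine Finset.measurable_sum _ fun z _ => ?_
  refine Measurable.ite ?_ measurable_const measurable_const
  exact measurableSet_le (by fun_prop) measurable_const

theorem nn_ii (Z : Finset ℝ) (m : ℝ → ℕ) (L d a b : ℝ) :
    IntervalIntegrable (fun t => nn Z m L (t + d) ^ 2) volume a b := by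
  refine ii_bdd (M := (∑ z ∈ Z, (m z : ℝ)) ^ 2) ?_ ?_ a b
  · exact ((nn_meas Z m L).comp (by fun_prop)).pow_const 2
  · intro x
    rw [abs_of_nonneg (sq_nonneg _)]
    exact pow_le_pow_left₀ (nn_nonneg Z m L _) (nn_le Z m L _) 2

/-- the pointwise bound -/
theorem pw {Z : Finset ℝ} {m : ℝ → ℕ} {L B K t : ℝ} (hL : 0 < L) (hK : 0 < K) (hB : 0 ≤ B) {w : ℝ → ℝ}
    {b : ℤ → ℝ} (hb0 : ∀ j, 0 ≤ b j) (hb : ∀ (j : ℤ) (x : ℝ), |x - j| ≤ 1 → w x ≤ b j)
    (hw : ∀ x : ℝ, K ≤ |x| → w x ≤ B * L / x ^ 2) :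
    Ws w Z m L t ≤ ∑ j ∈ Finset.Icc (-⌈K⌉) ⌈K⌉, b j * nn Z m L (t + 2 * Real.pi * j / L) +
      (∑ z ∈ Z, (m z : ℝ)) * (B * L / K ^ 2) := by
  have hpi := Real.pi_pos
  have h1 : ∀ z ∈ Z, (m z : ℝ) * w ((z - t) * L / (2 * Real.pi)) ≤
      ∑ j ∈ Finset.Icc (-⌈K⌉) ⌈K⌉, (if |z - (t + 2 * Real.pi * j / L)| ≤ 2 * Real.pi / L then b j * (m z : ℝ) else 0) +
        (m z : ℝ) * (B * L / K ^ 2) := by
    intro z _
    have hm : (0 : ℝ) ≤ m z := Nat.cast_nonneg _
    set x := (z - t) * L / (2 * Real.pi) with hx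
    have hE : 0 ≤ (m z : ℝ) * (B * L / K ^ 2) := by positivity
    have hS : ∀ j ∈ Finset.Icc (-⌈K⌉) ⌈K⌉,
        0 ≤ (if |z - (t + 2 * Real.pi * j / L)| ≤ 2 * Real.pi / L then b j * (m z : ℝ) else 0) := by
      intro j _
      split_ifs
      · exact mul_nonneg (hb0 j) hm
      · exact le_refl _
    by_cases hn : K ≤ |x|
    · have h2 := hw x hn
      have h3 : B * L / x ^ 2 ≤ B * L / K ^ 2 := by
        have h4 : K ^ 2 ≤ x ^ 2 := by
          rw [← sq_abs x]
          exact pow_le_pow_left₀ hK.le hn 2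
        exact div_le_div_of_nonneg_left (by positivity) (by positivity) h4
      have h5 : (m z : ℝ) * w x ≤ (m z : ℝ) * (B * L / K ^ 2) := mul_le_mul_of_nonneg_left (h2.trans h3) hm
      have h6 := Finset.sum_nonneg hS
      linarith
    · push Not at hn
      have hn' := abs_lt.1 hn
      have f1 := Int.floor_le x
      have f2 := Int.lt_floor_add_one x
      have hc := Int.le_ceil K
      have hj : ⌊x⌋ ∈ Finset.Icc (-⌈K⌉) ⌈K⌉ := by
        rw [Finset.mem_Icc]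
        constructor
        · rw [Int.le_floor]
          push_cast
          linarith
        · have : ((⌊x⌋ : ℤ) : ℝ) ≤ ((⌈K⌉ : ℤ) : ℝ) := by linarith
          exact_mod_cast this
      have h2 : w x ≤ b ⌊x⌋ := hb _ _ (by rw [abs_le]; constructor <;> linarith)
      have h3 : |z - (t + 2 * Real.pi * (⌊x⌋ : ℤ) / L)| ≤ 2 * Real.pi / L := by
        have e : z - (t + 2 * Real.pi * (⌊x⌋ : ℤ) / L) = 2 * Real.pi / L * (x - ⌊x⌋) := by
          rw [hx]
          field_simp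
          ring
        rw [e, abs_mul, abs_of_pos (by positivity : 0 < 2 * Real.pi / L)]
        have h4 : |x - (⌊x⌋ : ℤ)| ≤ 1 := by rw [abs_le]; constructor <;> linarith
        calc 2 * Real.pi / L * |x - (⌊x⌋ : ℤ)| ≤ 2 * Real.pi / L * 1 :=
              mul_le_mul_of_nonneg_left h4 (by positivity)
          _ = _ := mul_one _
      have h5 := Finset.single_le_sum hS hj
      rw [if_pos h3] at h5
      have h6 : (m z : ℝ) * w x ≤ b ⌊x⌋ * (m z : ℝ) := by
        rw [mul_comm]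
        exact mul_le_mul_of_nonneg_right h2 hm
      linarith
  unfold Ws
  refine (Finset.sum_le_sum h1).trans (le_of_eq ?_)
  rw [Finset.sum_add_distrib, ← Finset.sum_mul, Finset.sum_comm]
  congr 1
  refine Finset.sum_congr rfl fun j _ => ?_
  unfold nn
  rw [Finset.mul_sum, Finset.sum_filter]

theorem t_CEL : S_CEL := by
  intro C ε hC hε hε4
  have hpi := Real.pi_pos
  have hpi4 := Real.pi_lt_d2
  refine ⟨2 * C + 2 * (10 ^ 4 * C / ε ^ 2) ^ 2, 100 / ε ^ 2, by positivity, ?_, ?_⟩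
  · rw [le_div_iff₀ (by positivity)]
    nlinarith
  intro T hT Z m hP w _ hw0 b B hb hbs hbB hwB
  have hT2 : 100 ≤ ε ^ 2 * T := by
    rw [div_le_iff₀ (by positivity)] at hT
    linarith
  have hT0 : 0 < T := lt_of_lt_of_le (by positivity) hT
  have hT1600 : 1600 ≤ T := by
    have h2 : ε ^ 2 ≤ 1 / 16 := by nlinarith
    have h3 : ε ^ 2 * T ≤ 1 / 16 * T := mul_le_mul_of_nonneg_right h2 hT0.le
    linarith
  set L := Real.log T with hLdef
  have hL1 : 1 ≤ L := by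
    rw [hLdef, Real.le_log_iff_exp_le hT0]
    have := Real.exp_one_lt_d9
    linarith
  have hL0 : 0 < L := by linarith
  -- `εT ≥ 400`
  have hεT : 400 ≤ ε * T := by nlinarith
  -- `2 L ≤ 0.4 ε T`
  have hLT : 2 * L ≤ 2 / 5 * (ε * T) := by
    have h1 : L ≤ 2 * Real.sqrt T := by
      have h2 : L = 2 * Real.log (Real.sqrt T) := by
        rw [hLdef, Real.log_sqrt hT0.le]
        ring
      have h3 : Real.log (Real.sqrt T) ≤ Real.sqrt T - 1 := Real.log_le_sub_one_of_pos (Real.sqrt_pos.2 hT0)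
      linarith
    have h4 : 10 ≤ ε * Real.sqrt T := by
      have h5 : (10 : ℝ) ^ 2 ≤ (ε * Real.sqrt T) ^ 2 := by
        rw [mul_pow, Real.sq_sqrt hT0.le]
        linarith
      exact (pow_le_pow_iff_left₀ (by norm_num) (by positivity) two_ne_zero).1 h5
    have h6 : Real.sqrt T * Real.sqrt T = T := Real.mul_self_sqrt hT0.le
    have h7 := Real.sqrt_pos.2 hT0
    have h8 : 10 * Real.sqrt T ≤ ε * T := by
      calc 10 * Real.sqrt T ≤ (ε * Real.sqrt T) * Real.sqrt T := mul_le_mul_of_nonneg_right h4 h7.le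
        _ = ε * T := by rw [mul_assoc, h6]
    linarith
  set K := ε * T * L / 100 with hKdef
  have hK0 : 0 < K := by positivity
  have hb0 : ∀ j, 0 ≤ b j := fun j => (hw0 j).trans (hb j j (by simp))
  have hB0 : 0 ≤ B := (tsum_nonneg hb0).trans hbB
  have hsum : ∑ j ∈ Finset.Icc (-⌈K⌉) ⌈K⌉, b j ≤ B :=
    (hbs.sum_le_tsum _ fun i _ => hb0 i).trans hbB
  set E := 10 ^ 4 * C / ε ^ 2 * B / T with hE
  have hE0 : 0 ≤ E := by positivity
  -- pointwise
  have hpt : ∀ t, Ws w Z m L t ^ 2 ≤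
      2 * (B * ∑ j ∈ Finset.Icc (-⌈K⌉) ⌈K⌉, b j * nn Z m L (t + 2 * Real.pi * j / L) ^ 2) + 2 * E ^ 2 := by
    intro t
    have h1 := pw (Z := Z) (m := m) (t := t) hL0 hK0 hB0 hb0 hb hwB
    have h2 : (∑ z ∈ Z, (m z : ℝ)) * (B * L / K ^ 2) ≤ E := by
      calc (∑ z ∈ Z, (m z : ℝ)) * (B * L / K ^ 2) ≤ (C * T * L) * (B * L / K ^ 2) :=
            mul_le_mul_of_nonneg_right hP.tot (by positivity)
        _ = E := by
            rw [hE, hKdef]
            field_simp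
            norm_num
    have h0 : 0 ≤ Ws w Z m L t := Finset.sum_nonneg fun z _ => mul_nonneg (Nat.cast_nonneg _) (hw0 _)
    set S := ∑ j ∈ Finset.Icc (-⌈K⌉) ⌈K⌉, b j * nn Z m L (t + 2 * Real.pi * j / L) with hS
    have h3 : S ^ 2 ≤ (∑ j ∈ Finset.Icc (-⌈K⌉) ⌈K⌉, b j) *
        ∑ j ∈ Finset.Icc (-⌈K⌉) ⌈K⌉, b j * nn Z m L (t + 2 * Real.pi * j / L) ^ 2 :=
      Finset.sum_sq_le_sum_mul_sum_of_sq_le_mul _ (fun j _ => hb0 j)
        (fun j _ => mul_nonneg (hb0 j) (sq_nonneg _)) (fun j _ => le_of_eq (by ring))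
    have h4 : 0 ≤ ∑ j ∈ Finset.Icc (-⌈K⌉) ⌈K⌉, b j * nn Z m L (t + 2 * Real.pi * j / L) ^ 2 :=
      Finset.sum_nonneg fun j _ => mul_nonneg (hb0 j) (sq_nonneg _)
    have h5 : S ^ 2 ≤ B * ∑ j ∈ Finset.Icc (-⌈K⌉) ⌈K⌉, b j * nn Z m L (t + 2 * Real.pi * j / L) ^ 2 :=
      h3.trans (mul_le_mul_of_nonneg_right hsum h4)
    have h6 : Ws w Z m L t ^ 2 ≤ (S + E) ^ 2 := pow_le_pow_left₀ h0 (by linarith) 2
    nlinarith [sq_nonneg (S - E)]
  have hab : T + ε * T ≤ 2 * T - ε * T := by nlinarith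
  have hC1 : 0 ≤ (2 * C + 2 * (10 ^ 4 * C / ε ^ 2) ^ 2) * B ^ 2 * T := by positivity
  by_cases hii : IntervalIntegrable (fun t => Ws w Z m L t ^ 2) volume (T + ε * T) (2 * T - ε * T)
  swap
  · rw [intervalIntegral.integral_undef hii]
    exact hC1
  have hgi : ∀ j : ℤ, IntervalIntegrable (fun t => b j * nn Z m L (t + 2 * Real.pi * j / L) ^ 2) volume
      (T + ε * T) (2 * T - ε * T) := fun j => (nn_ii Z m L _ _ _).const_mul _
  have hsi : IntervalIntegrable (fun t => ∑ j ∈ Finset.Icc (-⌈K⌉) ⌈K⌉, b j * nn Z m L (t + 2 * Real.pi * j / L) ^ 2)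
      volume (T + ε * T) (2 * T - ε * T) := by
    have := IntervalIntegrable.sum (Finset.Icc (-⌈K⌉) ⌈K⌉) (f := fun (j : ℤ) t => b j * nn Z m L (t + 2 * Real.pi * j / L) ^ 2)
      (μ := volume) (a := T + ε * T) (b := 2 * T - ε * T) (fun j _ => hgi j)
    refine this.congr ?_
    intro t _
    simp only [Finset.sum_apply]
  have hGi : IntervalIntegrable (fun t => 2 * (B * ∑ j ∈ Finset.Icc (-⌈K⌉) ⌈K⌉,
      b j * nn Z m L (t + 2 * Real.pi * j / L) ^ 2) + 2 * E ^ 2) volume (T + ε * T) (2 * T - ε * T) :=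
    ((hsi.const_mul B).const_mul 2).add intervalIntegrable_const
  have hj : ∀ j ∈ Finset.Icc (-⌈K⌉) ⌈K⌉,
      ∫ t in (T + ε * T)..(2 * T - ε * T), b j * nn Z m L (t + 2 * Real.pi * j / L) ^ 2 ≤ b j * (C * T) := by
    intro j hj
    rw [intervalIntegral.integral_const_mul]
    refine mul_le_mul_of_nonneg_left ?_ (hb0 j)
    rw [intervalIntegral.integral_comp_add_right (fun s => nn Z m L s ^ 2) (2 * Real.pi * j / L)]
    rw [Finset.mem_Icc] at hj
    have hc := Int.ceil_lt_add_one K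
    have j1 : (j : ℝ) ≤ K + 1 := by
      have : (j : ℝ) ≤ (⌈K⌉ : ℤ) := by exact_mod_cast hj.2
      linarith
    have j2 : -(K + 1) ≤ (j : ℝ) := by
      have : ((-⌈K⌉ : ℤ) : ℝ) ≤ j := by exact_mod_cast hj.1
      push_cast at this
      linarith
    have k1 : 2 * Real.pi * (K + 1) / L ≤ 3 / 5 * (ε * T) := by
      have e : 2 * Real.pi * (K + 1) / L = 2 * Real.pi * (ε * T) / 100 + 2 * Real.pi / L := by
        rw [hKdef]
        field_simp
      rw [e]
      have e2 : 2 * Real.pi / L ≤ 2 * Real.pi := div_le_self (by positivity) hL1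
      nlinarith
    have k2 : 2 * Real.pi * j / L ≤ 3 / 5 * (ε * T) := by
      refine le_trans ?_ k1
      gcongr
    have k3 : -(3 / 5 * (ε * T)) ≤ 2 * Real.pi * j / L := by
      have : -(2 * Real.pi * (K + 1) / L) ≤ 2 * Real.pi * j / L := by
        rw [← neg_div, ← mul_neg]
        gcongr
      linarith
    refine (intervalIntegral.integral_mono_interval (c := T + 2 * L) (d := 2 * T - 2 * L) ?_ ?_ ?_ ?_ ?_).trans hP.sq
    · linarith
    · linarith
    · linarith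
    · exact Eventually.of_forall fun s => sq_nonneg _
    · have := nn_ii Z m L 0 (T + 2 * L) (2 * T - 2 * L)
      simpa using this
  calc ∫ t in (T + ε * T)..(2 * T - ε * T), Ws w Z m L t ^ 2 ≤
      ∫ t in (T + ε * T)..(2 * T - ε * T), (2 * (B * ∑ j ∈ Finset.Icc (-⌈K⌉) ⌈K⌉,
        b j * nn Z m L (t + 2 * Real.pi * j / L) ^ 2) + 2 * E ^ 2) :=
        intervalIntegral.integral_mono_on hab hii hGi fun t _ => hpt t
    _ = 2 * (B * ∑ j ∈ Finset.Icc (-⌈K⌉) ⌈K⌉,
        ∫ t in (T + ε * T)..(2 * T - ε * T), b j * nn Z m L (t + 2 * Real.pi * j / L) ^ 2) +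
          (2 * T - ε * T - (T + ε * T)) * (2 * E ^ 2) := by
        rw [intervalIntegral.integral_add ((hsi.const_mul B).const_mul 2) intervalIntegrable_const,
          intervalIntegral.integral_const_mul, intervalIntegral.integral_const_mul,
          intervalIntegral.integral_finsetSum fun j _ => hgi j, intervalIntegral.integral_const, smul_eq_mul]
    _ ≤ 2 * (B * ∑ j ∈ Finset.Icc (-⌈K⌉) ⌈K⌉, b j * (C * T)) + T * (2 * E ^ 2) := by
        gcongr with j hj'
        · exact hj j hj'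
        · nlinarith
    _ ≤ 2 * (B * (B * (C * T))) + T * (2 * E ^ 2) := by
        rw [← Finset.sum_mul]
        gcongr
    _ ≤ (2 * C + 2 * (10 ^ 4 * C / ε ^ 2) ^ 2) * B ^ 2 * T := by
        have e1 : T * (2 * E ^ 2) = 2 * (10 ^ 4 * C / ε ^ 2) ^ 2 * B ^ 2 * (1 / T) := by
          rw [hE]
          field_simp
        have e2 : 1 / T ≤ T := by
          rw [div_le_iff₀ hT0]
          nlinarith
        have e3 : 2 * (10 ^ 4 * C / ε ^ 2) ^ 2 * B ^ 2 * (1 / T) ≤ 2 * (10 ^ 4 * C / ε ^ 2) ^ 2 * B ^ 2 * T :=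
          mul_le_mul_of_nonneg_left e2 (by positivity)
        rw [e1]
        linarith

end Pool.Agent.H478.QM.CEL
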