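import Pool.Agent.H478.QM.Stm

namespace Pool.Agent.H478.QM.CNV

open Filter Topology MeasureTheory FourierTransform Pool.Agent.H478.QM

/-- real part and imaginary part of the exponential -/
theorem exp_eq (t : ℝ) : Complex.exp ((t : ℂ) * Complex.I) =
    (Real.cos t : ℂ) + (Real.sin t : ℂ) * Complex.I := by
  rw [Complex.exp_mul_I, Complex.ofReal_cos, Complex.ofReal_sin]

theorem cts_int {R : ℝ → ℝ} (hc : Continuous R) (hs : ∀ x, 1 / 2 ≤ |x| → R x = 0) {g : ℝ → ℝ}
    (hg : Continuous g) : Integrable (fun a => R a * g a) := by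
  apply (hc.mul hg).integrable_of_hasCompactSupport
  apply HasCompactSupport.of_support_subset_isCompact (K := Set.Icc (-1 : ℝ) 1) isCompact_Icc
  intro x hx
  by_contra h
  apply hx
  have h1 : 1 / 2 ≤ |x| := by
    by_contra h2
    push Not at h2
    rw [abs_lt] at h2
    exact h ⟨by linarith [h2.1], by linarith [h2.2]⟩
  show R x * g x = 0
  rw [hs x h1, zero_mul]

theorem cos_int {R : ℝ → ℝ} (hc : Continuous R) (he : ∀ x, R (-x) = R x)
    (hs : ∀ x, 1 / 2 ≤ |x| → R x = 0) (x : ℝ) :
    ∫ a : ℝ, R a * Real.cos (2 * Real.pi * x * a) = ctf R x := by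
  have hcont : Continuous fun a => R a * Real.cos (2 * Real.pi * x * a) := by fun_prop
  have h1 : ∫ a : ℝ, R a * Real.cos (2 * Real.pi * x * a) =
      ∫ a in (-1 : ℝ)..1, R a * Real.cos (2 * Real.pi * x * a) := by
    symm
    apply intervalIntegral.integral_eq_integral_of_support_subset
    intro a ha
    by_contra h
    apply ha
    have h1 : 1 / 2 ≤ |a| := by
      by_contra h2
      push Not at h2
      rw [abs_lt] at h2
      exact h ⟨by linarith [h2.1], by linarith [h2.2]⟩
    show R a * Real.cos (2 * Real.pi * x * a) = 0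
    rw [hs a h1, zero_mul]
  have h2 : ∫ a in (-1 : ℝ)..0, R a * Real.cos (2 * Real.pi * x * a) =
      ∫ a in (0 : ℝ)..1, R a * Real.cos (2 * Real.pi * x * a) := by
    have h3 := intervalIntegral.integral_comp_neg (a := 0) (b := 1)
      (fun a => R a * Real.cos (2 * Real.pi * x * a))
    simp only [he, mul_neg, Real.cos_neg, neg_zero] at h3
    exact h3.symm
  rw [h1, ← intervalIntegral.integral_add_adjacent_intervals (hcont.intervalIntegrable (-1) 0)
    (hcont.intervalIntegrable 0 1), h2, ctf]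
  ring

theorem sin_int {R : ℝ → ℝ} (he : ∀ x, R (-x) = R x) (x : ℝ) :
    ∫ a : ℝ, R a * Real.sin (2 * Real.pi * x * a) = 0 := by
  have h1 := integral_neg_eq_self (fun a => R a * Real.sin (2 * Real.pi * x * a))
    (volume : Measure ℝ)
  simp only [he, mul_neg, Real.sin_neg] at h1
  rw [integral_neg] at h1
  linarith

theorem four {R : ℝ → ℝ} (hc : Continuous R) (he : ∀ x, R (-x) = R x)
    (hs : ∀ x, 1 / 2 ≤ |x| → R x = 0) (x : ℝ) :
    𝓕 (fun a : ℝ => (R a : ℂ)) x = (ctf R x : ℂ) := by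
  rw [Real.fourier_real_eq_integral_exp_smul]
  have h1 : ∀ v : ℝ, Complex.exp (((-2 * Real.pi * v * x : ℝ) : ℂ) * Complex.I) • (R v : ℂ) =
      ((R v * Real.cos (2 * Real.pi * x * v) : ℝ) : ℂ) -
        ((R v * Real.sin (2 * Real.pi * x * v) : ℝ) : ℂ) * Complex.I := by
    intro v
    rw [exp_eq]
    have e1 : Real.cos (-2 * Real.pi * v * x) = Real.cos (2 * Real.pi * x * v) := by
      rw [← Real.cos_neg]
      congr 1
      ring
    have e2 : Real.sin (-2 * Real.pi * v * x) = -Real.sin (2 * Real.pi * x * v) := by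
      rw [← Real.sin_neg]
      congr 1
      ring
    rw [e1, e2, smul_eq_mul]
    push_cast
    ring
  simp_rw [h1]
  have i1 : Integrable fun v => ((R v * Real.cos (2 * Real.pi * x * v) : ℝ) : ℂ) :=
    (cts_int hc hs (by fun_prop)).ofReal
  have i2 : Integrable fun v => ((R v * Real.sin (2 * Real.pi * x * v) : ℝ) : ℂ) * Complex.I :=
    (cts_int hc hs (by fun_prop)).ofReal.mul_const _
  rw [integral_sub i1 i2, integral_mul_const, integral_complex_ofReal, integral_complex_ofReal,
    cos_int hc he hs, sin_int he]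
  simp

theorem ctf_neg (R : ℝ → ℝ) (x : ℝ) : ctf R (-x) = ctf R x := by
  unfold ctf
  congr 1
  apply intervalIntegral.integral_congr
  intro a _
  show R a * Real.cos (2 * Real.pi * -x * a) = R a * Real.cos (2 * Real.pi * x * a)
  have : 2 * Real.pi * -x * a = -(2 * Real.pi * x * a) := by ring
  rw [this, Real.cos_neg]

theorem int_of_bd {f : ℝ → ℝ} (hf : Continuous f) {K : ℝ} (hK : ∀ x, |f x| ≤ K / (1 + x ^ 2)) :
    Integrable f := by
  have h1 : Integrable fun x : ℝ => K * (1 + x ^ 2)⁻¹ := integrable_inv_one_add_sq.const_mul K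
  refine h1.mono' hf.aestronglyMeasurable (Eventually.of_forall fun x => ?_)
  rw [Real.norm_eq_abs]
  exact (hK x).trans (le_of_eq (div_eq_mul_inv _ _))

/-- self-adjointness of the Fourier transform on the line -/
theorem adj {f g : ℝ → ℂ} (hf : Integrable f) (hg : Integrable g) :
    ∫ a : ℝ, 𝓕 f a * g a = ∫ v : ℝ, f v * 𝓕 g v := by
  have h := VectorFourier.integral_fourierIntegral_smul_eq_flip (e := Real.fourierChar)
    (μ := (volume : Measure ℝ)) (ν := (volume : Measure ℝ)) (L := innerₗ ℝ) (f := f) (g := g)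
    Real.continuous_fourierChar (by exact continuous_inner) hf hg
  rw [flip_innerₗ] at h
  exact h

theorem t_CNV (h1 : S_DCY) : S_CNV := by
  intro R ψ a b hR hRe ha hab hb hRs hψ hψe hψ1 hψs x y
  have hRc : Continuous R := hR.continuous
  have hψc : Continuous ψ := hψ.continuous
  have hRs' : ∀ x, 1 / 2 ≤ |x| → R x = 0 := fun z hz => hRs z (by linarith)
  have hψs' : ∀ x, 1 / 2 ≤ |x| → ψ x = 0 := fun z hz => hψs z (by linarith)
  obtain ⟨hcR, K, hK0, hK⟩ := h1.1 R a hR hRe ha (by linarith) hRs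
  have hRi : Integrable fun a : ℝ => (R a : ℂ) := by
    have := (cts_int hRc hRs' (g := fun _ => 1) continuous_const).ofReal (𝕜 := ℂ)
    simpa using this
  have hfi : Integrable (ctf R) := int_of_bd hcR hK
  have hF : 𝓕 (fun a : ℝ => (R a : ℂ)) = fun x => (ctf R x : ℂ) :=
    funext fun z => four hRc hRe hRs' z
  have hinv : 𝓕⁻ (fun x : ℝ => (ctf R x : ℂ)) = fun a : ℝ => (R a : ℂ) := by
    rw [← hF]
    apply Continuous.fourierInv_fourier_eq (by fun_prop) hRi
    rw [hF]
    exact hfi.ofReal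
  -- the two functions
  set G : ℝ → ℂ := fun v => (ctf R (x - v) : ℂ) with hG
  set P : ℝ → ℂ := fun α => Complex.exp (((2 * Real.pi * y * α : ℝ) : ℂ) * Complex.I) * (ψ α : ℂ)
    with hP
  have hGi : Integrable G := (hfi.comp_sub_left x).ofReal
  have hPi : Integrable P := by
    have e1 : Integrable fun a : ℝ => (ψ a : ℂ) := by
      have := (cts_int hψc hψs' (g := fun _ => 1) continuous_const).ofReal (𝕜 := ℂ)
      simpa using this
    refine e1.norm.mono' ?_ (Eventually.of_forall fun α => ?_)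
    · apply Continuous.aestronglyMeasurable
      fun_prop
    · rw [hP]
      simp only [norm_mul, Complex.norm_exp_ofReal_mul_I, one_mul, le_refl]
  have hFP : ∀ v, 𝓕 P v = (ctf ψ (y - v) : ℂ) := by
    intro v
    have e1 : 𝓕 P v = 𝓕 (fun a : ℝ => (ψ a : ℂ)) (v - y) := by
      rw [Real.fourier_real_eq_integral_exp_smul, Real.fourier_real_eq_integral_exp_smul]
      apply integral_congr_ae
      refine Eventually.of_forall fun α => ?_
      show Complex.exp (((-2 * Real.pi * α * v : ℝ) : ℂ) * Complex.I) •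
        (Complex.exp (((2 * Real.pi * y * α : ℝ) : ℂ) * Complex.I) * (ψ α : ℂ)) =
        Complex.exp (((-2 * Real.pi * α * (v - y) : ℝ) : ℂ) * Complex.I) • (ψ α : ℂ)
      rw [smul_eq_mul, smul_eq_mul, ← mul_assoc, ← Complex.exp_add]
      congr 2
      push_cast
      ring
    rw [e1, four hψc hψe hψs']
    have e2 : v - y = -(y - v) := by ring
    rw [e2, ctf_neg]
  have hFG : ∀ α, 𝓕 G α = Complex.exp (((-2 * Real.pi * α * x : ℝ) : ℂ) * Complex.I) *
      (R α : ℂ) := by
    intro α
    have e1 : 𝓕⁻ (fun x : ℝ => (ctf R x : ℂ)) α = (R α : ℂ) := by rw [hinv]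
    rw [← e1, Real.fourierInv_eq', Real.fourier_real_eq_integral_exp_smul,
      ← integral_const_mul]
    have e2 := integral_sub_left_eq_self (fun v : ℝ =>
      Complex.exp (((-2 * Real.pi * v * α : ℝ) : ℂ) * Complex.I) • G v) (volume : Measure ℝ) x
    rw [← e2]
    apply integral_congr_ae
    refine Eventually.of_forall fun u => ?_
    show Complex.exp (((-2 * Real.pi * (x - u) * α : ℝ) : ℂ) * Complex.I) •
        (ctf R (x - (x - u)) : ℂ) =
      Complex.exp (((-2 * Real.pi * α * x : ℝ) : ℂ) * Complex.I) *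
        (Complex.exp (((2 * Real.pi * (inner ℝ u α) : ℝ) : ℂ) * Complex.I) • (ctf R u : ℂ))
    have e3 : x - (x - u) = u := by ring
    have e4 : inner ℝ u α = u * α := by simp [mul_comm]
    rw [e3, e4, smul_eq_mul, smul_eq_mul, ← mul_assoc, ← Complex.exp_add]
    congr 2
    push_cast
    ring
  have hadj := adj hGi hPi
  apply Complex.ofReal_injective
  rw [← integral_complex_ofReal]
  have e5 : ∫ v, ((ctf R (x - v) * ctf ψ (y - v) : ℝ) : ℂ) = ∫ v, G v * 𝓕 P v := by
    apply integral_congr_ae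
    refine Eventually.of_forall fun v => ?_
    show ((ctf R (x - v) * ctf ψ (y - v) : ℝ) : ℂ) = G v * 𝓕 P v
    rw [hFP, hG]
    push_cast
    ring
  rw [e5, ← hadj, ← four hRc hRe hRs' (x - y), Real.fourier_real_eq_integral_exp_smul]
  apply integral_congr_ae
  refine Eventually.of_forall fun α => ?_
  show 𝓕 G α * P α =
    Complex.exp (((-2 * Real.pi * α * (x - y) : ℝ) : ℂ) * Complex.I) • (R α : ℂ)
  have e6 : R α * ψ α = R α := by
    rcases le_or_gt a |α| with h | h
    · rw [hRs α h, zero_mul]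
    · rw [hψ1 α h.le, mul_one]
  have e7 : Complex.exp (((-2 * Real.pi * α * (x - y) : ℝ) : ℂ) * Complex.I) =
      Complex.exp (((-2 * Real.pi * α * x : ℝ) : ℂ) * Complex.I) *
        Complex.exp (((2 * Real.pi * y * α : ℝ) : ℂ) * Complex.I) := by
    rw [← Complex.exp_add]
    congr 1
    push_cast
    ring
  have e8 : (R α : ℂ) * (ψ α : ℂ) = (R α : ℂ) := by
    rw [← Complex.ofReal_mul, e6]
  rw [hFG, e7, smul_eq_mul]
  show Complex.exp (((-2 * Real.pi * α * x : ℝ) : ℂ) * Complex.I) * (R α : ℂ) *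
    (Complex.exp (((2 * Real.pi * y * α : ℝ) : ℂ) * Complex.I) * (ψ α : ℂ)) = _
  calc Complex.exp (((-2 * Real.pi * α * x : ℝ) : ℂ) * Complex.I) * (R α : ℂ) *
    (Complex.exp (((2 * Real.pi * y * α : ℝ) : ℂ) * Complex.I) * (ψ α : ℂ)) =
      Complex.exp (((-2 * Real.pi * α * x : ℝ) : ℂ) * Complex.I) *
        Complex.exp (((2 * Real.pi * y * α : ℝ) : ℂ) * Complex.I) *
          ((R α : ℂ) * (ψ α : ℂ)) := by ring
    _ = _ := by rw [e8]

end Pool.Agent.H478.QM.CNV
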