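import Pool.Agent.H478.QM.Stm

set_option autoImplicit false

/-! Project QM: decay of the cosine transform, and a smooth cut-off function. -/

open MeasureTheory

namespace Pool.Agent.H478.QM.DCY

theorem parts {R : ℝ → ℝ} {a : ℝ} (hR : ContDiff ℝ 2 R) (heven : ∀ x, R (-x) = R x)
    (ha : a < 1 / 2) (hv : ∀ x, a ≤ |x| → R x = 0) (c : ℝ) :
    c ^ 2 * ∫ α in (0 : ℝ)..1, R α * Real.cos (c * α) =
      -∫ α in (0 : ℝ)..1, deriv (deriv R) α * Real.cos (c * α) := by
  have hd : Differentiable ℝ R := hR.differentiable (by norm_num)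
  have hR1 : ContDiff ℝ 1 (deriv R) := by
    have h : ContDiff ℝ (1 + 1) R := by
      rw [one_add_one_eq_two]
      exact hR
    exact (contDiff_succ_iff_deriv.1 h).2.2
  have hd1 : Differentiable ℝ (deriv R) := hR1.differentiable (by norm_num)
  have hc2 : Continuous (deriv (deriv R)) := hR1.continuous_deriv le_rfl
  have r1 : R 1 = 0 := hv 1 (by rw [abs_one]; linarith)
  have d1 : deriv R 1 = 0 := by
    have h : R =ᶠ[nhds 1] fun _ => (0 : ℝ) := by
      filter_upwards [lt_mem_nhds (show a < 1 by linarith)] with x hx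
      exact hv x (le_trans hx.le (le_abs_self x))
    rw [h.deriv_eq, deriv_const]
  have d0 : deriv R 0 = 0 := by
    have h := deriv_comp_neg R (0 : ℝ)
    have h2 : (fun x => R (-x)) = R := funext heven
    rw [h2, neg_zero] at h
    linarith
  have hs : ∀ x : ℝ, HasDerivAt (fun α : ℝ => Real.sin (c * α)) (c * Real.cos (c * x)) x := by
    intro x
    have h := ((hasDerivAt_id x).const_mul c).sin
    simp only [id, mul_one] at h
    rw [mul_comm] at h
    exact h
  have hcs : ∀ x : ℝ, HasDerivAt (fun α : ℝ => -Real.cos (c * α)) (c * Real.sin (c * x)) x := by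
    intro x
    have h := (((hasDerivAt_id x).const_mul c).cos).neg
    simp only [id, mul_one, neg_mul, neg_neg] at h
    rw [mul_comm] at h
    exact h
  have A := intervalIntegral.integral_mul_deriv_eq_deriv_mul (a := 0) (b := 1) (u := R)
    (v := fun α => Real.sin (c * α)) (u' := deriv R) (v' := fun α => c * Real.cos (c * α))
    (fun x _ => (hd x).hasDerivAt) (fun x _ => hs x)
    (hd1.continuous.intervalIntegrable _ _)
    ((by fun_prop : Continuous fun α : ℝ => c * Real.cos (c * α)).intervalIntegrable _ _)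
  have B := intervalIntegral.integral_mul_deriv_eq_deriv_mul (a := 0) (b := 1) (u := deriv R)
    (v := fun α => -Real.cos (c * α)) (u' := deriv (deriv R)) (v' := fun α => c * Real.sin (c * α))
    (fun x _ => (hd1 x).hasDerivAt) (fun x _ => hcs x)
    (hc2.intervalIntegrable _ _)
    ((by fun_prop : Continuous fun α : ℝ => c * Real.sin (c * α)).intervalIntegrable _ _)
  rw [r1, mul_zero, Real.sin_zero, mul_zero, zero_mul, sub_zero, zero_sub] at A
  rw [d1, d0, zero_mul, zero_mul, sub_zero, zero_sub] at B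
  have A1 : ∫ x in (0 : ℝ)..1, R x * (c * Real.cos (c * x)) =
      c * ∫ x in (0 : ℝ)..1, R x * Real.cos (c * x) := by
    rw [← intervalIntegral.integral_const_mul]
    exact intervalIntegral.integral_congr fun x _ => by ring
  have B1 : ∫ x in (0 : ℝ)..1, deriv R x * (c * Real.sin (c * x)) =
      c * ∫ x in (0 : ℝ)..1, deriv R x * Real.sin (c * x) := by
    rw [← intervalIntegral.integral_const_mul]
    exact intervalIntegral.integral_congr fun x _ => by ring
  have B2 : ∫ x in (0 : ℝ)..1, deriv (deriv R) x * -Real.cos (c * x) =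
      -∫ x in (0 : ℝ)..1, deriv (deriv R) x * Real.cos (c * x) := by
    rw [← intervalIntegral.integral_neg]
    exact intervalIntegral.integral_congr fun x _ => by ring
  rw [A1] at A
  rw [B1, B2, neg_neg] at B
  rw [sq, mul_assoc, A, mul_neg, B]

theorem bound {f : ℝ → ℝ} (hf : Continuous f) : ∃ M : ℝ, 0 ≤ M ∧ ∀ c : ℝ,
    |∫ α in (0 : ℝ)..1, f α * Real.cos (c * α)| ≤ M := by
  obtain ⟨M, hM⟩ := isCompact_Icc.exists_bound_of_continuousOn (s := Set.Icc (0 : ℝ) 1)
    (f := f) hf.continuousOn
  have hM0 : 0 ≤ M := (norm_nonneg _).trans (hM 0 (by norm_num))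
  refine ⟨M, hM0, fun c => ?_⟩
  have h := intervalIntegral.norm_integral_le_of_norm_le_const (a := 0) (b := 1) (C := M)
    (f := fun α => f α * Real.cos (c * α)) fun x hx => ?_
  · rw [sub_zero, abs_one, mul_one, Real.norm_eq_abs] at h
    exact h
  · rw [Set.uIoc_of_le zero_le_one] at hx
    rw [norm_mul]
    have h1 := hM x ⟨hx.1.le, hx.2⟩
    have h2 : ‖Real.cos (c * x)‖ ≤ 1 := Real.abs_cos_le_one _
    calc ‖f x‖ * ‖Real.cos (c * x)‖ ≤ M * 1 := mul_le_mul h1 h2 (norm_nonneg _) hM0
      _ = M := mul_one _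

theorem t_DCY : S_DCY := by
  refine ⟨fun R a hR heven _ ha hv => ⟨?_, ?_⟩, fun a b ha hab => ?_⟩
  · have hRc : Continuous R := hR.continuous
    have h : Continuous fun x : ℝ =>
        ∫ α in (0 : ℝ)..1, R α * Real.cos (2 * Real.pi * x * α) := by
      refine intervalIntegral.continuous_parametric_intervalIntegral_of_continuous'
        (f := fun x α => R α * Real.cos (2 * Real.pi * x * α)) ?_ 0 1
      exact (hRc.comp continuous_snd).mul (by fun_prop)
    exact continuous_const.mul h
  · have hR1 : ContDiff ℝ 1 (deriv R) := by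
      have h : ContDiff ℝ (1 + 1) R := by
        rw [one_add_one_eq_two]
        exact hR
      exact (contDiff_succ_iff_deriv.1 h).2.2
    have hc2 : Continuous (deriv (deriv R)) := hR1.continuous_deriv le_rfl
    obtain ⟨M0, h00, h0⟩ := bound hR.continuous
    obtain ⟨M2, h20, h2⟩ := bound hc2
    refine ⟨2 * (M0 + M2) + 1, by linarith, fun x => ?_⟩
    have hx : 0 < 1 + x ^ 2 := by
      have := sq_nonneg x
      linarith
    rw [le_div_iff₀ hx]
    have hp := parts hR heven ha hv (2 * Real.pi * x)
    have g0 := h0 (2 * Real.pi * x)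
    have g2 := h2 (2 * Real.pi * x)
    unfold ctf
    rw [abs_mul, abs_two]
    have e : (2 * Real.pi * x) ^ 2 * |∫ α in (0 : ℝ)..1, R α * Real.cos (2 * Real.pi * x * α)| ≤ M2 := by
      rw [← abs_of_nonneg (sq_nonneg (2 * Real.pi * x)), ← abs_mul, hp, abs_neg]
      exact g2
    have hI := abs_nonneg (∫ α in (0 : ℝ)..1, R α * Real.cos (2 * Real.pi * x * α))
    generalize |∫ α in (0 : ℝ)..1, R α * Real.cos (2 * Real.pi * x * α)| = I at *
    have hpi : 1 ≤ (2 * Real.pi) ^ 2 := by
      have := Real.pi_gt_three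
      nlinarith
    have e2 : x ^ 2 * I ≤ (2 * Real.pi * x) ^ 2 * I := by
      refine mul_le_mul_of_nonneg_right ?_ hI
      rw [mul_pow]
      have := mul_le_mul_of_nonneg_right hpi (sq_nonneg x)
      linarith
    have e3 : 2 * I * (1 + x ^ 2) = 2 * I + 2 * (x ^ 2 * I) := by ring
    rw [e3]
    linarith
  · have hab2 : 0 < b ^ 2 - a ^ 2 := by nlinarith
    refine ⟨fun x => Real.smoothTransition ((b ^ 2 - x ^ 2) / (b ^ 2 - a ^ 2)), ?_, ?_, ?_, ?_, ?_⟩
    · refine Real.smoothTransition.contDiff.comp ?_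
      fun_prop
    · intro x
      simp only [neg_sq]
    · intro x hx
      refine Real.smoothTransition.one_of_one_le ?_
      rw [le_div_iff₀ hab2, one_mul]
      have := pow_le_pow_left₀ (abs_nonneg x) hx 2
      rw [sq_abs] at this
      linarith
    · intro x hx
      refine Real.smoothTransition.zero_of_nonpos ?_
      refine div_nonpos_of_nonpos_of_nonneg ?_ hab2.le
      have := pow_le_pow_left₀ (ha.trans hab).le hx 2
      rw [sq_abs] at this
      linarith
    · intro x
      rw [abs_of_nonneg (Real.smoothTransition.nonneg _)]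
      exact Real.smoothTransition.le_one _

end Pool.Agent.H478.QM.DCY
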