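import Pool.Agent.H478.QM.Stm

/-! QM-ENE (helper806 for helper478): the law of large numbers for the energy of a window. -/

set_option autoImplicit false
set_option maxHeartbeats 4000000

namespace Pool.Agent.H478.QM.ENE

open Filter Topology MeasureTheory

theorem dp_cont (α : ℕ → ℝ) (N : ℕ) : Continuous (dp α N) := by
  unfold dp
  refine continuous_finsetSum _ fun n _ => continuous_const.mul ?_
  refine Complex.continuous_exp.comp (Continuous.mul ?_ continuous_const)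
  exact Complex.continuous_ofReal.comp (continuous_id.mul continuous_const).neg

theorem wmean_le {F : ℝ → ℝ} (hF : Continuous F) (h0 : ∀ x, 0 ≤ F x) {a b lo hi L Lam : ℝ}
    (hab : a ≤ b) (hlo : lo ≤ a) (hL : 0 < L) (hLam : 0 < Lam)
    (hhi : b + 2 * Real.pi * Lam / L ≤ hi) :
    ∫ t in a..b, (1 / Lam * ∫ v in (0 : ℝ)..Lam, F (t + 2 * Real.pi * v / L)) ≤
      ∫ s in lo..hi, F s := by
  have hc : Continuous (Function.uncurry fun t v : ℝ => F (t + 2 * Real.pi * v / L)) := by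
    refine hF.comp ?_
    fun_prop
  rw [intervalIntegral.integral_const_mul]
  rw [intervalIntegral_intervalIntegral_swap
    ((hc.continuousOn.integrableOn_compact (isCompact_uIcc.prod isCompact_uIcc)).mono_set
      (Set.prod_mono Set.uIoc_subset_uIcc Set.uIoc_subset_uIcc))]
  have hI : 0 ≤ ∫ s in lo..hi, F s := by
    refine intervalIntegral.integral_nonneg ?_ fun s _ => h0 s
    have : 0 ≤ 2 * Real.pi * Lam / L := by positivity
    linarith
  have hv : ∀ v ∈ Set.Icc (0:ℝ) Lam, ∫ t in a..b, F (t + 2 * Real.pi * v / L) ≤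
      ∫ s in lo..hi, F s := by
    intro v hv
    rw [intervalIntegral.integral_comp_add_right]
    have h1 : 0 ≤ 2 * Real.pi * v / L := by
      have := hv.1
      positivity
    have h2 : 2 * Real.pi * v / L ≤ 2 * Real.pi * Lam / L := by
      have := hv.2
      gcongr
    exact intervalIntegral.integral_mono_interval (by linarith) (by linarith) (by linarith)
      (Eventually.of_forall h0) (hF.intervalIntegrable _ _)
  have hcv : Continuous fun v : ℝ => ∫ t in a..b, F (t + 2 * Real.pi * v / L) := by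
    refine intervalIntegral.continuous_parametric_intervalIntegral_of_continuous' ?_ a b
    exact hF.comp (by fun_prop)
  have h3 : ∫ v in (0:ℝ)..Lam, (∫ t in a..b, F (t + 2 * Real.pi * v / L)) ≤
      ∫ v in (0:ℝ)..Lam, (∫ s in lo..hi, F s) :=
    intervalIntegral.integral_mono_on hLam.le (hcv.intervalIntegrable _ _)
      (continuous_const.intervalIntegrable _ _) hv
  rw [intervalIntegral.integral_const, sub_zero, smul_eq_mul] at h3
  calc 1 / Lam * ∫ v in (0:ℝ)..Lam, (∫ t in a..b, F (t + 2 * Real.pi * v / L))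
      ≤ 1 / Lam * (Lam * ∫ s in lo..hi, F s) :=
        mul_le_mul_of_nonneg_left h3 (by positivity)
    _ = ∫ s in lo..hi, F s := by field_simp

/-- the prime part -/
noncomputable def pr (α : ℕ → ℝ) (n : ℕ) : ℝ := if n.Prime then α n else 0

/-- the rest -/
noncomputable def np (α : ℕ → ℝ) (n : ℕ) : ℝ := if n.Prime then 0 else α n

theorem dp_split (α : ℕ → ℝ) (N : ℕ) (t : ℝ) : dp α N t = dp (pr α) N t + dp (np α) N t := by
  unfold dp
  rw [← Finset.sum_add_distrib]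
  refine Finset.sum_congr rfl fun n _ => ?_
  rw [← add_mul]
  congr 1
  unfold pr np
  split_ifs <;> simp

theorem lm_nonneg (n : ℕ) : 0 ≤ lm n :=
  div_nonneg ArithmeticFunction.vonMangoldt_nonneg (Real.sqrt_nonneg _)

theorem pr_le {α : ℕ → ℝ} {c : ℝ} (hc : 0 ≤ c) (h : ∀ n, |α n| ≤ c * lm n) (n : ℕ) :
    |pr α n| ≤ c * lm n := by
  unfold pr
  split_ifs
  · exact h n
  · rw [abs_zero]
    exact mul_nonneg hc (lm_nonneg n)

theorem np_le {α : ℕ → ℝ} {c : ℝ} (hc : 0 ≤ c) (h : ∀ n, |α n| ≤ c * lm n) (n : ℕ) :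
    |np α n| ≤ c * lm n := by
  unfold np
  split_ifs
  · rw [abs_zero]
    exact mul_nonneg hc (lm_nonneg n)
  · exact h n

theorem sum_split {C c : ℝ} {α β : ℕ → ℝ} (hc : 0 ≤ c)
    (hC : ∀ s : Finset ℕ, (∀ n ∈ s, ¬ n.Prime) → ∑ n ∈ s, lm n ^ 2 ≤ C)
    (h1 : ∀ n, |α n| ≤ c * lm n) (h2 : ∀ n, |β n| ≤ c * lm n) (N : ℕ) :
    |∑ n ∈ Finset.Icc 2 N, α n * β n - ∑ n ∈ Finset.Icc 2 N, pr α n * pr β n| ≤ c ^ 2 * C := by
  classical
  rw [← Finset.sum_sub_distrib]
  have h3 : ∀ n ∈ Finset.Icc 2 N, α n * β n - pr α n * pr β n =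
      if ¬ n.Prime then α n * β n else 0 := by
    intro n _
    unfold pr
    split_ifs <;> simp_all
  rw [Finset.sum_congr rfl h3, ← Finset.sum_filter]
  refine (Finset.abs_sum_le_sum_abs _ _).trans ?_
  refine le_trans (Finset.sum_le_sum (g := fun n => c ^ 2 * lm n ^ 2) fun n _ => ?_) ?_
  · rw [abs_mul]
    calc |α n| * |β n| ≤ (c * lm n) * (c * lm n) :=
          mul_le_mul (h1 n) (h2 n) (abs_nonneg _) (mul_nonneg hc (lm_nonneg n))
      _ = c ^ 2 * lm n ^ 2 := by ring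
  · rw [← Finset.mul_sum]
    exact mul_le_mul_of_nonneg_left (hC _ fun n hn => (Finset.mem_filter.1 hn).2) (sq_nonneg c)

theorem wm_cont {f : ℝ → ℂ} (hf : Continuous f) (L Lam : ℝ) : Continuous (wm f L Lam) := by
  unfold wm
  refine continuous_const.mul ?_
  refine intervalIntegral.continuous_parametric_intervalIntegral_of_continuous' ?_ 0 Lam
  exact hf.comp (by fun_prop)

theorem sh_cont {f : ℝ → ℂ} (hf : Continuous f) (L t : ℝ) :
    Continuous fun v : ℝ => f (t + 2 * Real.pi * v / L) := hf.comp (by fun_prop)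

theorem wm_lin {f g h k : ℝ → ℂ} (hf : Continuous f) (hg : Continuous g) (hh : Continuous h)
    (hk : Continuous k) (c0 c1 c2 : ℂ) {L Lam t : ℝ} (hLam : 0 < Lam) :
    wm (fun s => c0 + c1 * f s + c2 * g s + 2 * h s + 2 * k s) L Lam t =
      c0 + c1 * wm f L Lam t + c2 * wm g L Lam t + 2 * wm h L Lam t + 2 * wm k L Lam t := by
  have hL' : (Lam : ℂ) ≠ 0 := by exact_mod_cast hLam.ne'
  unfold wm
  have i0 : IntervalIntegrable (fun _ : ℝ => c0) volume 0 Lam :=
    continuous_const.intervalIntegrable _ _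
  have i1 := ((sh_cont hf L t).const_mul c1).intervalIntegrable (μ := volume) 0 Lam
  have i2 := ((sh_cont hg L t).const_mul c2).intervalIntegrable (μ := volume) 0 Lam
  have i3 := ((sh_cont hh L t).const_mul 2).intervalIntegrable (μ := volume) 0 Lam
  have i4 := ((sh_cont hk L t).const_mul 2).intervalIntegrable (μ := volume) 0 Lam
  rw [intervalIntegral.integral_add (((i0.add i1).add i2).add i3) i4,
    intervalIntegral.integral_add ((i0.add i1).add i2) i3,
    intervalIntegral.integral_add (i0.add i1) i2,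
    intervalIntegral.integral_add i0 i1, intervalIntegral.integral_const_mul,
    intervalIntegral.integral_const_mul, intervalIntegral.integral_const_mul,
    intervalIntegral.integral_const_mul, intervalIntegral.integral_const, sub_zero]
  rw [Complex.real_smul]
  push_cast
  field_simp

theorem wm_re {F : ℝ → ℂ} (hF : Continuous F) (L Lam t : ℝ) :
    (wm F L Lam t).re = 1 / Lam * ∫ v in (0 : ℝ)..Lam, (F (t + 2 * Real.pi * v / L)).re := by
  unfold wm
  rw [Complex.re_ofReal_mul]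
  congr 1
  exact (Complex.reCLM.intervalIntegral_comp_comm
    ((sh_cont hF L t).intervalIntegrable (μ := volume) 0 Lam)).symm

theorem prime_part {D1 D2 : ℝ → ℂ} (h1 : Continuous D1) (h2 : Continuous D2)
    (r1 r2 σ : ℝ) {L Lam t : ℝ} (hLam : 0 < Lam) :
    |1 / Lam * (∫ v in (0 : ℝ)..Lam, (r1 - 2 * (D1 (t + 2 * Real.pi * v / L)).re) *
        (r2 - 2 * (D2 (t + 2 * Real.pi * v / L)).re)) - (r1 * r2 + 2 * σ)| ≤
      2 * |r1| * ‖wm D2 L Lam t‖ + 2 * |r2| * ‖wm D1 L Lam t‖ +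
      2 * ‖wm (fun s => D1 s * D2 s) L Lam t‖ +
      2 * ‖wm (fun s => D1 s * (starRingEnd ℂ) (D2 s)) L Lam t - (σ : ℂ)‖ := by
  have h3 : Continuous fun s => (starRingEnd ℂ) (D2 s) := Complex.continuous_conj.comp h2
  have e := wm_lin (h := fun s => D1 s * D2 s) (k := fun s => D1 s * (starRingEnd ℂ) (D2 s))
    h2 h1 (h1.mul h2) (h1.mul h3) ((r1 * r2 : ℝ) : ℂ) ((-2 * r1 : ℝ) : ℂ)
    ((-2 * r2 : ℝ) : ℂ) (L := L) (t := t) hLam
  have hc : Continuous fun s => ((r1 * r2 : ℝ) : ℂ) + ((-2 * r1 : ℝ) : ℂ) * D2 s +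
      ((-2 * r2 : ℝ) : ℂ) * D1 s + 2 * (D1 s * D2 s) +
      2 * (D1 s * (starRingEnd ℂ) (D2 s)) := by
    fun_prop
  have hre := wm_re hc L Lam t
  have hpt : ∀ s, (((r1 * r2 : ℝ) : ℂ) + ((-2 * r1 : ℝ) : ℂ) * D2 s +
      ((-2 * r2 : ℝ) : ℂ) * D1 s + 2 * (D1 s * D2 s) +
      2 * (D1 s * (starRingEnd ℂ) (D2 s))).re = (r1 - 2 * (D1 s).re) * (r2 - 2 * (D2 s).re) := by
    intro s
    simp only [Complex.add_re, Complex.mul_re, Complex.ofReal_re, Complex.ofReal_im,
      Complex.conj_re, Complex.conj_im, Complex.re_ofNat, Complex.im_ofNat]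
    ring
  simp_rw [hpt] at hre
  rw [← hre, e]
  have e2 : ((((r1 * r2 : ℝ) : ℂ) + ((-2 * r1 : ℝ) : ℂ) * wm D2 L Lam t +
      ((-2 * r2 : ℝ) : ℂ) * wm D1 L Lam t + 2 * wm (fun s => D1 s * D2 s) L Lam t +
      2 * wm (fun s => D1 s * (starRingEnd ℂ) (D2 s)) L Lam t).re - (r1 * r2 + 2 * σ)) =
      (((-2 * r1 : ℝ) : ℂ) * wm D2 L Lam t + ((-2 * r2 : ℝ) : ℂ) * wm D1 L Lam t +
        2 * wm (fun s => D1 s * D2 s) L Lam t +
        2 * (wm (fun s => D1 s * (starRingEnd ℂ) (D2 s)) L Lam t - (σ : ℂ))).re := by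
    simp only [Complex.add_re, Complex.mul_re, Complex.ofReal_re, Complex.ofReal_im,
      Complex.sub_re, Complex.sub_im, Complex.re_ofNat, Complex.im_ofNat]
    ring
  rw [e2]
  refine (Complex.abs_re_le_norm _).trans ?_
  refine (norm_add_le _ _).trans (add_le_add ((norm_add_le _ _).trans (add_le_add
    ((norm_add_le _ _).trans (add_le_add ?_ ?_)) ?_)) ?_)
  · rw [norm_mul, Complex.norm_real, Real.norm_eq_abs, abs_mul, abs_neg, abs_two]
  · rw [norm_mul, Complex.norm_real, Real.norm_eq_abs, abs_mul, abs_neg, abs_two]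
  · rw [norm_mul, Complex.norm_two]
  · rw [norm_mul, Complex.norm_two]

theorem int_lin {u v w z : ℝ → ℝ} (hu : Continuous u) (hv : Continuous v) (hw : Continuous w)
    (hz : Continuous z) (c0 c1 c2 a b : ℝ) :
    ∫ t in a..b, (c0 + c1 * u t + c1 * v t + c2 * w t + c2 * z t) =
      c0 * (b - a) + c1 * (∫ t in a..b, u t) + c1 * (∫ t in a..b, v t) +
        c2 * (∫ t in a..b, w t) + c2 * (∫ t in a..b, z t) := by
  have i0 : IntervalIntegrable (fun _ : ℝ => c0) volume a b :=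
    continuous_const.intervalIntegrable _ _
  have i1 := (hu.const_mul c1).intervalIntegrable (μ := volume) a b
  have i2 := (hv.const_mul c1).intervalIntegrable (μ := volume) a b
  have i3 := (hw.const_mul c2).intervalIntegrable (μ := volume) a b
  have i4 := (hz.const_mul c2).intervalIntegrable (μ := volume) a b
  rw [intervalIntegral.integral_add (((i0.add i1).add i2).add i3) i4,
    intervalIntegral.integral_add ((i0.add i1).add i2) i3,
    intervalIntegral.integral_add (i0.add i1) i2,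
    intervalIntegral.integral_add i0 i1, intervalIntegral.integral_const_mul,
    intervalIntegral.integral_const_mul, intervalIntegral.integral_const_mul,
    intervalIntegral.integral_const_mul, intervalIntegral.integral_const, smul_eq_mul]
  ring

theorem amgm (lam x y : ℝ) (h : 0 < lam) : x * y ≤ lam / 2 * x ^ 2 + 1 / (2 * lam) * y ^ 2 := by
  have h1 : 0 ≤ (lam * x - y) ^ 2 / (2 * lam) := by positivity
  have h2 : (lam * x - y) ^ 2 / (2 * lam) = lam / 2 * x ^ 2 + 1 / (2 * lam) * y ^ 2 - x * y := by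
    field_simp
    ring
  linarith

theorem lin_amgm (κ x : ℝ) (h : 0 < κ) : x ≤ κ / 2 + 1 / (2 * κ) * x ^ 2 := by
  have := amgm κ 1 x h
  linarith

theorem prod_diff {lam u1 u2 g1 g2 : ℝ} (h : 0 < lam) :
    |(u1 + g1) * (u2 + g2) - u1 * u2| ≤ lam / 2 * (u1 ^ 2 + u2 ^ 2) +
      (1 / (2 * lam) + 1 / 2) * (g1 ^ 2 + g2 ^ 2) := by
  have e : (u1 + g1) * (u2 + g2) - u1 * u2 = u1 * g2 + u2 * g1 + g1 * g2 := by ring
  rw [e]
  refine (abs_add_le _ _).trans ?_
  have h0 := abs_add_le (u1 * g2) (u2 * g1)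
  have h1 := amgm lam |u1| |g2| h
  have h2 := amgm lam |u2| |g1| h
  have h3 : |g1 * g2| ≤ (g1 ^ 2 + g2 ^ 2) / 2 := by
    rw [abs_le]
    constructor <;> nlinarith [sq_nonneg (g1 + g2), sq_nonneg (g1 - g2)]
  rw [← abs_mul, sq_abs, sq_abs] at h1 h2
  nlinarith [h0, h1, h2, h3]

theorem sq_two (a b : ℝ) : (a + b) ^ 2 ≤ 2 * a ^ 2 + 2 * b ^ 2 := by
  nlinarith [sq_nonneg (a - b)]

theorem re_sq (z : ℂ) : z.re ^ 2 ≤ ‖z‖ ^ 2 := by
  rw [← sq_abs]
  exact pow_le_pow_left₀ (abs_nonneg _) (Complex.abs_re_le_norm z) 2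

/-- the pointwise bound of the energy -/
theorem pt_bound {lam η A r1 r2 F1 F2 : ℝ} {D1 D2 E1 E2 : ℂ} (h : 0 < lam)
    (hr1 : |r1| ≤ A) (hr2 : |r2| ≤ A)
    (h1 : |F1 - (r1 - 2 * (D1 + E1).re)| ≤ η) (h2 : |F2 - (r2 - 2 * (D2 + E2).re)| ≤ η) :
    |F1 * F2 - (r1 - 2 * D1.re) * (r2 - 2 * D2.re)| ≤
      (2 * lam * A ^ 2 + (1 / (2 * lam) + 1 / 2) * (4 * η ^ 2)) + 4 * lam * ‖D1‖ ^ 2 +
        4 * lam * ‖D2‖ ^ 2 + 8 * (1 / (2 * lam) + 1 / 2) * ‖E1‖ ^ 2 +
        8 * (1 / (2 * lam) + 1 / 2) * ‖E2‖ ^ 2 := by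
  set μ := 1 / (2 * lam) + 1 / 2 with hμ
  have hμ0 : 0 < μ := by positivity
  have key := prod_diff (u1 := r1 - 2 * D1.re) (u2 := r2 - 2 * D2.re)
    (g1 := F1 - (r1 - 2 * D1.re)) (g2 := F2 - (r2 - 2 * D2.re)) h
  rw [add_sub_cancel, add_sub_cancel, ← hμ] at key
  have gb : ∀ (F r : ℝ) (D E : ℂ), |F - (r - 2 * (D + E).re)| ≤ η →
      (F - (r - 2 * D.re)) ^ 2 ≤ 2 * η ^ 2 + 8 * ‖E‖ ^ 2 := by
    intro F r D E hF
    have e : F - (r - 2 * D.re) = (F - (r - 2 * (D + E).re)) + (-2 * E.re) := by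
      rw [Complex.add_re]
      ring
    rw [e]
    refine (sq_two _ _).trans ?_
    have h3 : (F - (r - 2 * (D + E).re)) ^ 2 ≤ η ^ 2 := by
      rw [← sq_abs]
      exact pow_le_pow_left₀ (abs_nonneg _) hF 2
    have h4 := re_sq E
    nlinarith [h3, h4]
  have ub : ∀ (r : ℝ) (D : ℂ), |r| ≤ A → (r - 2 * D.re) ^ 2 ≤ 2 * A ^ 2 + 8 * ‖D‖ ^ 2 := by
    intro r D hr
    rw [sub_eq_add_neg]
    refine (sq_two _ _).trans ?_
    have h3 : r ^ 2 ≤ A ^ 2 := by
      rw [← sq_abs]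
      exact pow_le_pow_left₀ (abs_nonneg _) hr 2
    have h4 := re_sq D
    nlinarith [h3, h4]
  have g1 := gb F1 r1 D1 E1 h1
  have g2 := gb F2 r2 D2 E2 h2
  have u1 := ub r1 D1 hr1
  have u2 := ub r2 D2 hr2
  refine key.trans ?_
  have s1 : lam / 2 * ((r1 - 2 * D1.re) ^ 2 + (r2 - 2 * D2.re) ^ 2) ≤
      lam / 2 * ((2 * A ^ 2 + 8 * ‖D1‖ ^ 2) + (2 * A ^ 2 + 8 * ‖D2‖ ^ 2)) :=
    mul_le_mul_of_nonneg_left (add_le_add u1 u2) (by positivity)
  have s2 : μ * ((F1 - (r1 - 2 * D1.re)) ^ 2 + (F2 - (r2 - 2 * D2.re)) ^ 2) ≤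
      μ * ((2 * η ^ 2 + 8 * ‖E1‖ ^ 2) + (2 * η ^ 2 + 8 * ‖E2‖ ^ 2)) :=
    mul_le_mul_of_nonneg_left (add_le_add g1 g2) hμ0.le
  refine (add_le_add s1 s2).trans (le_of_eq ?_)
  ring

theorem t_ENE (h1 : S_MW) (h2 : S_M2) (h3 : S_V1) (h4 : S_V2) : S_ENE := by
  obtain ⟨C1, hC1, -, hMW, -⟩ := h1
  obtain ⟨C2, T2, hC2, hT2, hM2⟩ := h2
  intro A ε hA hε
  rcases le_or_gt (1 / 2) ε with hε2 | hε2
  · refine ⟨1, one_pos, 1, one_pos, fun Lam hLam => ⟨3, le_rfl,
      fun T hT N hN α β hα hβ r1 r2 hr1 hr2 f1 f2 hf1 hf2 hap1 hap2 => ?_⟩⟩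
    have hle : 2 * T - ε * T ≤ T + ε * T := by nlinarith
    rw [intervalIntegral.integral_symm]
    have h5 := intervalIntegral.integral_nonneg (μ := volume)
      (f := fun t => |1 / Lam * (∫ v in (0 : ℝ)..Lam,
        f1 (t + 2 * Real.pi * v / Real.log T) * f2 (t + 2 * Real.pi * v / Real.log T)) -
        (r1 * r2 + 2 * ∑ n ∈ Finset.Icc 2 N, α n * β n)|) hle fun _ _ => abs_nonneg _
    have : 0 ≤ ε * T := by positivity
    linarith
  set K : ℝ := 2 * A ^ 2 + 8 * C2 * A ^ 2 with hK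
  have hK0 : 0 ≤ K := by positivity
  set lam : ℝ := ε / (8 * (K + 1)) with hlam
  have hlam0 : 0 < lam := by positivity
  have hlamK : lam * K ≤ ε / 8 := by
    have e : lam * (K + 1) = ε / 8 := by
      rw [hlam]
      field_simp
    nlinarith
  set μ : ℝ := 1 / (2 * lam) + 1 / 2 with hμ
  have hμ0 : 0 < μ := by positivity
  set η : ℝ := min 1 (ε / (32 * μ))
  have hη0 : 0 < η := lt_min one_pos (by positivity)
  have hη2 : μ * (4 * η ^ 2) ≤ ε / 8 := by
    have e1 : η ≤ 1 := min_le_left _ _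
    have e2 : η ≤ ε / (32 * μ) := min_le_right _ _
    have e3 : η ^ 2 ≤ ε / (32 * μ) := by nlinarith
    calc μ * (4 * η ^ 2) ≤ μ * (4 * (ε / (32 * μ))) := by gcongr
      _ = ε / 8 := by field_simp; norm_num
  set κ : ℝ := ε / (16 * (A + 1)) with hκ
  have hκ0 : 0 < κ := by positivity
  obtain ⟨LamA, hLamA, hV1⟩ := h3 A (κ ^ 2) hA (by positivity)
  obtain ⟨LamB, hLamB, hV2⟩ := h4 A (κ ^ 2) hA (by positivity)
  refine ⟨η, hη0, max LamA LamB, lt_max_of_lt_left hLamA, fun Lam hLam => ?_⟩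
  have hLam0 : 0 < Lam := lt_of_lt_of_le hLamA ((le_max_left _ _).trans hLam)
  obtain ⟨TA, hTA, hV1⟩ := hV1 Lam ((le_max_left _ _).trans hLam)
  obtain ⟨TB, hTB, hV2⟩ := hV2 Lam ((le_max_right _ _).trans hLam)
  set Q : ℝ := 16 * μ * C2 * A ^ 2 + 2 * C1 * A ^ 2 with hQ
  have hQ0 : 0 ≤ Q := by positivity
  have hev : ∀ᶠ T : ℝ in atTop, 1 ≤ Real.log T ∧ 8 * Q / ε ≤ Real.log T ∧
      Real.log T ≤ ε / 2 * T ∧ 2 * Real.pi * Lam ≤ ε / 2 * T := by
    have e1 := Real.tendsto_log_atTop.eventually_ge_atTop 1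
    have e2 := Real.tendsto_log_atTop.eventually_ge_atTop (8 * Q / ε)
    have e3 := Real.isLittleO_log_id_atTop.bound (half_pos hε)
    have e4 : ∀ᶠ T : ℝ in atTop, 2 * Real.pi * Lam ≤ ε / 2 * T :=
      (tendsto_id.const_mul_atTop (half_pos hε)).eventually_ge_atTop _
    filter_upwards [e1, e2, e3, e4, eventually_ge_atTop (0 : ℝ)] with T t1 t2 t3 t4 t5
    refine ⟨t1, t2, ?_, t4⟩
    rw [id, Real.norm_eq_abs, Real.norm_eq_abs, abs_of_nonneg t5] at t3
    exact (le_abs_self _).trans t3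
  obtain ⟨TC, hTC⟩ := eventually_atTop.1 hev
  refine ⟨max (max TA TB) (max T2 TC), hTA.trans ((le_max_left _ _).trans (le_max_left _ _)),
    fun T hT N hN α β hα hβ r1 r2 hr1 hr2 f1 f2 hf1 hf2 hap1 hap2 => ?_⟩
  have hTA' : TA ≤ T := ((le_max_left _ _).trans (le_max_left _ _)).trans hT
  have hTB' : TB ≤ T := ((le_max_right _ _).trans (le_max_left _ _)).trans hT
  have hT2' : T2 ≤ T := ((le_max_left _ _).trans (le_max_right _ _)).trans hT
  obtain ⟨hL1, hLQ, hLT, hLamT⟩ := hTC T (((le_max_right _ _).trans (le_max_right _ _)).trans hT)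
  have hT3 : 3 ≤ T := hTA.trans hTA'
  have hNT : (N : ℝ) ≤ T := by
    refine le_trans ?_ hN
    have : N ≤ N ^ 2 := Nat.le_self_pow (by norm_num) N
    exact_mod_cast this
  set L := Real.log T with hL
  have hL0 : 0 < L := by linarith
  have hc0 : 0 ≤ A / L := by positivity
  have hT0 : 0 < T := by linarith
  -- the polynomials
  have hpa := pr_le hc0 hα
  have hpb := pr_le hc0 hβ
  have hna := np_le hc0 hα
  have hnb := np_le hc0 hβ
  have mD1 := (hM2 A T N (pr α) hA hT2' hNT hpa).1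
  have mD2 := (hM2 A T N (pr β) hA hT2' hNT hpb).1
  have mE1 := (hM2 A T N (np α) hA hT2' hNT hna).2 fun n hn => if_pos hn
  have mE2 := (hM2 A T N (np β) hA hT2' hNT hnb).2 fun n hn => if_pos hn
  have hp0 : ∀ (γ : ℕ → ℝ) (n : ℕ), ¬ n.Prime → pr γ n = 0 := fun γ n hn => if_neg hn
  have v4 := hV1 T hTA' N hN (pr α) (pr β) hpa hpb (hp0 α) (hp0 β)
  obtain ⟨v3, v1⟩ := hV2 T hTB' N hN (pr α) (pr β) hpa hpb (hp0 α) (hp0 β)
  obtain ⟨-, v2⟩ := hV2 T hTB' N hN (pr β) (pr α) hpb hpa (hp0 β) (hp0 α)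
  set D1 := dp (pr α) N with hD1
  set D2 := dp (pr β) N with hD2
  set E1 := dp (np α) N with hE1
  set E2 := dp (np β) N with hE2
  have cD1 : Continuous D1 := dp_cont _ _
  have cD2 : Continuous D2 := dp_cont _ _
  have cE1 : Continuous E1 := dp_cont _ _
  have cE2 : Continuous E2 := dp_cont _ _
  set σ : ℝ := ∑ n ∈ Finset.Icc 2 N, pr α n * pr β n with hσ
  set X1 : ℝ → ℝ := fun t => ‖wm (fun s => D1 s) L Lam t‖ with hX1
  set X2 : ℝ → ℝ := fun t => ‖wm (fun s => D2 s) L Lam t‖ with hX2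
  set X3 : ℝ → ℝ := fun t => ‖wm (fun s => D1 s * D2 s) L Lam t‖ with hX3
  set X4 : ℝ → ℝ := fun t =>
    ‖wm (fun s => D1 s * (starRingEnd ℂ) (D2 s)) L Lam t - (σ : ℂ)‖ with hX4
  have cX1 : Continuous X1 := (wm_cont cD1 L Lam).norm
  have cX2 : Continuous X2 := (wm_cont cD2 L Lam).norm
  have cX3 : Continuous X3 := (wm_cont (cD1.mul cD2) L Lam).norm
  have cX4 : Continuous X4 :=
    ((wm_cont (cD1.mul (Complex.continuous_conj.comp cD2)) L Lam).sub continuous_const).norm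
  set H : ℝ → ℝ := fun s => |f1 s * f2 s - (r1 - 2 * (D1 s).re) * (r2 - 2 * (D2 s).re)| with hH
  have ca : Continuous fun s => (r1 - 2 * (D1 s).re) * (r2 - 2 * (D2 s).re) := by
    have e1 := Complex.continuous_re.comp cD1
    have e2 := Complex.continuous_re.comp cD2
    exact (continuous_const.sub (continuous_const.mul e1)).mul
      (continuous_const.sub (continuous_const.mul e2))
  have cH : Continuous H := ((hf1.mul hf2).sub ca).abs
  set W : ℝ → ℝ := fun t => 1 / Lam * ∫ v in (0 : ℝ)..Lam, H (t + 2 * Real.pi * v / L) with hW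
  have cW : Continuous W := by
    refine continuous_const.mul ?_
    have e1 : Continuous (Function.uncurry fun t v : ℝ => H (t + 2 * Real.pi * v / L)) :=
      cH.comp (by fun_prop)
    exact intervalIntegral.continuous_parametric_intervalIntegral_of_continuous' e1 0 Lam
  set B : ℝ → ℝ := fun t => 2 * (A + 1) * κ + A / κ * X1 t ^ 2 + A / κ * X2 t ^ 2 +
    1 / κ * X3 t ^ 2 + 1 / κ * X4 t ^ 2 with hB
  have cB : Continuous B := by fun_prop
  set δ : ℝ := 2 * ((A / L) ^ 2 * C1) with hδ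
  have hδ0 : 0 ≤ δ := by positivity
  -- the intervals
  have hεT : ε * T ≤ 1 / 2 * T := mul_le_mul_of_nonneg_right hε2.le hT0.le
  have hεT0 : 0 ≤ ε * T := by positivity
  have hJ : T + ε * T ≤ 2 * T - ε * T := by linarith only [hεT]
  have hpL : 2 * Real.pi * Lam / L ≤ 2 * Real.pi * Lam :=
    div_le_self (by positivity) hL1
  -- pointwise
  have hpt : ∀ t, |1 / Lam * (∫ v in (0 : ℝ)..Lam,
      f1 (t + 2 * Real.pi * v / L) * f2 (t + 2 * Real.pi * v / L)) -
      (r1 * r2 + 2 * ∑ n ∈ Finset.Icc 2 N, α n * β n)| ≤ W t + B t + δ := by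
    intro t
    have q1 := prime_part cD1 cD2 r1 r2 σ (L := L) (t := t) hLam0
    have q2 : |1 / Lam * (∫ v in (0 : ℝ)..Lam,
        f1 (t + 2 * Real.pi * v / L) * f2 (t + 2 * Real.pi * v / L)) -
        1 / Lam * (∫ v in (0 : ℝ)..Lam, (r1 - 2 * (D1 (t + 2 * Real.pi * v / L)).re) *
        (r2 - 2 * (D2 (t + 2 * Real.pi * v / L)).re))| ≤ W t := by
      have csh : Continuous fun v : ℝ => t + 2 * Real.pi * v / L := by fun_prop
      have i1 : IntervalIntegrable (fun v : ℝ => f1 (t + 2 * Real.pi * v / L) *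
          f2 (t + 2 * Real.pi * v / L)) volume 0 Lam :=
        Continuous.intervalIntegrable ((hf1.comp csh).mul (hf2.comp csh)) _ _
      have i2 : IntervalIntegrable (fun v : ℝ => (r1 - 2 * (D1 (t + 2 * Real.pi * v / L)).re) *
          (r2 - 2 * (D2 (t + 2 * Real.pi * v / L)).re)) volume 0 Lam :=
        Continuous.intervalIntegrable (ca.comp csh) _ _
      rw [← mul_sub, ← intervalIntegral.integral_sub i1 i2,
        abs_mul, abs_of_pos (by positivity : (0:ℝ) < 1 / Lam)]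
      refine mul_le_mul_of_nonneg_left ?_ (by positivity)
      exact intervalIntegral.abs_integral_le_integral_abs hLam0.le
    have q3 := sum_split hc0 hMW hα hβ N
    have q4 : 2 * |r1| * ‖wm D2 L Lam t‖ + 2 * |r2| * ‖wm D1 L Lam t‖ +
        2 * ‖wm (fun s => D1 s * D2 s) L Lam t‖ +
        2 * ‖wm (fun s => D1 s * (starRingEnd ℂ) (D2 s)) L Lam t - (σ : ℂ)‖ ≤ B t := by
      have l1 := lin_amgm κ (X1 t) hκ0
      have l2 := lin_amgm κ (X2 t) hκ0
      have l3 := lin_amgm κ (X3 t) hκ0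
      have l4 := lin_amgm κ (X4 t) hκ0
      have n1 : 0 ≤ X1 t := norm_nonneg _
      have n2 : 0 ≤ X2 t := norm_nonneg _
      have m1 : |r1| * X2 t ≤ A * (κ / 2 + 1 / (2 * κ) * X2 t ^ 2) :=
        mul_le_mul hr1 l2 n2 hA
      have m2 : |r2| * X1 t ≤ A * (κ / 2 + 1 / (2 * κ) * X1 t ^ 2) :=
        mul_le_mul hr2 l1 n1 hA
      change 2 * |r1| * X2 t + 2 * |r2| * X1 t + 2 * X3 t + 2 * X4 t ≤ B t
      have e : B t = 2 * (A * (κ / 2 + 1 / (2 * κ) * X2 t ^ 2)) +
          2 * (A * (κ / 2 + 1 / (2 * κ) * X1 t ^ 2)) +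
          2 * (κ / 2 + 1 / (2 * κ) * X3 t ^ 2) + 2 * (κ / 2 + 1 / (2 * κ) * X4 t ^ 2) := by
        simp only [hB]
        field_simp
        ring
      rw [e]
      linarith only [m1, m2, l3, l4]
    have q5 := q1.trans q4
    rw [abs_le] at q2 q3 q5 ⊢
    have hσδ : δ = 2 * ((A / L) ^ 2 * C1) := rfl
    constructor
    · linarith only [q2.1, q3.2, q5.1, hσδ]
    · linarith only [q2.2, q3.1, q5.2, hσδ]
  -- integration
  have s1 : ∫ t in (T + ε * T)..(2 * T - ε * T), |1 / Lam * (∫ v in (0 : ℝ)..Lam,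
      f1 (t + 2 * Real.pi * v / L) * f2 (t + 2 * Real.pi * v / L)) -
      (r1 * r2 + 2 * ∑ n ∈ Finset.Icc 2 N, α n * β n)| ≤
      ∫ t in (T + ε * T)..(2 * T - ε * T), (W t + B t + δ) := by
    refine intervalIntegral.integral_mono_on hJ ?_ ?_ fun t _ => hpt t
    · refine Continuous.intervalIntegrable ?_ _ _
      refine ((continuous_const.mul ?_).sub continuous_const).abs
      have e1 : Continuous (Function.uncurry fun t v : ℝ =>
          f1 (t + 2 * Real.pi * v / L) * f2 (t + 2 * Real.pi * v / L)) :=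
        (hf1.comp (by fun_prop)).mul (hf2.comp (by fun_prop))
      exact intervalIntegral.continuous_parametric_intervalIntegral_of_continuous' e1 0 Lam
    · exact ((cW.add cB).add continuous_const).intervalIntegrable _ _
  have s2 : ∫ t in (T + ε * T)..(2 * T - ε * T), (W t + B t + δ) =
      (∫ t in (T + ε * T)..(2 * T - ε * T), W t) +
      (∫ t in (T + ε * T)..(2 * T - ε * T), B t) + (2 * T - ε * T - (T + ε * T)) * δ := by
    have i1 : IntervalIntegrable (fun t => W t + B t) volume (T + ε * T) (2 * T - ε * T) :=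
      Continuous.intervalIntegrable (cW.add cB) _ _
    have i2 : IntervalIntegrable (fun _ : ℝ => δ) volume (T + ε * T) (2 * T - ε * T) :=
      continuous_const.intervalIntegrable _ _
    rw [intervalIntegral.integral_add i1 i2,
      intervalIntegral.integral_add (cW.intervalIntegrable _ _) (cB.intervalIntegrable _ _),
      intervalIntegral.integral_const, smul_eq_mul]
  have s3 : ∫ t in (T + ε * T)..(2 * T - ε * T), W t ≤ ∫ s in (T + L)..(2 * T - L), H s :=
    wmean_le cH (fun x => abs_nonneg _) hJ (by linarith only [hLT, hεT0]) hL0 hLam0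
      (by linarith only [hpL, hLamT, hLT])
  have hI : T + L ≤ 2 * T - L := by linarith only [hLT, hεT, hT0]
  have s4 : ∫ s in (T + L)..(2 * T - L), H s ≤ ∫ s in (T + L)..(2 * T - L),
      ((2 * lam * A ^ 2 + μ * (4 * η ^ 2)) + 4 * lam * ‖D1 s‖ ^ 2 + 4 * lam * ‖D2 s‖ ^ 2 +
        8 * μ * ‖E1 s‖ ^ 2 + 8 * μ * ‖E2 s‖ ^ 2) := by
    refine intervalIntegral.integral_mono_on hI (cH.intervalIntegrable _ _) ?_ fun s hs => ?_
    · refine Continuous.intervalIntegrable ?_ _ _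
      fun_prop
    · have a1 := hap1 s hs.1 hs.2
      have a2 := hap2 s hs.1 hs.2
      rw [dp_split] at a1 a2
      exact pt_bound hlam0 hr1 hr2 a1 a2
  have s5 := int_lin (cD1.norm.pow 2) (cD2.norm.pow 2) (cE1.norm.pow 2) (cE2.norm.pow 2)
    (2 * lam * A ^ 2 + μ * (4 * η ^ 2)) (4 * lam) (8 * μ) (T + L) (2 * T - L)
  have mono1 : ∀ g : ℝ → ℝ, Continuous g → (∀ x, 0 ≤ g x) →
      ∫ s in (T + L)..(2 * T - L), g s ≤ ∫ s in (T / 2)..(3 * T), g s := fun g hg hg0 =>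
    intervalIntegral.integral_mono_interval (by linarith only [hL0, hT0]) hI
      (by linarith only [hL0, hT0]) (Eventually.of_forall hg0) (hg.intervalIntegrable _ _)
  have mono2 : ∀ g : ℝ → ℝ, Continuous g → (∀ x, 0 ≤ g x) →
      ∫ s in (T + ε * T)..(2 * T - ε * T), g s ≤ ∫ s in T..(2 * T), g s := fun g hg hg0 =>
    intervalIntegral.integral_mono_interval (by linarith only [hεT0]) hJ
      (by linarith only [hεT0]) (Eventually.of_forall hg0) (hg.intervalIntegrable _ _)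
  have b1 := (mono1 (fun s => ‖D1 s‖ ^ 2) (cD1.norm.pow 2) fun x => sq_nonneg _).trans mD1
  have b2 := (mono1 (fun s => ‖D2 s‖ ^ 2) (cD2.norm.pow 2) fun x => sq_nonneg _).trans mD2
  have b3 := (mono1 (fun s => ‖E1 s‖ ^ 2) (cE1.norm.pow 2) fun x => sq_nonneg _).trans mE1
  have b4 := (mono1 (fun s => ‖E2 s‖ ^ 2) (cE2.norm.pow 2) fun x => sq_nonneg _).trans mE2
  have s6 := int_lin (cX1.pow 2) (cX2.pow 2) (cX3.pow 2) (cX4.pow 2)
    (2 * (A + 1) * κ) (A / κ) (1 / κ) (T + ε * T) (2 * T - ε * T)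
  have d1 := (mono2 (fun s => X1 s ^ 2) (cX1.pow 2) fun x => sq_nonneg _).trans v1
  have d2 := (mono2 (fun s => X2 s ^ 2) (cX2.pow 2) fun x => sq_nonneg _).trans v2
  have d3 := (mono2 (fun s => X3 s ^ 2) (cX3.pow 2) fun x => sq_nonneg _).trans v3
  have d4 := (mono2 (fun s => X4 s ^ 2) (cX4.pow 2) fun x => sq_nonneg _).trans v4
  clear_value D1 D2 E1 E2 X1 X2 X3 X4 σ
  -- the first integral
  have w0 : 2 * T - L - (T + L) ≤ T := by linarith only [hL0]
  have w1 : ∫ t in (T + ε * T)..(2 * T - ε * T), W t ≤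
      (2 * lam * A ^ 2 + μ * (4 * η ^ 2)) * T + 4 * lam * (C2 * A ^ 2 * T) +
        4 * lam * (C2 * A ^ 2 * T) + 8 * μ * (C2 * A ^ 2 * T / L ^ 2) +
        8 * μ * (C2 * A ^ 2 * T / L ^ 2) := by
    refine s3.trans (s4.trans (s5.le.trans ?_))
    have k0 : 0 ≤ 2 * lam * A ^ 2 + μ * (4 * η ^ 2) := by positivity
    have k1 : 0 ≤ 4 * lam := by positivity
    have k2 : 0 ≤ 8 * μ := by positivity
    exact add_le_add (add_le_add (add_le_add (add_le_add (mul_le_mul_of_nonneg_left w0 k0)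
      (mul_le_mul_of_nonneg_left b1 k1)) (mul_le_mul_of_nonneg_left b2 k1))
      (mul_le_mul_of_nonneg_left b3 k2)) (mul_le_mul_of_nonneg_left b4 k2)
  have w2 : ∫ t in (T + ε * T)..(2 * T - ε * T), B t ≤
      2 * (A + 1) * κ * T + A / κ * (κ ^ 2 * T) + A / κ * (κ ^ 2 * T) +
        1 / κ * (κ ^ 2 * T) + 1 / κ * (κ ^ 2 * T) := by
    refine s6.le.trans ?_
    have k0 : 0 ≤ 2 * (A + 1) * κ := by positivity
    have k1 : 0 ≤ A / κ := by positivity
    have k2 : 0 ≤ 1 / κ := by positivity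
    have k3 : 2 * T - ε * T - (T + ε * T) ≤ T := by linarith only [hεT0]
    exact add_le_add (add_le_add (add_le_add (add_le_add (mul_le_mul_of_nonneg_left k3 k0)
      (mul_le_mul_of_nonneg_left d1 k1)) (mul_le_mul_of_nonneg_left d2 k1))
      (mul_le_mul_of_nonneg_left d3 k2)) (mul_le_mul_of_nonneg_left d4 k2)
  have w3 : (2 * T - ε * T - (T + ε * T)) * δ ≤ T * δ :=
    mul_le_mul_of_nonneg_right (by linarith only [hεT0]) hδ0
  have w4 : 2 * (A + 1) * κ * T + A / κ * (κ ^ 2 * T) + A / κ * (κ ^ 2 * T) +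
        1 / κ * (κ ^ 2 * T) + 1 / κ * (κ ^ 2 * T) = ε / 4 * T := by
    have e1 : A / κ * (κ ^ 2 * T) = A * κ * T := by field_simp
    have e2 : 1 / κ * (κ ^ 2 * T) = κ * T := by field_simp
    have e3 : (A + 1) * κ = ε / 16 := by
      rw [hκ]
      field_simp
    rw [e1, e2]
    linear_combination (4 * T) * e3
  have w5 : (2 * lam * A ^ 2 + μ * (4 * η ^ 2)) * T + 4 * lam * (C2 * A ^ 2 * T) +
        4 * lam * (C2 * A ^ 2 * T) + 8 * μ * (C2 * A ^ 2 * T / L ^ 2) +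
        8 * μ * (C2 * A ^ 2 * T / L ^ 2) + T * δ =
      (lam * K) * T + (μ * (4 * η ^ 2)) * T + Q / L ^ 2 * T := by
    rw [hδ, hQ, hK]
    field_simp
    ring
  have w6 : Q / L ^ 2 ≤ ε / 8 := by
    have e1 : Q / L ^ 2 ≤ Q / L := by
      refine div_le_div_of_nonneg_left hQ0 hL0 ?_
      nlinarith only [hL1]
    have e2 : Q / L ≤ ε / 8 := by
      rw [div_le_iff₀ hL0]
      rw [div_le_iff₀ hε] at hLQ
      linarith only [hLQ]
    exact e1.trans e2
  have w7 := mul_le_mul_of_nonneg_right hlamK hT0.le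
  have w8 := mul_le_mul_of_nonneg_right hη2 hT0.le
  have w9 := mul_le_mul_of_nonneg_right w6 hT0.le
  linarith only [s1, s2, w1, w2, w3, w4, w5, w7, w8, w9, hεT0]

end Pool.Agent.H478.QM.ENE
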