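import Pool.Agent.H478.QM.Stm2

/-! FOR: smoothed counts of zeros as Dirichlet polynomials (helper585). -/

namespace Pool.Agent.H478.QM.FOR

open Filter Topology MeasureTheory
open TC (cf EFD XX FF DP gs KK Adm)

lemma hh_cont {R : ℝ → ℝ} (hR : Continuous R) (e : ℝ) : Continuous (hh e R) := by
  unfold hh
  exact continuous_const.mul (hR.comp (continuous_const.mul continuous_id))

lemma R_bdd {R : ℝ → ℝ} {a : ℝ} (hR : Continuous R) (h0 : ∀ x, a ≤ |x| → R x = 0) :
    ∃ B : ℝ, 0 ≤ B ∧ ∀ x, |R x| ≤ B := by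
  obtain ⟨B, hB⟩ := (isCompact_Icc (a := -a) (b := a)).exists_bound_of_continuousOn hR.continuousOn
  refine ⟨max B 0, le_max_right _ _, fun x => ?_⟩
  rcases le_or_gt a |x| with h | h
  · rw [h0 x h, abs_zero]
    exact le_max_right _ _
  · have h1 := abs_lt.1 h
    exact (hB x ⟨h1.1.le, h1.2.le⟩).trans (le_max_left _ _)

lemma hh_bdd {R : ℝ → ℝ} {B e : ℝ} (he : 0 < e) (he1 : e ≤ 1 / 10) (hB : ∀ x, |R x| ≤ B) (ξ : ℝ) :
    |hh e R ξ| ≤ B := by
  unfold hh
  have hB0 : 0 ≤ B := (abs_nonneg _).trans (hB 0)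
  rw [abs_mul, abs_of_nonneg (by linarith : (0 : ℝ) ≤ 1 - e)]
  calc (1 - e) * |R ((1 - e) * ξ)| ≤ 1 * B :=
        mul_le_mul (by linarith) (hB _) (abs_nonneg _) zero_le_one
    _ = B := one_mul B

lemma adm {R : ℝ → ℝ} {a e : ℝ} (hR : Continuous R) (ha : 0 < a) (ha2 : a < 1 / 2) (he : 0 < e)
    (he1 : e ≤ 1 / 10) (h0 : ∀ x, a ≤ |x| → R x = 0) : Adm (a / (1 - e)) (hh e R) := by
  have h1e : 0 < 1 - e := by linarith
  have hc := hh_cont hR e
  obtain ⟨B, hB0, hB⟩ := R_bdd hR h0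
  constructor
  · positivity
  · rw [div_le_one h1e]
    linarith
  · exact hc.measurable
  · exact ⟨B, hh_bdd he he1 hB⟩
  · intro ξ hξ
    rw [div_lt_iff₀ h1e] at hξ
    unfold hh
    rw [h0 _ (by
      rw [mul_comm]
      exact hξ.le.trans (le_abs_self _)), mul_zero]
  · exact (hc.tendsto 0).mono_left nhdsWithin_le_nhds
  · have h2 := TC.weakT (hh e R) 0 1 hc le_rfl zero_le_one
    simp only [zero_mul, one_mul] at h2
    exact h2
  · have h2 := TC.weakT (fun ξ => (hh e R ξ) ^ 2) 0 1 (hc.pow 2) le_rfl zero_le_one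
    simp only [zero_mul, one_mul] at h2
    exact h2

lemma gs_int_le {M : ℝ} (hM : 0 < M) (x : ℝ) : ∫ ξ in (0 : ℝ)..1, gs (M * ξ - x) ≤ 1 / M := by
  rw [intervalIntegral.integral_of_le zero_le_one, ← TC.gs_scale_integral hM x]
  exact setIntegral_le_integral (TC.gs_scale_integrable hM x)
    (Eventually.of_forall fun ξ => TC.gs_nonneg _)

lemma part1 {R : ℝ → ℝ} {a e : ℝ} (hR : Continuous R) (he : 0 < e)
    (he1 : e ≤ 1 / 10) (h0 : ∀ x, a ≤ |x| → R x = 0) :
    ∃ A : ℝ, 0 ≤ A ∧ ∀ T : ℝ, 3 ≤ T → ∀ n : ℕ, |cc e R T n| ≤ A / Real.log T * lm n := by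
  have h1e : 0 < 1 - e := by linarith
  obtain ⟨B, hB0, hB⟩ := R_bdd hR h0
  refine ⟨B / (1 - e), by positivity, fun T hT n => ?_⟩
  have hl : 0 < Real.log T := Real.log_pos (by linarith)
  have hM : 0 < (1 - e) * Real.log T := mul_pos h1e hl
  have hc := hh_cont hR e
  have h1 : |∫ ξ in (0 : ℝ)..1, hh e R ξ * gs ((1 - e) * Real.log T * ξ - Real.log n)| ≤
      B * (1 / ((1 - e) * Real.log T)) := by
    have h2 : ‖∫ ξ in (0 : ℝ)..1, hh e R ξ * gs ((1 - e) * Real.log T * ξ - Real.log n)‖ ≤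
        ∫ ξ in (0 : ℝ)..1, B * gs ((1 - e) * Real.log T * ξ - Real.log n) := by
      apply intervalIntegral.norm_integral_le_of_norm_le zero_le_one
      · refine Eventually.of_forall fun ξ _ => ?_
        rw [norm_mul, Real.norm_eq_abs, Real.norm_of_nonneg (TC.gs_nonneg _)]
        exact mul_le_mul_of_nonneg_right (hh_bdd he he1 hB ξ) (TC.gs_nonneg _)
      · exact (continuous_const.mul (TC.gs_cont.comp (by fun_prop))).intervalIntegrable _ _
    rw [Real.norm_eq_abs] at h2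
    refine h2.trans ?_
    rw [intervalIntegral.integral_const_mul]
    exact mul_le_mul_of_nonneg_left (gs_int_le hM _) hB0
  unfold cc cf
  rw [abs_mul, abs_of_nonneg (TC.lam_nonneg n)]
  have h3 : B / (1 - e) / Real.log T * lm n = TC.lam n * (B * (1 / ((1 - e) * Real.log T))) := by
    unfold lm TC.lam
    field_simp
  rw [h3]
  exact mul_le_mul_of_nonneg_left h1 (TC.lam_nonneg n)

lemma XX_eq {R : ℝ → ℝ} {a e : ℝ} (hR : Continuous R) (ha : 0 < a) (ha2 : a < 1 / 2) (he : 0 < e)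
    (he1 : e ≤ 1 / 10) (h0 : ∀ x, a ≤ |x| → R x = 0) (Z : Finset ℝ) (m : ℝ → ℕ) (L t : ℝ) :
    2 * (XX Z m (hh e R) ((1 - e) * L) t).re = Vs (ctf R) Z m L t := by
  have h1e : 0 < 1 - e := by linarith
  have hc := hh_cont hR e
  have hpi := Real.pi_pos
  rw [TC.XX_re (adm hR ha ha2 he he1 h0)]
  have h1 : ∀ ξ : ℝ, hh e R ξ * (FF Z m ((1 - e) * L * ξ) t).re =
      ∑ g ∈ Z, ((m g : ℝ) * Real.exp (-(g - t) ^ 2 / 2)) *
        (hh e R ξ * Real.cos ((1 - e) * L * ξ * (g - t))) := by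
    intro ξ
    rw [TC.FF_re, Finset.mul_sum]
    refine Finset.sum_congr rfl fun g _ => ?_
    ring
  simp_rw [h1]
  rw [intervalIntegral.integral_finsetSum (fun g _ => by
    refine Continuous.intervalIntegrable ?_ _ _
    exact continuous_const.mul (hc.mul (Real.continuous_cos.comp (by fun_prop))))]
  unfold Vs
  rw [Finset.mul_sum]
  refine Finset.sum_congr rfl fun g _ => ?_
  rw [intervalIntegral.integral_const_mul]
  have h2 : ∫ ξ in (0 : ℝ)..1, hh e R ξ * Real.cos ((1 - e) * L * ξ * (g - t)) =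
      ∫ α in (0 : ℝ)..1, R α * Real.cos (2 * Real.pi * ((g - t) * L / (2 * Real.pi)) * α) := by
    have h3 : ∫ ξ in (0 : ℝ)..1, hh e R ξ * Real.cos ((1 - e) * L * ξ * (g - t)) =
        (1 - e) * ∫ ξ in (0 : ℝ)..1, R ((1 - e) * ξ) * Real.cos (L * ((1 - e) * ξ) * (g - t)) := by
      rw [← intervalIntegral.integral_const_mul]
      refine intervalIntegral.integral_congr fun ξ _ => ?_
      simp only [hh]
      rw [show L * ((1 - e) * ξ) * (g - t) = (1 - e) * L * ξ * (g - t) by ring]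
      ring
    have h3' : ∫ ξ in (0 : ℝ)..1, R ((1 - e) * ξ) * Real.cos (L * ((1 - e) * ξ) * (g - t)) =
        (1 - e)⁻¹ • ∫ α in ((1 - e) * 0)..((1 - e) * 1), R α * Real.cos (L * α * (g - t)) :=
      intervalIntegral.integral_comp_mul_left (fun α : ℝ => R α * Real.cos (L * α * (g - t))) h1e.ne'
    rw [h3, h3', smul_eq_mul, ← mul_assoc,
      mul_inv_cancel₀ h1e.ne', one_mul, mul_zero, mul_one]
    have hf : Continuous fun α : ℝ => R α * Real.cos (L * α * (g - t)) :=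
      hR.mul (Real.continuous_cos.comp (by fun_prop))
    have h4 := intervalIntegral.integral_add_adjacent_intervals
      (hf.intervalIntegrable (μ := volume) 0 (1 - e)) (hf.intervalIntegrable (μ := volume) (1 - e) 1)
    have h5 : ∫ α in (1 - e)..1, R α * Real.cos (L * α * (g - t)) = 0 := by
      rw [intervalIntegral.integral_of_le (by linarith)]
      apply setIntegral_eq_zero_of_forall_eq_zero
      intro α hα
      rw [h0 α (by
        rw [abs_of_nonneg (by linarith [hα.1])]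
        linarith [hα.1]), zero_mul]
    rw [h5, add_zero] at h4
    rw [h4]
    refine intervalIntegral.integral_congr fun α _ => ?_
    show R α * Real.cos (L * α * (g - t)) =
      R α * Real.cos (2 * Real.pi * ((g - t) * L / (2 * Real.pi)) * α)
    have h6 : 2 * Real.pi * ((g - t) * L / (2 * Real.pi)) * α = L * α * (g - t) := by
      field_simp
    rw [h6]
  rw [h2]
  unfold ctf
  ring

theorem t_FOR : S_FOR := by
  intro R a e hR ha ha2 he he1 h0
  refine ⟨part1 hR he he1 h0, ?_⟩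
  intro C η hC hη
  have h1e : 0 < 1 - e := by linarith
  obtain ⟨T1, hT1⟩ := TC.coef C e (η / 2) (a / (1 - e)) (hh e R) hC he he1 (by positivity)
    (adm hR ha ha2 he he1 h0)
  refine ⟨max T1 3, le_max_right _ _, ?_⟩
  intro T hT Z m hE t ht1 ht2
  have h1 := hT1 T t ((le_max_left _ _).trans hT) Z m hE ht1 ht2
  have h2 : (1 - e) * (a / (1 - e)) = a := by
    field_simp
  rw [h2] at h1
  have h3 : hh e R 0 / (2 * (1 - e)) = R 0 / 2 := by
    unfold hh
    rw [mul_zero]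
    field_simp
  rw [h3] at h1
  rw [← XX_eq hR ha ha2 he he1 h0 Z m (Real.log T) t]
  have h4 : dp (cc e R T) ⌊T ^ (a + e / 8)⌋₊ t =
      DP (cf (hh e R) ((1 - e) * Real.log T)) ⌊T ^ (a + e / 8)⌋₊ t := rfl
  rw [h4]
  have h5 := (Complex.abs_re_le_norm _).trans h1
  rw [Complex.sub_re, Complex.sub_re, Complex.ofReal_re] at h5
  rw [abs_le] at h5 ⊢
  constructor <;> linarith [h5.1, h5.2]

end Pool.Agent.H478.QM.FOR
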