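import Pool.Agent.H478.QM.Stm

open MeasureTheory Filter Topology Set
open scoped FourierTransform

namespace Pool.Agent.H478.QM.KAP

/-- the Fourier transform of an even function which vanishes outside of `[-1, 1]` -/
lemma fourier_even (g : ℝ → ℝ) (hg : Continuous g) (he : ∀ x, g (-x) = g x)
    (h0 : ∀ x, 1 ≤ |x| → g x = 0) (u : ℝ) :
    𝓕 (fun x => (g x : ℂ)) u = ((ctf g u : ℝ) : ℂ) := by
  rw [Real.fourier_real_eq_integral_exp_smul]
  set φ : ℝ → ℂ := fun v => Complex.exp (↑(-2 * Real.pi * v * u) * Complex.I) • (g v : ℂ) with hφ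
  have hφc : Continuous φ := by
    rw [hφ]
    fun_prop
  have hsupp : Function.support φ ⊆ Ioc (-1) 1 := by
    intro v hv
    by_contra hcon
    apply hv
    have h1 : 1 ≤ |v| := by
      rw [mem_Ioc, not_and_or, not_lt, not_le] at hcon
      rcases hcon with h | h
      · rw [abs_of_nonpos (by linarith)]
        linarith
      · rw [abs_of_pos (by linarith)]
        linarith
    simp [hφ, h0 v h1]
  rw [← intervalIntegral.integral_eq_integral_of_support_subset hsupp,
    ← intervalIntegral.integral_add_adjacent_intervals (b := 0) (hφc.intervalIntegrable _ _)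
      (hφc.intervalIntegrable _ _)]
  have h1 : ∫ v in (-1 : ℝ)..0, φ v = ∫ v in (0 : ℝ)..1, φ (-v) := by
    rw [intervalIntegral.integral_comp_neg, neg_zero]
  have hφn : Continuous fun v => φ (-v) := hφc.comp continuous_neg
  rw [h1, ← intervalIntegral.integral_add (hφn.intervalIntegrable _ _)
    (hφc.intervalIntegrable _ _)]
  have key : ∀ v, φ (-v) + φ v = ((2 * (g v * Real.cos (2 * Real.pi * u * v)) : ℝ) : ℂ) := by
    intro v
    simp only [hφ, he, smul_eq_mul]
    push_cast
    have e1 : (-2 * (Real.pi : ℂ) * -(v : ℂ) * (u : ℂ)) * Complex.I =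
        (2 * Real.pi * u * v : ℂ) * Complex.I := by ring
    have e2 : (-2 * (Real.pi : ℂ) * (v : ℂ) * (u : ℂ)) * Complex.I =
        -(2 * Real.pi * u * v : ℂ) * Complex.I := by ring
    rw [e1, e2, Complex.cos]
    ring
  simp_rw [key]
  rw [intervalIntegral.integral_ofReal, intervalIntegral.integral_const_mul]
  rfl

/-- the triangle function -/
noncomputable def tri (x : ℝ) : ℝ := max 0 (1 - |x|)

lemma tri_cont : Continuous tri := by
  unfold tri
  fun_prop

lemma tri_even (x : ℝ) : tri (-x) = tri x := by
  unfold tri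
  rw [abs_neg]

lemma tri_zero (x : ℝ) (hx : 1 ≤ |x|) : tri x = 0 := by
  unfold tri
  exact max_eq_left (by linarith)

lemma tri_pos {x : ℝ} (h0 : 0 ≤ x) (h1 : x ≤ 1) : tri x = 1 - x := by
  unfold tri
  rw [abs_of_nonneg h0]
  exact max_eq_right (by linarith)

lemma ctf_tri {u : ℝ} (hu : u ≠ 0) : ctf tri u = (Real.sin (Real.pi * u) / (Real.pi * u)) ^ 2 := by
  unfold ctf
  have e : ∫ α in (0 : ℝ)..1, tri α * Real.cos (2 * Real.pi * u * α) =
      ∫ α in (0 : ℝ)..1, (1 - α) * Real.cos (2 * Real.pi * u * α) := by
    refine intervalIntegral.integral_congr fun α hα => ?_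
    rw [uIcc_of_le zero_le_one] at hα
    simp only [tri_pos hα.1 hα.2]
  rw [e]
  set c : ℝ := 2 * Real.pi * u with hc
  have hc0 : c ≠ 0 := by
    rw [hc]
    have := Real.pi_ne_zero
    positivity
  have hder : ∀ α ∈ uIcc (0 : ℝ) 1,
      HasDerivAt (fun α => (1 - α) * Real.sin (c * α) / c - Real.cos (c * α) / c ^ 2)
        ((1 - α) * Real.cos (c * α)) α := by
    intro α _
    have h1 : HasDerivAt (fun α : ℝ => c * α) c α := by
      simpa using (hasDerivAt_id α).const_mul c
    have h2 : HasDerivAt (fun α : ℝ => 1 - α) (-1) α := by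
      simpa using (hasDerivAt_id α).const_sub 1
    have h3 := ((h2.mul h1.sin).div_const c).sub (h1.cos.div_const (c ^ 2))
    refine h3.congr_deriv ?_
    field_simp
    ring
  rw [intervalIntegral.integral_eq_sub_of_hasDerivAt hder
    ((by fun_prop : Continuous fun α : ℝ => (1 - α) * Real.cos (c * α)).intervalIntegrable _ _)]
  have hcos : Real.cos c = 1 - 2 * Real.sin (Real.pi * u) ^ 2 := by
    have : c = 2 * (Real.pi * u) := by rw [hc]; ring
    rw [this, Real.cos_two_mul, Real.cos_sq']
    ring
  have hpu : Real.pi * u ≠ 0 := mul_ne_zero Real.pi_ne_zero hu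
  simp only [mul_one, mul_zero, Real.sin_zero, Real.cos_zero, sub_self, zero_mul, zero_div]
  rw [hcos]
  have hc2 : c = 2 * (Real.pi * u) := by rw [hc]; ring
  rw [hc2]
  field_simp
  ring

theorem t_KAP (h1 : S_DCY) : S_KAP := by
  intro R a hR he ha ha2 h0
  obtain ⟨hcF, K, hK, hdec⟩ := h1.1 R a hR he ha ha2 h0
  have hRc : Continuous R := hR.continuous
  have h0' : ∀ x, 1 ≤ |x| → R x = 0 := fun x hx => h0 x (by linarith)
  have hFint : Integrable (ctf R) := by
    refine (integrable_inv_one_add_sq.const_mul K).mono' hcF.aestronglyMeasurable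
      (ae_of_all _ fun x => ?_)
    rw [Real.norm_eq_abs, ← div_eq_mul_inv]
    exact hdec x
  have hfour : 𝓕 (fun x => (R x : ℂ)) = fun u => ((ctf R u : ℝ) : ℂ) :=
    funext (fourier_even R hRc he h0')
  have hRcc : Continuous fun x => (R x : ℂ) := by fun_prop
  have hRint : Integrable fun x => (R x : ℂ) := by
    refine hRcc.integrable_of_hasCompactSupport (HasCompactSupport.intro (isCompact_Icc (a := -1) (b := 1)) ?_)
    intro x hx
    have h2 : 1 ≤ |x| := by
      rw [mem_Icc, not_and_or, not_le, not_le] at hx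
      rcases hx with h | h
      · rw [abs_of_nonpos (by linarith)]
        linarith
      · rw [abs_of_pos (by linarith)]
        linarith
    rw [h0' x h2, Complex.ofReal_zero]
  have hTint : Integrable fun x => (tri x : ℂ) := by
    refine (by have := tri_cont; fun_prop : Continuous fun x => (tri x : ℂ)).integrable_of_hasCompactSupport
      (HasCompactSupport.intro (isCompact_Icc (a := -1) (b := 1)) ?_)
    intro x hx
    have h2 : 1 ≤ |x| := by
      rw [mem_Icc, not_and_or, not_le, not_le] at hx
      rcases hx with h | h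
      · rw [abs_of_nonpos (by linarith)]
        linarith
      · rw [abs_of_pos (by linarith)]
        linarith
    rw [tri_zero x h2, Complex.ofReal_zero]
  have hFintc : Integrable fun u => ((ctf R u : ℝ) : ℂ) := hFint.ofReal
  have hinv := hRcc.fourierInv_fourier_eq hRint (by rw [hfour]; exact hFintc)
  rw [hfour] at hinv
  -- the integral of `F`
  have hA : ∫ u, ctf R u = R 0 := by
    have h2 := congrFun hinv 0
    rw [Real.fourierInv_eq'] at h2
    simp only [inner_zero_right, mul_zero, Complex.ofReal_zero, zero_mul, Complex.exp_zero,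
      one_smul] at h2
    rw [integral_complex_ofReal] at h2
    exact_mod_cast h2
  -- the twofold transform
  have hB : ∀ x, 𝓕 (fun u => ((ctf R u : ℝ) : ℂ)) x = (R x : ℂ) := by
    intro x
    have h2 := congrFun hinv (-x)
    rw [Real.fourierInv_eq_fourier_neg, neg_neg, he] at h2
    exact h2
  -- Parseval
  have hC : ∫ u, ctf tri u * ctf R u = ∫ x, tri x * R x := by
    have h2 := VectorFourier.integral_fourierIntegral_smul_eq_flip (L := innerₗ ℝ)
      Real.continuous_fourierChar continuous_inner hTint hFintc
    have h3 : ∀ ξ, VectorFourier.fourierIntegral Real.fourierChar volume (innerₗ ℝ)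
        (fun x => (tri x : ℂ)) ξ = ((ctf tri ξ : ℝ) : ℂ) := fun ξ =>
      fourier_even tri tri_cont tri_even tri_zero ξ
    have h4 : ∀ x, VectorFourier.fourierIntegral Real.fourierChar volume (innerₗ ℝ).flip
        (fun u => ((ctf R u : ℝ) : ℂ)) x = (R x : ℂ) := fun x => by
      rw [flip_innerₗ]
      exact hB x
    simp_rw [h3, h4, smul_eq_mul, ← Complex.ofReal_mul] at h2
    rw [integral_complex_ofReal, integral_complex_ofReal] at h2
    exact_mod_cast h2
  have hD : ∫ x, tri x * R x = 2 * ∫ α in (0 : ℝ)..1, (1 - α) * R α := by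
    have h2 := fourier_even (fun x => tri x * R x) (tri_cont.mul hRc)
      (fun x => by rw [tri_even, he]) (fun x hx => by rw [tri_zero x hx, zero_mul]) 0
    rw [Real.fourier_real_eq_integral_exp_smul] at h2
    simp only [mul_zero, Complex.ofReal_zero, zero_mul, Complex.exp_zero, one_smul] at h2
    rw [integral_complex_ofReal] at h2
    have h3 : ∫ x, tri x * R x = ctf (fun x => tri x * R x) 0 := by exact_mod_cast h2
    rw [h3]
    unfold ctf
    congr 1
    refine intervalIntegral.integral_congr fun α hα => ?_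
    rw [uIcc_of_le zero_le_one] at hα
    simp only [mul_zero, zero_mul, Real.cos_zero, mul_one]
    rw [tri_pos hα.1 hα.2]
  have hE : ctf R 0 = 2 * ∫ α in (0 : ℝ)..1, R α := by
    unfold ctf
    simp
  have hbd : ∀ u, |ctf tri u| ≤ 2 := by
    intro u
    by_cases hu : u = 0
    · subst hu
      unfold ctf
      have h2 : ∫ α in (0 : ℝ)..1, tri α * Real.cos (2 * Real.pi * 0 * α) = ∫ α in (0 : ℝ)..1, (1 - α) := by
        refine intervalIntegral.integral_congr fun α hα => ?_
        rw [uIcc_of_le zero_le_one] at hα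
        simp [tri_pos hα.1 hα.2]
      have h5 : ∫ α in (0 : ℝ)..1, (1 - α) = 1 / 2 := by
        rw [intervalIntegral.integral_sub (continuous_const.intervalIntegrable _ _)
          (continuous_id'.intervalIntegrable _ _)]
        simp
        norm_num
      rw [h2, h5]
      norm_num
    · rw [ctf_tri hu, abs_of_nonneg (by positivity), div_pow]
      have h3 : Real.sin (Real.pi * u) ^ 2 ≤ (Real.pi * u) ^ 2 := by
        rw [← sq_abs (Real.sin _), ← sq_abs (Real.pi * u)]
        exact pow_le_pow_left₀ (abs_nonneg _) Real.abs_sin_le_abs 2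
      have h4 : 0 < (Real.pi * u) ^ 2 := by
        have := mul_ne_zero Real.pi_ne_zero hu
        positivity
      rw [div_le_iff₀ h4]
      linarith
  have htc : Continuous (ctf tri) := by
    have h2 : Continuous (𝓕 (fun x => (tri x : ℂ))) :=
      VectorFourier.fourierIntegral_continuous Real.continuous_fourierChar
        (innerSL ℝ).continuous₂ hTint
    have h3 : ctf tri = fun u => (𝓕 (fun x => (tri x : ℂ)) u).re := by
      funext u
      rw [fourier_even tri tri_cont tri_even tri_zero u, Complex.ofReal_re]
    rw [h3]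
    exact Complex.continuous_re.comp h2
  have hprod : Integrable fun u => ctf tri u * ctf R u :=
    hFint.bdd_mul htc.aestronglyMeasurable (ae_of_all _ fun u => by
      rw [Real.norm_eq_abs]
      exact hbd u)
  have hF : ∫ u : ℝ, ctf R u * (1 - (Real.sin (Real.pi * u) / (Real.pi * u)) ^ 2) =
      (∫ u, ctf R u) - ∫ u, ctf tri u * ctf R u := by
    rw [← integral_sub hFint hprod]
    refine integral_congr_ae ?_
    filter_upwards [(Set.countable_singleton (0 : ℝ)).ae_notMem volume] with u hu
    rw [ctf_tri (by simpa using hu)]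
    ring
  rw [hF, hA, hC, hD, hE]
  have hG : ∫ α in (0 : ℝ)..1, (1 - α) * R α =
      (∫ α in (0 : ℝ)..1, R α) - ∫ α in (0 : ℝ)..1, α * R α := by
    have hc1 : Continuous fun α : ℝ => α * R α := continuous_id'.mul hRc
    rw [← intervalIntegral.integral_sub (hRc.intervalIntegrable _ _)
      (hc1.intervalIntegrable _ _)]
    refine intervalIntegral.integral_congr fun α _ => ?_
    ring
  rw [hG]
  ring

end Pool.Agent.H478.QM.KAP
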