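import Pool.Agent.H478.QM.Stm

/-!
# The large sieve for well spaced frequencies
-/

set_option autoImplicit false

namespace Pool.Agent.H478.QM.LS

open MeasureTheory

theorem pt {ι : Type} (s : Finset ι) (lam : ι → ℝ) (c : ι → ℂ) (b t : ℝ) :
    ((Real.exp (-b * t ^ 2) *
      ‖∑ i ∈ s, c i * Complex.exp (((lam i * t : ℝ) : ℂ) * Complex.I)‖ ^ 2 : ℝ) : ℂ) =
      ∑ i ∈ s, ∑ j ∈ s, (c i * (starRingEnd ℂ) (c j)) *
        Complex.exp (-(b : ℂ) * (t : ℂ) ^ 2 + ((lam i - lam j : ℝ) : ℂ) * Complex.I * t + 0) := by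
  rw [Complex.ofReal_mul, Complex.ofReal_pow, ← Complex.mul_conj', map_sum, Finset.sum_mul_sum,
    Finset.mul_sum]
  refine Finset.sum_congr rfl fun i _ => ?_
  rw [Finset.mul_sum]
  refine Finset.sum_congr rfl fun j _ => ?_
  rw [map_mul, ← Complex.exp_conj, map_mul, Complex.conj_ofReal, Complex.conj_I, Complex.ofReal_exp]
  have h1 : Complex.exp (((-b * t ^ 2 : ℝ)) : ℂ) * (c i *
      Complex.exp (((lam i * t : ℝ) : ℂ) * Complex.I) *
      ((starRingEnd ℂ) (c j) * Complex.exp (((lam j * t : ℝ) : ℂ) * -Complex.I))) =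
      c i * (starRingEnd ℂ) (c j) * (Complex.exp (((-b * t ^ 2 : ℝ)) : ℂ) *
        Complex.exp (((lam i * t : ℝ) : ℂ) * Complex.I) *
        Complex.exp (((lam j * t : ℝ) : ℂ) * -Complex.I)) := by ring
  rw [h1, ← Complex.exp_add, ← Complex.exp_add]
  congr 2
  push_cast
  ring

theorem main_int {ι : Type} (s : Finset ι) (lam : ι → ℝ) (c : ι → ℂ) {b : ℝ} (hb : 0 < b) :
    Integrable (fun t : ℝ => Real.exp (-b * t ^ 2) *
      ‖∑ i ∈ s, c i * Complex.exp (((lam i * t : ℝ) : ℂ) * Complex.I)‖ ^ 2) ∧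
    ∫ t : ℝ, Real.exp (-b * t ^ 2) *
      ‖∑ i ∈ s, c i * Complex.exp (((lam i * t : ℝ) : ℂ) * Complex.I)‖ ^ 2 ≤
      (Real.pi / b) ^ (1 / 2 : ℝ) * ∑ i ∈ s, ∑ j ∈ s, ‖c i‖ * ‖c j‖ *
        Real.exp (-(lam i - lam j) ^ 2 / (4 * b)) := by
  have hb' : (-(b : ℂ)).re < 0 := by simpa using hb
  have hint : ∀ i j, Integrable (fun t : ℝ => (c i * (starRingEnd ℂ) (c j)) *
        Complex.exp (-(b : ℂ) * (t : ℂ) ^ 2 + ((lam i - lam j : ℝ) : ℂ) * Complex.I * t + 0)) :=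
    fun i j => (integrable_cexp_quadratic' hb' _ _).const_mul _
  have hI : Integrable (fun t : ℝ => ((Real.exp (-b * t ^ 2) *
      ‖∑ i ∈ s, c i * Complex.exp (((lam i * t : ℝ) : ℂ) * Complex.I)‖ ^ 2 : ℝ) : ℂ)) := by
    simp_rw [pt]
    exact integrable_finsetSum _ fun i _ => integrable_finsetSum _ fun j _ => hint i j
  refine ⟨?_, ?_⟩
  · have h := hI.re
    exact h
  · have h1 : ‖∫ t : ℝ, ((Real.exp (-b * t ^ 2) *
      ‖∑ i ∈ s, c i * Complex.exp (((lam i * t : ℝ) : ℂ) * Complex.I)‖ ^ 2 : ℝ) : ℂ)‖ ≤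
      (Real.pi / b) ^ (1 / 2 : ℝ) * ∑ i ∈ s, ∑ j ∈ s, ‖c i‖ * ‖c j‖ *
        Real.exp (-(lam i - lam j) ^ 2 / (4 * b)) := by
      simp_rw [pt]
      rw [integral_finsetSum _ fun i _ => integrable_finsetSum _ fun j _ => hint i j,
        Finset.mul_sum]
      refine (norm_sum_le _ _).trans (Finset.sum_le_sum fun i _ => ?_)
      rw [integral_finsetSum _ fun j _ => hint i j, Finset.mul_sum]
      refine (norm_sum_le _ _).trans (Finset.sum_le_sum fun j _ => ?_)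
      rw [integral_const_mul, integral_cexp_quadratic hb', norm_mul, norm_mul, norm_mul,
        RCLike.norm_conj, Complex.norm_exp]
      have h2 : ‖((Real.pi : ℂ) / -(-(b : ℂ))) ^ (1 / 2 : ℂ)‖ = (Real.pi / b) ^ (1 / 2 : ℝ) := by
        rw [neg_neg, ← Complex.ofReal_div, Complex.norm_cpow_eq_rpow_re_of_pos
          (div_pos Real.pi_pos hb)]
        norm_num
      have h3 : (0 - (((lam i - lam j : ℝ) : ℂ) * Complex.I) ^ 2 / (4 * -(b : ℂ))).re =
          -(lam i - lam j) ^ 2 / (4 * b) := by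
        have h4 : (0 - (((lam i - lam j : ℝ) : ℂ) * Complex.I) ^ 2 / (4 * -(b : ℂ))) =
            ((-(lam i - lam j) ^ 2 / (4 * b) : ℝ) : ℂ) := by
          rw [mul_pow, Complex.I_sq]
          have hb0 : (b : ℂ) ≠ 0 := by exact_mod_cast hb.ne'
          push_cast
          field_simp
          ring
        rw [h4, Complex.ofReal_re]
      rw [h2, h3]
      apply le_of_eq
      ring
    refine le_trans ?_ h1
    rw [integral_complex_ofReal, Complex.norm_real]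
    exact le_abs_self _

/-- the constant -/
noncomputable def C0 : ℝ := ∑' k : ℤ, 4 / (1 + (k : ℝ) ^ 2)

theorem summ : Summable fun k : ℤ => 4 / (1 + (k : ℝ) ^ 2) := by
  have h1 : Summable fun k : ℤ => 4 * (1 / (k : ℝ) ^ 2) :=
    (Real.summable_one_div_int_pow.2 one_lt_two).mul_left 4
  refine h1.of_norm_bounded_eventually ?_
  rw [Filter.eventually_cofinite]
  refine (Set.finite_singleton (0 : ℤ)).subset ?_
  intro k hk
  by_contra h0
  apply hk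
  have h0' : (k : ℝ) ≠ 0 := by
    intro h
    exact h0 (by exact_mod_cast h)
  have h2 : 0 < (k : ℝ) ^ 2 := by positivity
  rw [Real.norm_of_nonneg (by positivity), mul_one_div]
  exact div_le_div_of_nonneg_left (by norm_num) h2 (by linarith)

theorem C0_nn : 0 ≤ C0 := tsum_nonneg fun k => by positivity

theorem ker {ι : Type} (s : Finset ι) (lam : ι → ℝ) {η : ℝ} (hη : 0 < η)
    (hs : ∀ i ∈ s, ∀ j ∈ s, i ≠ j → η ≤ |lam i - lam j|) (x : ℝ) :
    ∑ j ∈ s, Real.exp (-((x - lam j) / η) ^ 2 / 2) ≤ C0 := by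
  classical
  have h1 : ∀ j ∈ s, Real.exp (-((x - lam j) / η) ^ 2 / 2) ≤
      4 / (1 + ((⌊(x - lam j) / η⌋ : ℤ) : ℝ) ^ 2) := by
    intro j _
    obtain ⟨v, hv⟩ : ∃ v, v = (x - lam j) / η := ⟨_, rfl⟩
    rw [← hv]
    have h2 := Int.floor_le v
    have h3 := Int.lt_floor_add_one v
    obtain ⟨k, hk⟩ : ∃ k : ℝ, k = ((⌊v⌋ : ℤ) : ℝ) := ⟨_, rfl⟩
    rw [← hk] at h2 h3 ⊢
    have h4 : k ^ 2 ≤ 2 * v ^ 2 + 2 := by
      nlinarith [sq_nonneg (v + (v - k)), sq_nonneg (2 * v - k), mul_nonneg (sub_nonneg.2 h2)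
        (sub_nonneg.2 h3.le)]
    have h5 : v ^ 2 / 2 + 1 ≤ Real.exp (v ^ 2 / 2) := Real.add_one_le_exp _
    have h6 : Real.exp (-v ^ 2 / 2) = 1 / Real.exp (v ^ 2 / 2) := by
      rw [one_div, ← Real.exp_neg]
      congr 1
      ring
    rw [h6, div_le_div_iff₀ (Real.exp_pos _) (by positivity)]
    nlinarith
  have hinj : Set.InjOn (fun j => ⌊(x - lam j) / η⌋) (s : Set ι) := by
    intro i hi j hj hij
    by_contra hne
    have h2 := hs i hi j hj hne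
    have h3 : |(x - lam i) / η - (x - lam j) / η| < 1 := Int.abs_sub_lt_one_of_floor_eq_floor hij
    have h4 : (x - lam i) / η - (x - lam j) / η = -(lam i - lam j) / η := by ring
    rw [h4, abs_div, abs_neg, abs_of_pos hη, div_lt_one hη] at h3
    linarith
  calc ∑ j ∈ s, Real.exp (-((x - lam j) / η) ^ 2 / 2)
      ≤ ∑ j ∈ s, 4 / (1 + ((⌊(x - lam j) / η⌋ : ℤ) : ℝ) ^ 2) := Finset.sum_le_sum h1
    _ = ∑ k ∈ s.image (fun j => ⌊(x - lam j) / η⌋), 4 / (1 + (k : ℝ) ^ 2) :=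
        (Finset.sum_image (f := fun k : ℤ => 4 / (1 + (k : ℝ) ^ 2)) hinj).symm
    _ ≤ C0 := summ.sum_le_tsum _ fun k _ => by positivity

theorem schur {ι : Type} (s : Finset ι) (a : ι → ℝ) (K : ι → ι → ℝ) (M : ℝ)
    (hK : ∀ i j, 0 ≤ K i j) (hsym : ∀ i j, K i j = K j i) (hM : ∀ i ∈ s, ∑ j ∈ s, K i j ≤ M) :
    ∑ i ∈ s, ∑ j ∈ s, a i * a j * K i j ≤ M * ∑ i ∈ s, a i ^ 2 := by
  have h1 : ∑ i ∈ s, ∑ j ∈ s, a i * a j * K i j ≤
      ∑ i ∈ s, ∑ j ∈ s, (a i ^ 2 * K i j / 2 + a j ^ 2 * K j i / 2) := by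
    refine Finset.sum_le_sum fun i _ => Finset.sum_le_sum fun j _ => ?_
    rw [hsym j i]
    have := mul_nonneg (sq_nonneg (a i - a j)) (hK i j)
    nlinarith
  have h2 : ∑ i ∈ s, ∑ j ∈ s, (a i ^ 2 * K i j / 2 + a j ^ 2 * K j i / 2) =
      ∑ i ∈ s, a i ^ 2 * ∑ j ∈ s, K i j := by
    simp_rw [Finset.sum_add_distrib]
    rw [Finset.sum_comm (f := fun i j => a j ^ 2 * K j i / 2), ← Finset.sum_add_distrib]
    refine Finset.sum_congr rfl fun i _ => ?_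
    rw [← Finset.sum_add_distrib, Finset.mul_sum]
    exact Finset.sum_congr rfl fun j _ => by ring
  rw [h2] at h1
  refine h1.trans ?_
  rw [Finset.mul_sum]
  refine Finset.sum_le_sum fun i hi => ?_
  rw [mul_comm]
  exact mul_le_mul_of_nonneg_right (hM i hi) (sq_nonneg _)

theorem zero {ι : Type} (s : Finset ι) (lam : ι → ℝ) (c : ι → ℂ) {η : ℝ} (hη : 0 < η)
    (hs : ∀ i ∈ s, ∀ j ∈ s, i ≠ j → η ≤ |lam i - lam j|) {D : ℝ} (hD : 0 ≤ D) :
    ∫ t in (0 : ℝ)..D, ‖∑ i ∈ s, c i * Complex.exp (((lam i * t : ℝ) : ℂ) * Complex.I)‖ ^ 2 ≤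
      Real.exp (1 / 2) * ((2 * Real.pi) ^ (1 / 2 : ℝ) * (D + 1 / η)) *
        (C0 * ∑ i ∈ s, ‖c i‖ ^ 2) := by
  obtain ⟨L, hL⟩ : ∃ L, L = D + 1 / η := ⟨_, rfl⟩
  rw [← hL]
  have hη' : 0 < 1 / η := by positivity
  have hL0 : 0 < L := by linarith
  have hb : 0 < 1 / (2 * L ^ 2) := by positivity
  obtain ⟨h1, h2⟩ := main_int s lam c hb
  have hcont : Continuous fun t : ℝ =>
      ‖∑ i ∈ s, c i * Complex.exp (((lam i * t : ℝ) : ℂ) * Complex.I)‖ ^ 2 := by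
    fun_prop
  have h3 : ∫ t in (0 : ℝ)..D,
      ‖∑ i ∈ s, c i * Complex.exp (((lam i * t : ℝ) : ℂ) * Complex.I)‖ ^ 2 ≤
      ∫ t in (0 : ℝ)..D, Real.exp (1 / 2) * (Real.exp (-(1 / (2 * L ^ 2)) * t ^ 2) *
        ‖∑ i ∈ s, c i * Complex.exp (((lam i * t : ℝ) : ℂ) * Complex.I)‖ ^ 2) := by
    refine intervalIntegral.integral_mono_on hD (hcont.intervalIntegrable _ _)
      (Continuous.intervalIntegrable (by fun_prop) _ _) fun t ht => ?_
    have h4 : 1 ≤ Real.exp (1 / 2) * Real.exp (-(1 / (2 * L ^ 2)) * t ^ 2) := by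
      rw [← Real.exp_add]
      apply Real.one_le_exp
      have h5 : t ^ 2 ≤ L ^ 2 := pow_le_pow_left₀ ht.1 (by linarith [ht.2]) 2
      have h6 : t ^ 2 / L ^ 2 ≤ 1 := (div_le_one (by positivity)).2 h5
      have h7 : -(1 / (2 * L ^ 2)) * t ^ 2 = -(t ^ 2 / L ^ 2) / 2 := by
        field_simp
      rw [h7]
      linarith
    rw [← mul_assoc]
    exact le_mul_of_one_le_left (by positivity) h4
  have h4 : ∫ t in (0 : ℝ)..D, Real.exp (1 / 2) * (Real.exp (-(1 / (2 * L ^ 2)) * t ^ 2) *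
        ‖∑ i ∈ s, c i * Complex.exp (((lam i * t : ℝ) : ℂ) * Complex.I)‖ ^ 2) ≤
      Real.exp (1 / 2) * ∫ t : ℝ, Real.exp (-(1 / (2 * L ^ 2)) * t ^ 2) *
        ‖∑ i ∈ s, c i * Complex.exp (((lam i * t : ℝ) : ℂ) * Complex.I)‖ ^ 2 := by
    rw [intervalIntegral.integral_const_mul, intervalIntegral.integral_of_le hD]
    refine mul_le_mul_of_nonneg_left ?_ (Real.exp_pos _).le
    exact setIntegral_le_integral h1 (Filter.Eventually.of_forall fun t => by positivity)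
  have h5 : (Real.pi / (1 / (2 * L ^ 2))) ^ (1 / 2 : ℝ) = (2 * Real.pi) ^ (1 / 2 : ℝ) * L := by
    have h6 : Real.pi / (1 / (2 * L ^ 2)) = (2 * Real.pi) * L ^ 2 := by
      field_simp
    rw [h6, Real.mul_rpow (by positivity) (by positivity)]
    congr 1
    rw [← Real.sqrt_eq_rpow, Real.sqrt_sq hL0.le]
  have h6 : ∑ i ∈ s, ∑ j ∈ s, ‖c i‖ * ‖c j‖ *
        Real.exp (-(lam i - lam j) ^ 2 / (4 * (1 / (2 * L ^ 2)))) ≤
      C0 * ∑ i ∈ s, ‖c i‖ ^ 2 := by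
    refine schur s (fun i => ‖c i‖) (fun i j =>
      Real.exp (-(lam i - lam j) ^ 2 / (4 * (1 / (2 * L ^ 2))))) C0
      (fun i j => (Real.exp_pos _).le) (fun i j => ?_) fun i _ => ?_
    · congr 2
      ring
    · refine le_trans (Finset.sum_le_sum fun j _ => ?_) (ker s lam hη hs (lam i))
      apply Real.exp_le_exp.2
      have h7 : -(lam i - lam j) ^ 2 / (4 * (1 / (2 * L ^ 2))) =
          -((lam i - lam j) ^ 2 * L ^ 2) / 2 := by
        field_simp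
        ring
      have h8 : -((lam i - lam j) / η) ^ 2 / 2 = -((lam i - lam j) ^ 2 * (1 / η) ^ 2) / 2 := by
        ring
      rw [h7, h8]
      have h9 : (1 / η) ^ 2 ≤ L ^ 2 := pow_le_pow_left₀ hη'.le (by linarith) 2
      have h10 := mul_le_mul_of_nonneg_left h9 (sq_nonneg (lam i - lam j))
      linarith
  rw [h5] at h2
  refine h3.trans (h4.trans ?_)
  rw [mul_assoc]
  refine mul_le_mul_of_nonneg_left (h2.trans ?_) (Real.exp_pos _).le
  exact mul_le_mul_of_nonneg_left h6 (by positivity)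

theorem t_LS : S_LS := by
  refine ⟨Real.exp (1 / 2) * (2 * Real.pi) ^ (1 / 2 : ℝ) * (C0 + 1), ?_, ?_⟩
  · have := C0_nn
    positivity
  intro ι s lam c η hη hs A B hAB
  have h1 : ∫ t in A..B, ‖∑ i ∈ s, c i * Complex.exp (((lam i * t : ℝ) : ℂ) * Complex.I)‖ ^ 2 =
      ∫ t in (0 : ℝ)..(B - A), ‖∑ i ∈ s, (c i * Complex.exp (((lam i * A : ℝ) : ℂ) * Complex.I)) *
        Complex.exp (((lam i * t : ℝ) : ℂ) * Complex.I)‖ ^ 2 := by
    have h2 := intervalIntegral.integral_comp_add_left (a := 0) (b := B - A) (fun t =>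
      ‖∑ i ∈ s, c i * Complex.exp (((lam i * t : ℝ) : ℂ) * Complex.I)‖ ^ 2) A
    rw [add_zero, add_sub_cancel] at h2
    rw [← h2]
    refine intervalIntegral.integral_congr fun t _ => ?_
    congr 2
    refine Finset.sum_congr rfl fun i _ => ?_
    rw [mul_assoc, ← Complex.exp_add]
    congr 2
    push_cast
    ring
  have h2 : ∑ i ∈ s, ‖c i * Complex.exp (((lam i * A : ℝ) : ℂ) * Complex.I)‖ ^ 2 =
      ∑ i ∈ s, ‖c i‖ ^ 2 := by
    refine Finset.sum_congr rfl fun i _ => ?_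
    rw [norm_mul, Complex.norm_exp_ofReal_mul_I, mul_one]
  have h3 := zero s lam (fun i => c i * Complex.exp (((lam i * A : ℝ) : ℂ) * Complex.I)) hη hs
    (sub_nonneg.2 hAB)
  rw [h2] at h3
  rw [h1]
  refine h3.trans ?_
  have h4 : 0 ≤ ∑ i ∈ s, ‖c i‖ ^ 2 := Finset.sum_nonneg fun i _ => by positivity
  have h5 : 0 ≤ Real.exp (1 / 2) * (2 * Real.pi) ^ (1 / 2 : ℝ) * (B - A + 1 / η) * ∑ i ∈ s, ‖c i‖ ^ 2 := by
    have := sub_nonneg.2 hAB
    positivity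
  nlinarith

end Pool.Agent.H478.QM.LS
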