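import Pool.Agent.H478.QM.Stm

set_option autoImplicit false

namespace Pool.Agent.H478.QM.MW

open Filter Topology

/-- the sum of `log p` over primes up to `y` -/
theorem sum_log_le {y : ℝ} (hy : 0 ≤ y) (s : Finset ℕ) (hs : ∀ p ∈ s, p.Prime ∧ (p : ℝ) ≤ y) :
    ∑ p ∈ s, Real.log p ≤ Real.log 4 * y := by
  refine le_trans ?_ (Chebyshev.theta_le_log4_mul_x hy)
  unfold Chebyshev.theta
  apply Finset.sum_le_sum_of_subset_of_nonneg
  · intro p hp
    obtain ⟨h1, h2⟩ := hs p hp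
    rw [Finset.mem_filter, Finset.mem_Ioc]
    exact ⟨⟨h1.pos, Nat.le_floor h2⟩, h1⟩
  · intro p _ _
    exact Real.log_natCast_nonneg p

theorem dyadic (k : ℕ) : ∀ (x y : ℝ), 0 < x → y ≤ 2 ^ k * x → ∀ s : Finset ℕ,
    (∀ p ∈ s, p.Prime ∧ x < p ∧ (p : ℝ) ≤ y) →
    ∑ p ∈ s, Real.log p / p ≤ k * (2 * Real.log 4) := by
  induction k with
  | zero =>
    intro x y hx hy s hs
    have : s = ∅ := by
      rw [Finset.eq_empty_iff_forall_notMem]
      intro p hp
      obtain ⟨_, h1, h2⟩ := hs p hp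
      rw [pow_zero, one_mul] at hy
      linarith
    rw [this]
    simp
  | succ k ih =>
    intro x y hx hy s hs
    have hx2 : (0 : ℝ) < 2 ^ k * x := by positivity
    rw [← Finset.sum_filter_add_sum_filter_not s (fun p : ℕ => (p : ℝ) ≤ 2 ^ k * x)]
    have h1 := ih x (2 ^ k * x) hx le_rfl (s.filter (fun p : ℕ => (p : ℝ) ≤ 2 ^ k * x)) (by
      intro p hp
      rw [Finset.mem_filter] at hp
      exact ⟨(hs p hp.1).1, (hs p hp.1).2.1, hp.2⟩)
    have h2 : ∑ p ∈ s.filter (fun p : ℕ => ¬ (p : ℝ) ≤ 2 ^ k * x), Real.log p / p ≤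
        2 * Real.log 4 := by
      have h3 : ∑ p ∈ s.filter (fun p : ℕ => ¬ (p : ℝ) ≤ 2 ^ k * x), Real.log p / p ≤
          ∑ p ∈ s.filter (fun p : ℕ => ¬ (p : ℝ) ≤ 2 ^ k * x), Real.log p / (2 ^ k * x) := by
        apply Finset.sum_le_sum
        intro p hp
        rw [Finset.mem_filter, not_le] at hp
        exact div_le_div_of_nonneg_left (Real.log_natCast_nonneg p) hx2 hp.2.le
      refine h3.trans ?_
      rw [← Finset.sum_div, div_le_iff₀ hx2]
      have h4 := sum_log_le (y := 2 ^ (k + 1) * x) (by positivity)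
        (s.filter (fun p : ℕ => ¬ (p : ℝ) ≤ 2 ^ k * x)) (by
          intro p hp
          rw [Finset.mem_filter] at hp
          exact ⟨(hs p hp.1).1, (hs p hp.1).2.2.trans hy⟩)
      refine h4.trans (le_of_eq ?_)
      rw [pow_succ]
      ring
    push_cast
    linarith

theorem window {x y : ℝ} (hx : 1 ≤ x) (hxy : x ≤ y) (s : Finset ℕ)
    (hs : ∀ p ∈ s, p.Prime ∧ x < p ∧ (p : ℝ) ≤ y) :
    ∑ p ∈ s, Real.log p / p ≤ 4 * (Real.log (y / x) + 1) := by
  have hx0 : 0 < x := by linarith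
  have hyx : 1 ≤ y / x := by rwa [one_le_div hx0]
  have hl0 : 0 ≤ Real.log (y / x) := Real.log_nonneg hyx
  have hlog2 : 0 < Real.log 2 := Real.log_pos (by norm_num)
  obtain ⟨k, hk⟩ : ∃ k : ℕ, k = ⌈Real.log (y / x) / Real.log 2⌉₊ := ⟨_, rfl⟩
  have hk1 : (k : ℝ) < Real.log (y / x) / Real.log 2 + 1 := by
    rw [hk]
    exact Nat.ceil_lt_add_one (by positivity)
  have hk2 : Real.log (y / x) / Real.log 2 ≤ k := by
    rw [hk]
    exact Nat.le_ceil _
  have hy : y ≤ 2 ^ k * x := by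
    rw [← div_le_iff₀ hx0, ← Real.log_le_log_iff (by linarith) (by positivity), Real.log_pow]
    rwa [div_le_iff₀ hlog2] at hk2
  have h1 := dyadic k x y hx0 hy s hs
  have hlog4 : Real.log 4 = 2 * Real.log 2 := by
    rw [show (4 : ℝ) = 2 ^ 2 by norm_num, Real.log_pow]
    push_cast
    ring
  rw [hlog4] at h1
  have hlog21 : Real.log 2 ≤ 1 := by
    have := Real.log_two_lt_d9
    linarith
  have h2 : (k : ℝ) * (2 * (2 * Real.log 2)) ≤
      (Real.log (y / x) / Real.log 2 + 1) * (2 * (2 * Real.log 2)) :=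
    mul_le_mul_of_nonneg_right hk1.le (by positivity)
  have h3 : (Real.log (y / x) / Real.log 2 + 1) * (2 * (2 * Real.log 2)) =
      4 * Real.log (y / x) + 4 * Real.log 2 := by
    field_simp
    ring
  linarith

theorem lm_sq (n : ℕ) : lm n ^ 2 = ArithmeticFunction.vonMangoldt n ^ 2 / n := by
  unfold lm
  rw [div_pow, Real.sq_sqrt (Nat.cast_nonneg n)]

/-- the majorant -/
noncomputable def gg (x : ℕ × ℕ) : ℝ := (16 * (x.1 : ℝ) ^ (-(3 / 2) : ℝ)) * (1 / 2) ^ x.2

theorem gg_nonneg (x : ℕ × ℕ) : 0 ≤ gg x := by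
  unfold gg
  positivity

theorem gg_summable : Summable gg := by
  have h1 : Summable (fun n : ℕ => 16 * (n : ℝ) ^ (-(3 / 2) : ℝ)) :=
    (Real.summable_nat_rpow.2 (by norm_num)).mul_left 16
  have h2 : Summable (fun n : ℕ => (1 / 2 : ℝ) ^ n) := summable_geometric_two
  exact h1.mul_of_nonneg h2 (fun n => by positivity) (fun n => by positivity)

/-- the coordinates of a prime power -/
noncomputable def co (n : ℕ) : ℕ × ℕ := (n.minFac, n.factorization n.minFac - 2)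

theorem two_le {n : ℕ} (hn : IsPrimePow n) (hp : ¬ n.Prime) : 2 ≤ n.factorization n.minFac := by
  have h1 := hn.minFac_pow_factorization_eq
  have h2 : n ≠ 1 := hn.ne_one
  have h3 : n.minFac.Prime := Nat.minFac_prime h2
  by_contra h
  have h4 : n.factorization n.minFac = 0 ∨ n.factorization n.minFac = 1 := by omega
  rcases h4 with h4 | h4
  · rw [h4, pow_zero] at h1
    exact h2 h1.symm
  · rw [h4, pow_one] at h1
    rw [h1] at h3
    exact hp h3

theorem lm_le {n : ℕ} (hn : IsPrimePow n) (hp : ¬ n.Prime) : lm n ^ 2 ≤ gg (co n) := by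
  have h2 := two_le hn hp
  have h1 := hn.minFac_pow_factorization_eq
  have h3 : n.minFac.Prime := Nat.minFac_prime hn.ne_one
  rw [lm_sq, ArithmeticFunction.vonMangoldt_apply, if_pos hn]
  unfold gg co
  simp only
  obtain ⟨p, hpdef⟩ : ∃ p : ℕ, p = n.minFac := ⟨_, rfl⟩
  obtain ⟨k, hk⟩ : ∃ k : ℕ, n.factorization n.minFac = k + 2 := ⟨_, (Nat.sub_add_cancel h2).symm⟩
  rw [hk] at h1 ⊢
  rw [← hpdef] at h1 h3 ⊢
  rw [Nat.add_sub_cancel]
  have hn' : (n : ℝ) = (p : ℝ) ^ k * (p : ℝ) ^ 2 := by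
    rw [← h1]
    push_cast
    ring
  have hp0 : (0 : ℝ) < p := by exact_mod_cast h3.pos
  have hp2 : (2 : ℝ) ≤ p := by exact_mod_cast h3.two_le
  have hlog : Real.log p ≤ 4 * (p : ℝ) ^ (1 / 4 : ℝ) := by
    have := Real.log_le_rpow_div hp0.le (show (0 : ℝ) < 1 / 4 by norm_num)
    linarith
  have hlog0 : 0 ≤ Real.log p := Real.log_natCast_nonneg p
  have h5 : Real.log p ^ 2 ≤ 16 * (p : ℝ) ^ (1 / 2 : ℝ) := by
    have h6 : Real.log p ^ 2 ≤ (4 * (p : ℝ) ^ (1 / 4 : ℝ)) ^ 2 := pow_le_pow_left₀ hlog0 hlog 2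
    refine h6.trans (le_of_eq ?_)
    rw [mul_pow, ← Real.rpow_natCast ((p : ℝ) ^ (1 / 4 : ℝ)) 2, ← Real.rpow_mul hp0.le]
    norm_num
  rw [hn', div_le_iff₀ (by positivity)]
  have h7 : (p : ℝ) ^ (-(3 / 2) : ℝ) * (p : ℝ) ^ 2 = (p : ℝ) ^ (1 / 2 : ℝ) := by
    rw [← Real.rpow_natCast (p : ℝ) 2, ← Real.rpow_add hp0]
    norm_num
  have h8 : (1 : ℝ) ≤ (1 / 2) ^ k * (p : ℝ) ^ k := by
    rw [← mul_pow]
    apply one_le_pow₀
    linarith
  calc Real.log p ^ 2 ≤ 16 * (p : ℝ) ^ (1 / 2 : ℝ) * 1 := by rw [mul_one]; exact h5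
    _ ≤ 16 * (p : ℝ) ^ (1 / 2 : ℝ) * ((1 / 2) ^ k * (p : ℝ) ^ k) :=
        mul_le_mul_of_nonneg_left h8 (by positivity)
    _ = 16 * (p : ℝ) ^ (-(3 / 2) : ℝ) * (1 / 2) ^ k * ((p : ℝ) ^ k * (p : ℝ) ^ 2) := by
        rw [← h7]
        ring

theorem co_inj {m n : ℕ} (hm : IsPrimePow m) (hmp : ¬ m.Prime) (hn : IsPrimePow n)
    (hnp : ¬ n.Prime) (h : co m = co n) : m = n := by
  unfold co at h
  rw [Prod.mk.injEq] at h
  obtain ⟨h1, h2⟩ := h
  have h3 := two_le hm hmp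
  have h4 := two_le hn hnp
  have h5 : m.factorization m.minFac = n.factorization n.minFac := by omega
  rw [← hm.minFac_pow_factorization_eq, ← hn.minFac_pow_factorization_eq, h5, h1]

theorem nonprimes (s : Finset ℕ) (hs : ∀ n ∈ s, ¬ n.Prime) :
    ∑ n ∈ s, lm n ^ 2 ≤ ∑' x, gg x := by
  classical
  have h1 : ∑ n ∈ s, lm n ^ 2 = ∑ n ∈ s.filter IsPrimePow, lm n ^ 2 := by
    rw [Finset.sum_filter]
    apply Finset.sum_congr rfl
    intro n _
    split_ifs with h
    · rfl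
    · rw [lm_sq, ArithmeticFunction.vonMangoldt_apply, if_neg h]
      simp
  rw [h1]
  have h2 : ∑ n ∈ s.filter IsPrimePow, lm n ^ 2 ≤ ∑ n ∈ s.filter IsPrimePow, gg (co n) := by
    apply Finset.sum_le_sum
    intro n hn
    rw [Finset.mem_filter] at hn
    exact lm_le hn.2 (hs n hn.1)
  refine h2.trans ?_
  rw [← Finset.sum_image (f := gg) (g := co)]
  · exact gg_summable.sum_le_tsum _ (fun x _ => gg_nonneg x)
  · intro m hm n hn h
    rw [Finset.mem_coe, Finset.mem_filter] at hm hn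
    exact co_inj hm.2 (hs m hm.1) hn.2 (hs n hn.1) h

theorem t_MW : S_MW := by
  classical
  have hG : 0 ≤ ∑' x, gg x := tsum_nonneg gg_nonneg
  refine ⟨4 + ∑' x, gg x, by linarith, ?_, ?_, ?_⟩
  · intro x y hx hxy s hs
    have h1 := window hx hxy s hs
    have h2 : 0 ≤ Real.log (y / x) := by
      apply Real.log_nonneg
      rwa [one_le_div (by linarith)]
    have h3 : 0 ≤ (∑' x, gg x) * (Real.log (y / x) + 1) := mul_nonneg hG (by linarith)
    linarith
  · intro s hs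
    have := nonprimes s hs
    linarith
  · intro N
    rcases Nat.eq_zero_or_pos N with rfl | hN
    · simp
      linarith
    have hN1 : (1 : ℝ) ≤ N := by exact_mod_cast hN
    have hl0 : 0 ≤ Real.log N := Real.log_natCast_nonneg N
    rw [← Finset.sum_filter_add_sum_filter_not (Finset.Icc 1 N) Nat.Prime]
    have h1 : ∑ n ∈ (Finset.Icc 1 N).filter (fun n => ¬ n.Prime), lm n ^ 2 ≤ ∑' x, gg x :=
      nonprimes _ (fun n hn => (Finset.mem_filter.1 hn).2)
    have h2 : ∑ n ∈ (Finset.Icc 1 N).filter Nat.Prime, lm n ^ 2 ≤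
        ∑ n ∈ (Finset.Icc 1 N).filter Nat.Prime, Real.log N * (Real.log n / n) := by
      apply Finset.sum_le_sum
      intro n hn
      rw [Finset.mem_filter, Finset.mem_Icc] at hn
      have hn0 : (0 : ℝ) < n := by exact_mod_cast hn.2.pos
      rw [lm_sq, ArithmeticFunction.vonMangoldt_apply_prime hn.2, pow_two, ← mul_div_assoc]
      apply div_le_div_of_nonneg_right _ hn0.le
      apply mul_le_mul_of_nonneg_right _ (Real.log_natCast_nonneg n)
      apply Real.log_le_log hn0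
      exact_mod_cast hn.1.2
    rw [← Finset.mul_sum] at h2
    have h3 := window (x := 1) (y := N) le_rfl hN1 ((Finset.Icc 1 N).filter Nat.Prime) (by
      intro p hp
      rw [Finset.mem_filter, Finset.mem_Icc] at hp
      exact ⟨hp.2, by exact_mod_cast hp.2.one_lt, by exact_mod_cast hp.1.2⟩)
    rw [div_one] at h3
    have h4 := mul_le_mul_of_nonneg_left h3 hl0
    have h5 : (∑' x, gg x) * 1 ≤ (∑' x, gg x) * (Real.log N + 1) ^ 2 := by
      apply mul_le_mul_of_nonneg_left _ hG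
      nlinarith
    nlinarith

end Pool.Agent.H478.QM.MW
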