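import Mathlib

/-! Statements of the project QM (pair correlation of the zeta zeros in almost all windows of boundedly many mean spacings): the parts
over Mathlib. -/

namespace Pool.Agent.H478.QM

open Filter Topology MeasureTheory

/-- `Λ(n)/√n` -/
noncomputable def lm (n : ℕ) : ℝ := ArithmeticFunction.vonMangoldt n / Real.sqrt n

/-- a Dirichlet polynomial `∑ α(n) n^{-it}`, `2 ≤ n ≤ N` -/
noncomputable def dp (α : ℕ → ℝ) (N : ℕ) (t : ℝ) : ℂ :=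
  ∑ n ∈ Finset.Icc 2 N, (α n : ℂ) * Complex.exp (((-(t * Real.log n) : ℝ) : ℂ) * Complex.I)

/-- the mean over a window of `Lam` mean spacings (`L = log T`) -/
noncomputable def wm (f : ℝ → ℂ) (L Lam t : ℝ) : ℂ :=
  ((1 / Lam : ℝ) : ℂ) * ∫ v in (0 : ℝ)..Lam, f (t + 2 * Real.pi * v / L)

/-- twice the cosine transform on `[0,1]` -/
noncomputable def ctf (R : ℝ → ℝ) (x : ℝ) : ℝ :=
  2 * ∫ α in (0 : ℝ)..1, R α * Real.cos (2 * Real.pi * x * α)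

/-- smoothed linear statistic of the points of `Z` with multiplicities `m` -/
noncomputable def Vs (g : ℝ → ℝ) (Z : Finset ℝ) (m : ℝ → ℕ) (L t : ℝ) : ℝ :=
  ∑ z ∈ Z, (m z : ℝ) * Real.exp (-(z - t) ^ 2 / 2) * g ((z - t) * L / (2 * Real.pi))

/-- linear statistic with a weight function -/
noncomputable def Ws (w : ℝ → ℝ) (Z : Finset ℝ) (m : ℝ → ℕ) (L t : ℝ) : ℝ :=
  ∑ z ∈ Z, (m z : ℝ) * w ((z - t) * L / (2 * Real.pi))

/-- the pair sum of the window `(t, t + 2π Lam / L]` -/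
noncomputable def Ps (F : ℝ → ℝ) (Z : Finset ℝ) (m : ℝ → ℕ) (L Lam t : ℝ) : ℝ :=
  ∑ z ∈ Z.filter (fun z => t < z ∧ z ≤ t + 2 * Real.pi * Lam / L),
    ∑ y ∈ Z.filter (fun z => t < z ∧ z ≤ t + 2 * Real.pi * Lam / L),
      (m z : ℝ) * m y * F ((z - y) * L / (2 * Real.pi))

/-- a finite set of points in `[T, 2T]` with multiplicities, with the upper bounds for the number of points -/
structure PtD (C T : ℝ) (Z : Finset ℝ) (m : ℝ → ℕ) : Prop where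
  mem : ∀ z ∈ Z, T ≤ z ∧ z ≤ 2 * T
  tot : ∑ z ∈ Z, (m z : ℝ) ≤ C * T * Real.log T
  sq : ∫ t in (T + 2 * Real.log T)..(2 * T - 2 * Real.log T),
    (∑ z ∈ Z.filter (fun z => |z - t| ≤ 2 * Real.pi / Real.log T), (m z : ℝ)) ^ 2 ≤ C * T

/-- **LS.** The large sieve for well spaced frequencies.
Proof. It suffices to prove `∫_{A}^{A+1/η} ‖∑ c_i e(λ_i t)‖² ≤ C (1/η) ∑ ‖c_i‖²` for every `A` (cover `[A, B]` by at most `η(B-A) + 1` such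
intervals).  Translate to `A = 0` (the coefficients change by phases).  With the weight `w(t) = exp(-(ηt)²/2) ≥ e^(-1/2)` on `[0, 1/η]`:
`∫_ℝ w ‖∑‖² = ∑_{i,j} c_i conj(c_j) (√(2π)/η) exp(-(λ_i-λ_j)²/(2η²)) ≤ (√(2π)/η) ∑_i ‖c_i‖² ∑_j exp(-(λ_i-λ_j)²/(2η²))` (by `|ab| ≤ (a²+b²)/2`), and
the last sum is at most `2 ∑_{k ≥ 0} exp(-k²/2) ≤ 6`, because the points `λ_j` are `η`-separated (the number of `j` with `kη ≤ |λ_i - λ_j| < (k+1)η` is at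
most `2`; alternatively map `j` to `⌊(λ_j - λ_i)/η⌋`, injective). -/
def S_LS : Prop := ∃ C : ℝ, 0 < C ∧ ∀ (ι : Type) (s : Finset ι) (lam : ι → ℝ) (c : ι → ℂ) (η : ℝ), 0 < η →
  (∀ i ∈ s, ∀ j ∈ s, i ≠ j → η ≤ |lam i - lam j|) → ∀ A B : ℝ, A ≤ B →
  ∫ t in A..B, ‖∑ i ∈ s, c i * Complex.exp (((lam i * t : ℝ) : ℂ) * Complex.I)‖ ^ 2 ≤
    C * (B - A + 1 / η) * ∑ i ∈ s, ‖c i‖ ^ 2

/-- **MW.** Mertens in windows (upper bound), and sums of `Λ(n)²/n`.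
Proof. (1) `∑_{x < p ≤ 2x} log p/p ≤ θ(2x)/x ≤ 2 log 4` (Chebyshev, Mathlib: `Chebyshev.theta_le_log4_mul_x` or the primorial bound
`primorial_le_4_pow`); cover `(x, y]` by at most `log(y/x)/log 2 + 1` dyadic intervals.  (2) for the prime powers `p^k`, `k ≥ 2`:
`∑_p ∑_{k ≥ 2} log² p / p^k ≤ 2 ∑_n log² n/n²`-type convergent sum.  (3) follows: primes: `∑_{p ≤ N} log²p/p ≤ log N ∑ log p/p`. -/
def S_MW : Prop := ∃ C : ℝ, 0 < C ∧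
  (∀ x y : ℝ, 1 ≤ x → x ≤ y → ∀ s : Finset ℕ, (∀ p ∈ s, p.Prime ∧ x < p ∧ (p : ℝ) ≤ y) →
    ∑ p ∈ s, Real.log p / p ≤ C * (Real.log (y / x) + 1)) ∧
  (∀ s : Finset ℕ, (∀ n ∈ s, ¬ n.Prime) → ∑ n ∈ s, lm n ^ 2 ≤ C) ∧
  (∀ N : ℕ, ∑ n ∈ Finset.Icc 1 N, lm n ^ 2 ≤ C * (Real.log N + 1) ^ 2)

/-- **M2.** Mean squares of Dirichlet polynomials with coefficients of this size.  uses S_LS, S_MW
Proof. LS with the frequencies `-log n`, `2 ≤ n ≤ N ≤ T`, which are `1/N ≥ 1/T` separated (`|log m - log n| ≥ 1/max(m,n)`): the integral is at most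
`C (5T/2 + T) ∑ α(n)² ≤ C' T (A/log T)² ∑ lm n²`; by MW the last sum is `≤ C (log T + 1)²`, and `≤ C` if `α` vanishes at the primes. -/
def S_M2 : Prop := ∃ C T0 : ℝ, 0 < C ∧ 3 ≤ T0 ∧ ∀ (A T : ℝ) (N : ℕ) (α : ℕ → ℝ), 0 ≤ A → T0 ≤ T → (N : ℝ) ≤ T →
  (∀ n, |α n| ≤ A / Real.log T * lm n) →
  ∫ t in (T / 2)..(3 * T), ‖dp α N t‖ ^ 2 ≤ C * A ^ 2 * T ∧
  ((∀ n : ℕ, n.Prime → α n = 0) → ∫ t in (T / 2)..(3 * T), ‖dp α N t‖ ^ 2 ≤ C * A ^ 2 * T / Real.log T ^ 2)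

/-- **V1.** The mean over a window of a product of two prime Dirichlet polynomials, one of them conjugated.  uses S_LS, S_MW
Proof. `D_α(s) conj(D_β(s)) = ∑_{p,q} α_p β_q exp(i s (log q - log p))`.  The terms `p = q` give the sum that is subtracted.  For `p ≠ q` the mean over the
window multiplies the term (at `s = t`) by `φ = (1/Lam) ∫_0^Lam exp(2πi v (log q - log p)/L) dv`, `|φ| ≤ min(1, L/(π Lam |log q - log p|))`, `L = log T`.  The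
frequencies `log q - log p` of different pairs `(p,q)`, `p ≠ q`, differ by at least `1/N² ≥ 1/T`, since `q p' ≠ q' p` are different integers `≤ N²`.  By LS the integral is at most
`C 2T ∑_{p≠q} α_p² β_q² |φ|²`.  For `0 < δ ≤ 1`: the pairs with `|log q - log p| ≤ δ L` contribute at most `∑_p α_p² ∑_{q : |log q - log p| ≤ δL} β_q² ≤ A⁴ C (1+1/L)² (2δ + 1/L)`:
`β_q² ≤ A²/L² log²q/q ≤ (A²/L) log q/q` for `q ≤ N ≤ T` and MW(1) with `y/x = exp(2δL)` (if `log p - δL < 0` take `x = 1`); the other pairs at most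
`(∑ α²)(∑ β²)/(π Lam δ)²`.  Take `δ` small in terms of `A`, `ε`, then `Lam ≥ Lam0`, then `T` large. -/
def S_V1 : Prop := ∀ A ε : ℝ, 0 ≤ A → 0 < ε → ∃ Lam0 : ℝ, 0 < Lam0 ∧ ∀ Lam : ℝ, Lam0 ≤ Lam →
  ∃ T0 : ℝ, 3 ≤ T0 ∧ ∀ T : ℝ, T0 ≤ T → ∀ N : ℕ, (N : ℝ) ^ 2 ≤ T → ∀ α β : ℕ → ℝ,
  (∀ n, |α n| ≤ A / Real.log T * lm n) → (∀ n, |β n| ≤ A / Real.log T * lm n) →
  (∀ n : ℕ, ¬ n.Prime → α n = 0) → (∀ n : ℕ, ¬ n.Prime → β n = 0) →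
  ∫ t in T..(2 * T), ‖wm (fun s => dp α N s * (starRingEnd ℂ) (dp β N s)) (Real.log T) Lam t -
    ((∑ n ∈ Finset.Icc 2 N, α n * β n : ℝ) : ℂ)‖ ^ 2 ≤ ε * T

/-- **V2.** The same for the product without conjugation, and for one polynomial.  uses S_LS, S_MW
Proof. First part: `D_α D_β = ∑_{p,q} α_p β_q exp(-i s log(pq))`; group the terms by `n = pq ≤ N²` (at most two ordered pairs for each `n`, so the square of the
coefficient of `n` is at most `2 ∑_{pq=n} α_p² β_q² |φ|²`), the frequencies `-log n` of different `n ≤ N²` differ by at least `1/N² ≥ 1/T`;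
`|φ| ≤ min(1, L/(π Lam log(pq)))`.  By LS at most `C 4T ∑ α_p² β_q² |φ|²`; pairs with `log p ≤ δL`: `∑_{log p ≤ δL} α_p² ≤ A²/L² (δL) C (δL + 1)`; the others have
`|φ| ≤ 1/(π Lam δ)`.  Second part: the same with `n = p`. -/
def S_V2 : Prop := ∀ A ε : ℝ, 0 ≤ A → 0 < ε → ∃ Lam0 : ℝ, 0 < Lam0 ∧ ∀ Lam : ℝ, Lam0 ≤ Lam →
  ∃ T0 : ℝ, 3 ≤ T0 ∧ ∀ T : ℝ, T0 ≤ T → ∀ N : ℕ, (N : ℝ) ^ 2 ≤ T → ∀ α β : ℕ → ℝ,
  (∀ n, |α n| ≤ A / Real.log T * lm n) → (∀ n, |β n| ≤ A / Real.log T * lm n) →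
  (∀ n : ℕ, ¬ n.Prime → α n = 0) → (∀ n : ℕ, ¬ n.Prime → β n = 0) →
  ∫ t in T..(2 * T), ‖wm (fun s => dp α N s * dp β N s) (Real.log T) Lam t‖ ^ 2 ≤ ε * T ∧
  ∫ t in T..(2 * T), ‖wm (fun s => dp α N s) (Real.log T) Lam t‖ ^ 2 ≤ ε * T

/-- **ENE.** The law of large numbers for the energy of a window.  uses S_MW, S_M2, S_V1, S_V2
Proof. Split `α = α' + α''` (primes, non-primes), same for `β`.  Put `P_i = 2 Re dp`, `f_i = r_i - P_i + e_i`, `|e_i| ≤ η` for the arguments in question (`t + 2πv/L`, `0 ≤ v ≤ Lam`,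
`T + εT ≤ t ≤ 2T - εT`; `T` large in terms of `Lam`).  `f₁ f₂ - (r₁ - P₁)(r₂ - P₂)` is at most `η(|f₁| + |f₂| + η)`-like, and the mean over `t` of its window mean is
`≤ C η (A + 1)²` by M2 (exchange the integrals: the mean over `t` of `(1/Lam)∫ |P_i(t + 2πv/L)| dv` is at most `(1/T ∫_{T/2}^{3T} |P_i|²)^(1/2)`).  Replacing `α`, `β` by `α'`, `β'` costs
at most `(mean |P₁|²)^(1/2) (mean |2 dp β''|²)^(1/2) + ... ≤ C A²/log T` (M2, second part).  For primes: `P₁P₂ = 4 Re D₁ Re D₂ = 2 Re(D₁D₂) + 2 Re(D₁ conj D₂)`; by V1, V2 and Cauchy-Schwarz in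
`t` the window mean of `P₁P₂` is `2 ∑ α'β'` up to an error with small mean, the window means of `P₁`, `P₂` have small mean (V2).  Finally
`|∑ α β - ∑ α' β'| ≤ ∑_{n not prime} A²/log²T lm n² ≤ C A²/log²T` (MW). -/
def S_ENE : Prop := ∀ A ε : ℝ, 0 ≤ A → 0 < ε → ∃ η : ℝ, 0 < η ∧ ∃ Lam0 : ℝ, 0 < Lam0 ∧ ∀ Lam : ℝ, Lam0 ≤ Lam →
  ∃ T0 : ℝ, 3 ≤ T0 ∧ ∀ T : ℝ, T0 ≤ T → ∀ N : ℕ, (N : ℝ) ^ 2 ≤ T → ∀ α β : ℕ → ℝ,
  (∀ n, |α n| ≤ A / Real.log T * lm n) → (∀ n, |β n| ≤ A / Real.log T * lm n) →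
  ∀ r1 r2 : ℝ, |r1| ≤ A → |r2| ≤ A → ∀ f1 f2 : ℝ → ℝ, Continuous f1 → Continuous f2 →
  (∀ s : ℝ, T + Real.log T ≤ s → s ≤ 2 * T - Real.log T → |f1 s - (r1 - 2 * (dp α N s).re)| ≤ η) →
  (∀ s : ℝ, T + Real.log T ≤ s → s ≤ 2 * T - Real.log T → |f2 s - (r2 - 2 * (dp β N s).re)| ≤ η) →
  ∫ t in (T + ε * T)..(2 * T - ε * T), |1 / Lam * (∫ v in (0 : ℝ)..Lam,
      f1 (t + 2 * Real.pi * v / Real.log T) * f2 (t + 2 * Real.pi * v / Real.log T)) -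
      (r1 * r2 + 2 * ∑ n ∈ Finset.Icc 2 N, α n * β n)| ≤ ε * T

/-- **CEL.** Mean squares of linear statistics.
Proof. Let `x_z = (z-t)L/2π`, `L = log T`.  Points with `|x_z| > J := ⌊εTL/(8π)⌋`: each has weight at most `B L/x_z² ≤ B L (16π/(εTL))²`, together at most `C T L` times this `≤ B/√T` for large `T`.
Points with `|x_z| ≤ J`: the sum is at most `∑_{|j| ≤ J+1} b_j n_j(t)`, `n_j(t) = ∑_{|x_z - j| ≤ 1} m_z = n_0(t + 2πj/L)`, where `n_0(s) = ∑_{|z-s| ≤ 2π/L} m_z`, and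
`t + 2πj/L ∈ [T + 2L, 2T - 2L]` for `T + εT ≤ t ≤ 2T - εT` (as `2π(J+1)/L ≤ εT/2`).  Minkowski (or Cauchy-Schwarz: `(∑ b_j n_j)² ≤ (∑ b_j) ∑ b_j n_j²`) and the property `sq`:
`∫ ≤ (∑ b_j) ∑ b_j ∫ n_j² ≤ B² C T`. -/
def S_CEL : Prop := ∀ C ε : ℝ, 0 < C → 0 < ε → ε ≤ 1 / 4 → ∃ C1 T0 : ℝ, 0 < C1 ∧ 3 ≤ T0 ∧ ∀ T : ℝ, T0 ≤ T →
  ∀ (Z : Finset ℝ) (m : ℝ → ℕ), PtD C T Z m → ∀ w : ℝ → ℝ, Measurable w → (∀ x, 0 ≤ w x) → ∀ (b : ℤ → ℝ) (B : ℝ),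
  (∀ (j : ℤ) (x : ℝ), |x - j| ≤ 1 → w x ≤ b j) → Summable b → ∑' j, b j ≤ B →
  (∀ x : ℝ, ε * T * Real.log T / 100 ≤ |x| → w x ≤ B * Real.log T / x ^ 2) →
  ∫ t in (T + ε * T)..(2 * T - ε * T), Ws w Z m (Real.log T) t ^ 2 ≤ C1 * B ^ 2 * T

/-- **BND.** From the energy of a window to its pair sum.  uses S_CEL
Proof. `x_z = (z-t)L/2π`, window `0 < x_z ≤ Lam`, `w(x) = 1/(1+x²)`.  (1) Gaussian factors: `V(t+2πv/L) = ∑ m_z exp(-(2π(x_z-v)/L)²/2) g(x_z - v)`;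
`|g(x)| (1 - exp(-(2πx/L)²/2)) ≤ K w(x) min(1, 20 x²/L²) =: w_L(x)`, for which `∑_j sup ≤ C K/L`.  So by CEL and Cauchy-Schwarz
replacing both `V` by `U_i(v) = ∑ m_z g_i(x_z - v)` costs in the mean at most `C K² Lam/L`.  (2) `∫_0^Lam U_1 U_2 dv - Ps = ∑_{z,y} m_z m_y [∫_0^Lam g1(x_z-v) g2(x_y-v) dv - 1_{both in the window} ∫_ℝ g1(x_z-v) g2(x_y-v) dv]`,
in absolute value at most `2K² ∫_0^Lam Aout(v) Aall(v) dv + K² ∫_{v ∉ [0,Lam]} Ain(v)² dv` with `Aout(v) = ∑_{z not in the window} m_z w(x_z - v)`, `Ain`, `Aall` in the same way.  By CEL with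
`w(x-v)` restricted to `x ∉ (0, Lam]`: `∫_t Aout(v)² ≤ C T/(1 + dist(v, {0, Lam}))²` for `0 ≤ v ≤ Lam` (`∑_{j : |j - v| ≥ d} 1/(1+(j-v)²) ≤ C/(1+d)`), `∫_t Aall(v)² ≤ C T`, and
`∫_t Ain(v)² ≤ C T/(1 + dist(v,[0,Lam]))²` for `v ∉ [0, Lam]` (for `|v| ≥ √T` use the trivial bound `Ain(v) ≤ C T L · 4/v²`, `T` large in terms of `Lam`).  Integrating over `v` (Cauchy-Schwarz in `t` first): the mean is at most
`C K² (1 + log(2 + Lam)) ≤ ε Lam`. -/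
def S_BND : Prop := ∀ (C K : ℝ) (g1 g2 F : ℝ → ℝ), 0 < C → 0 < K → Continuous g1 → Continuous g2 →
  (∀ x, |g1 x| ≤ K / (1 + x ^ 2)) → (∀ x, |g2 x| ≤ K / (1 + x ^ 2)) →
  (∀ x y : ℝ, ∫ v, g1 (x - v) * g2 (y - v) = F (x - y)) →
  ∀ ε : ℝ, 0 < ε → ε ≤ 1 / 4 → ∃ Lam0 : ℝ, 0 < Lam0 ∧ ∀ Lam : ℝ, Lam0 ≤ Lam → ∃ T0 : ℝ, 3 ≤ T0 ∧ ∀ T : ℝ, T0 ≤ T →
  ∀ (Z : Finset ℝ) (m : ℝ → ℕ), PtD C T Z m →
  ∫ t in (T + ε * T)..(2 * T - ε * T), |Ps F Z m (Real.log T) Lam t -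
    ∫ v in (0 : ℝ)..Lam, Vs g1 Z m (Real.log T) (t + 2 * Real.pi * v / Real.log T) *
      Vs g2 Z m (Real.log T) (t + 2 * Real.pi * v / Real.log T)| ≤ ε * Lam * T

/-- **DCY.** Decay of the transform, and a smooth cut-off function.
Proof. (1) `R` is even, `C²`, vanishes for `|α| ≥ a`, `a < 1/2`, so `ctf R x = ∫_ℝ R(α) cos(2πxα) dα = -(2πx)^(-2) ∫ R''(α) cos(2πxα) dα` (two integrations by parts); for small `x` use `|ctf R x| ≤ 2 sup|R|`.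
Continuity: continuous under the integral sign.  (2) take an even smooth bump function (`ContDiffBump` centred at `0` with radii `a`, `b`, composed as `α ↦ f α`, which is even for `ContDiffBump` in a real inner product space:
`ContDiffBump.neg`/symmetry, or use `Real.smoothTransition` of `(b² - α²)/(b² - a²)`). -/
def S_DCY : Prop := (∀ (R : ℝ → ℝ) (a : ℝ), ContDiff ℝ 2 R → (∀ x, R (-x) = R x) → 0 < a → a < 1 / 2 → (∀ x, a ≤ |x| → R x = 0) →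
    Continuous (ctf R) ∧ ∃ K : ℝ, 0 < K ∧ ∀ x, |ctf R x| ≤ K / (1 + x ^ 2)) ∧
  (∀ a b : ℝ, 0 < a → a < b → ∃ ψ : ℝ → ℝ, ContDiff ℝ 2 ψ ∧ (∀ x, ψ (-x) = ψ x) ∧ (∀ x, |x| ≤ a → ψ x = 1) ∧
    (∀ x, b ≤ |x| → ψ x = 0) ∧ ∀ x, |ψ x| ≤ 1)

/-- **CNV.** The convolution identity.  uses S_DCY
Proof. `f := ctf R`, `h := ctf ψ` are continuous, integrable and even, the Fourier transforms of the continuous functions `R`, `ψ` with compact support, so by Fourier inversion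
(`MeasureTheory.Integrable.fourierInv_fourier_eq` and relatives) `∫ f(u) e(-uα) du = R(α)`, `∫ h(u) e(-uα) du = ψ(α)`.  Then `∫ f(x-v) h(y-v) dv = ∫ f(x-v) h(v-y) dv = (f ⋆ h)(x-y)`, a continuous integrable function with Fourier transform `R ψ = R`
(`Real.fourierIntegral_convolution` or by Fubini: `∫ f(x-v) ∫ ψ(α) cos(2π(y-v)α) dα dv = ∫ ψ(α) ∫ f(x-v) cos(2π(y-v)α) dv dα = ∫ ψ(α) R(α) cos(2π(x-y)α) dα`, the inner integral by inversion and evenness of `f`). -/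
def S_CNV : Prop := ∀ (R ψ : ℝ → ℝ) (a b : ℝ), ContDiff ℝ 2 R → (∀ x, R (-x) = R x) → 0 < a → a < b → b < 1 / 2 →
  (∀ x, a ≤ |x| → R x = 0) → ContDiff ℝ 2 ψ → (∀ x, ψ (-x) = ψ x) → (∀ x, |x| ≤ a → ψ x = 1) → (∀ x, b ≤ |x| → ψ x = 0) →
  ∀ x y : ℝ, ∫ v, ctf R (x - v) * ctf ψ (y - v) = ctf R (x - y)

/-- **KAP.** The constant of the pair correlation.  uses S_DCY
Proof. `F = ctf R = R^`.  `F(0) = ∫ R`, `∫ F = R(0)` (inversion at `0`), and `∫ F(u) (sin πu/πu)² du = ∫ R(α) max(0, 1-|α|) dα` (the Fourier transform of `(sin πu/πu)²` is the triangle function: for Fubini write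
`F(u) = ∫ R(α) cos(2πuα) dα` and use `∫ (sin πu/πu)² cos(2πuα) du = max(0, 1-|α|)`; or Parseval with the triangle function `Δ`, whose transform is `(sin πu/πu)²` by direct computation, and inversion for `F`:
`∫ F(u) Δ^(u) du = ∫ F^(α) Δ(α) dα = ∫ R Δ`).  As `R` vanishes for `|α| ≥ 1/2`: `F(0) + ∫F - ∫F sinc² = ∫R + R(0) - ∫R(1-|α|) = R(0) + 2∫_0^1 αR`. -/
def S_KAP : Prop := ∀ (R : ℝ → ℝ) (a : ℝ), ContDiff ℝ 2 R → (∀ x, R (-x) = R x) → 0 < a → a < 1 / 2 → (∀ x, a ≤ |x| → R x = 0) →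
  ctf R 0 + ∫ u : ℝ, ctf R u * (1 - (Real.sin (Real.pi * u) / (Real.pi * u)) ^ 2) =
    R 0 + 2 * ∫ α in (0 : ℝ)..1, α * R α

end Pool.Agent.H478.QM
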