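import Pool.Agent.H478.QM.Stm
import Pool.Graph.R_seed8.W198.TC.All
import Pool.Graph.R_seed8.W930.TCEFR
import Pool.Graph.R_seed8.Y747.Blk

/-! Statements of the project QM: the parts on the zeta zeros. -/

namespace Pool.Agent.H478.QM

open Filter Topology MeasureTheory
open TC (cf EFD ordz mu lam)
open SG (ord NZ)

/-- rescaled window function -/
noncomputable def hh (e : ℝ) (R : ℝ → ℝ) (ξ : ℝ) : ℝ := (1 - e) * R ((1 - e) * ξ)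

/-- the coefficients -/
noncomputable def cc (e : ℝ) (R : ℝ → ℝ) (T : ℝ) : ℕ → ℝ := cf (hh e R) ((1 - e) * Real.log T)

/-- **FOR.** Smoothed counts of zeros as Dirichlet polynomials.
Proof. `hh e R` is continuous (bounded, it vanishes off `[-a/(1-e), a/(1-e)]`), so `TC.Adm (a/(1-e)) (hh e R)` by `TC.weakT` (with `c = 0`, `d = 1`, for `w1` and `w2`).  (i) `lm = TC.lam` (by `rfl` or `unfold`), and
`|∫_0^1 h(ξ) gs(Mξ - y) dξ| ≤ sup|h|/M` (substitution, `∫ gs = 1`), `M = (1-e) log T ≥ log T / 2`.  (ii) `2 Re XX Z m (hh e R) ((1-e) log T) t = ∑ m_z exp(-(z-t)²/2) 2∫_0^1 h(ξ) cos((1-e) L ξ (z-t)) dξ` and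
the substitution `α = (1-e)ξ` (with `R = 0` on `[1-e, 1]`) gives `Vs (ctf R) Z m L t`; `dp = TC.DP`.  Apply `TC.coef` with `b = a/(1-e)`, `η/2`. -/
def S_FOR : Prop := ∀ (R : ℝ → ℝ) (a e : ℝ), Continuous R → 0 < a → a < 1 / 2 → 0 < e → e ≤ 1 / 10 → (∀ x, a ≤ |x| → R x = 0) →
  (∃ A : ℝ, 0 ≤ A ∧ ∀ T : ℝ, 3 ≤ T → ∀ n : ℕ, |cc e R T n| ≤ A / Real.log T * lm n) ∧
  ∀ C η : ℝ, 0 < C → 0 < η → ∃ T1 : ℝ, 3 ≤ T1 ∧ ∀ T : ℝ, T1 ≤ T → ∀ (Z : Finset ℝ) (m : ℝ → ℕ), EFD C T Z m →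
    ∀ t : ℝ, T + Real.log T ≤ t → t ≤ 2 * T - Real.log T →
      |Vs (ctf R) Z m (Real.log T) t - (R 0 - 2 * (dp (cc e R T) ⌊T ^ (a + e / 8)⌋₊ t).re)| ≤ η

/-- **SUM.** The diagonal.
Proof. With `M = (1-e)L`: `cf h M n = lam n ∫_0^1 h(ξ) gs(Mξ - log n) dξ`; `M ∫_0^1 h(ξ) gs(Mξ - y) dξ = ∫_{-y}^{M-y} h((u+y)/M) gs(u) du` is bounded and differs from `h(y/M)` by at most a quantity tending to `0`
uniformly in `y ∈ [log log M, ...)`-like (`h` uniformly continuous; for `y ≥ K`, `K` large, the lower limit `-y` may be replaced by `-∞`; `h` vanishes near `1`).  So the sum is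
`(1/M²) ∑ lam² h1 h2(log n/M) + o(1)` (`TC.lsq : S_LSQ`: `∑_{n ≤ N} lam² = log²N/2 + O(log N + 1)`, which bounds the sum and makes the terms with `log n ≤ K` negligible), and
`(1/M²) ∑_{n} lam(n)² G(log n/M) → ∫_0^1 ξ G(ξ) dξ` for continuous `G` with compact support in `[0,1)` (step functions and LSQ, or `TC.weakT`), here `G = h1 h2`, and
`∫_0^1 ξ (1-e)² R1 R2((1-e)ξ) dξ = ∫_0^1 α R1(α) R2(α) dα`.  Terms with `n > T^(a+e/8)` are absent, `cf` is tiny there. -/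
def S_SUM : Prop := ∀ (R1 R2 : ℝ → ℝ) (a e : ℝ), Continuous R1 → Continuous R2 → 0 < a → a < 1 / 2 → 0 < e → e ≤ 1 / 10 →
  (∀ x, a ≤ |x| → R1 x = 0) → (∀ x, a ≤ |x| → R2 x = 0) →
  Tendsto (fun T : ℝ => ∑ n ∈ Finset.Icc 2 ⌊T ^ (a + e / 8)⌋₊, cc e R1 T n * cc e R2 T n) atTop
    (𝓝 (∫ α in (0 : ℝ)..1, α * (R1 α * R2 α)))

/-- **CNT.** The number of zeros in intervals of one mean spacing is bounded in mean square.  uses S_FOR, S_M2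
Proof. `R(α) = max(0, 1 - 4|α|)` (`a = 1/4`, `e = 1/10`): `ctf R x = 2∫_0^(1/4) (1-4α) cos(2πxα) dα = (1/4) (sin(πx/4)/(πx/4))² ≥ 0`, at least `1/5` for `|x| ≤ 1`.  So for `|z - t| ≤ 2π/L`, `L ≥ 7`, the term
`exp(-(z-t)²/2) ctf R((z-t)L/2π) ≥ e^(-1/2)/5`, and `∑_{|z-t| ≤ 2π/L} m_z ≤ 5e^(1/2) Vs(t) ≤ 9(1 + 2|dp| + 1)` by FOR with `η = 1`; square and integrate with M2. -/
def S_CNT : Prop := ∀ C : ℝ, 0 < C → ∃ C' T0 : ℝ, 0 < C' ∧ 3 ≤ T0 ∧ ∀ T : ℝ, T0 ≤ T → ∀ (Z : Finset ℝ) (m : ℝ → ℕ), EFD C T Z m →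
  PtD C' T Z m

/-- **ZET.** Pair sums over the ordinates with multiplicity, written with indices.
Proof. RH: the zeros are `1/2 + i z`.  For `t < t' ` the indices `n ∈ (NZ t, NZ t']` are those with `t < ord n ≤ t'` (`SG.ord_le_iff`), and for each ordinate `z` the number of `n` with `ord n = z` is the multiplicity `mu z`.
See `sum_ZV2`, `card_Bx` (Y747.Zx, TH873.EW) for the same statement on the block `(V+1, 2V-1]`. -/
def S_ZET : Prop := RiemannHypothesis → ∀ (F : ℝ → ℝ) (T U1 U2 t Lam : ℝ), 10 ≤ T → T ≤ U1 → U1 ≤ T + 1 → 2 * T - 1 ≤ U2 → U2 ≤ 2 * T →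
  0 ≤ Lam → U1 ≤ t → t + 2 * Real.pi * Lam / Real.log T ≤ U2 →
  Ps F (ordz U1 U2) mu (Real.log T) Lam t =
    ∑ n ∈ Finset.Ioc (NZ t) (NZ (t + 2 * Real.pi * Lam / Real.log T)),
      ∑ k ∈ Finset.Ioc (NZ t) (NZ (t + 2 * Real.pi * Lam / Real.log T)), F ((ord n - ord k) * Real.log T / (2 * Real.pi))

end Pool.Agent.H478.QM
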