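import Pool.Agent.H478.QM.Stm

/-! QM V2 (helper383): the mean over a window of a product of two prime Dirichlet polynomials, without conjugation. -/

set_option autoImplicit false

namespace Pool.Agent.H478.QM.V2

open Filter Topology MeasureTheory Pool.Agent.H478.QM

/-- the window factor of the frequency `-log n` -/
noncomputable def ph (L Lam : ℝ) (n : ℕ) : ℂ :=
  ((1 / Lam : ℝ) : ℂ) *
    ∫ v in (0 : ℝ)..Lam, Complex.exp (((-(2 * Real.pi * v / L * Real.log n) : ℝ) : ℂ) * Complex.I)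

lemma wm_dp (γ : ℕ → ℝ) (M : ℕ) (L Lam t : ℝ) :
    wm (fun s => dp γ M s) L Lam t =
      ∑ n ∈ Finset.Icc 2 M, ((γ n : ℂ) * ph L Lam n) *
        Complex.exp (((-(Real.log n) * t : ℝ) : ℂ) * Complex.I) := by
  unfold wm dp
  rw [intervalIntegral.integral_finsetSum, Finset.mul_sum]
  · refine Finset.sum_congr rfl fun n _ => ?_
    have e1 : ∀ v : ℝ, (γ n : ℂ) *
        Complex.exp (((-((t + 2 * Real.pi * v / L) * Real.log n) : ℝ) : ℂ) * Complex.I) =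
        ((γ n : ℂ) * Complex.exp (((-(Real.log n) * t : ℝ) : ℂ) * Complex.I)) *
          Complex.exp (((-(2 * Real.pi * v / L * Real.log n) : ℝ) : ℂ) * Complex.I) := by
      intro v
      rw [mul_assoc (γ n : ℂ), ← Complex.exp_add]
      congr 2
      push_cast
      ring
    simp only [e1]
    rw [intervalIntegral.integral_const_mul]
    unfold ph
    ring
  · intro n _
    exact Continuous.intervalIntegrable (by fun_prop) _ _

lemma ph_le_one (L : ℝ) {Lam : ℝ} (hLam : 0 < Lam) (n : ℕ) : ‖ph L Lam n‖ ≤ 1 := by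
  unfold ph
  have h1 : ‖∫ v in (0 : ℝ)..Lam,
      Complex.exp (((-(2 * Real.pi * v / L * Real.log n) : ℝ) : ℂ) * Complex.I)‖ ≤ 1 * |Lam - 0| := by
    refine intervalIntegral.norm_integral_le_of_norm_le_const fun v _ => ?_
    rw [Complex.norm_exp_ofReal_mul_I]
  rw [sub_zero, abs_of_pos hLam, one_mul] at h1
  rw [norm_mul, Complex.norm_real, Real.norm_eq_abs, abs_of_pos (by positivity)]
  refine (mul_le_mul_of_nonneg_left h1 (by positivity)).trans (le_of_eq ?_)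
  field_simp

lemma ph_le {L Lam δ : ℝ} (hL : 0 < L) (hLam : 0 < Lam) (hδ : 0 < δ) {n : ℕ}
    (hn : δ * L < Real.log n) : ‖ph L Lam n‖ ≤ 1 / (Lam * δ) := by
  have hlog : 0 < Real.log n := lt_trans (by positivity) hn
  obtain ⟨c, hc⟩ : ∃ c : ℂ, c = ((-(2 * Real.pi / L * Real.log n) : ℝ) : ℂ) * Complex.I := ⟨_, rfl⟩
  have hpi : 1 < Real.pi := by linarith [Real.pi_gt_three]
  have hcn : ‖c‖ = 2 * Real.pi / L * Real.log n := by
    rw [hc, norm_mul, Complex.norm_I, mul_one, Complex.norm_real, Real.norm_eq_abs, abs_neg,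
      abs_of_pos (by positivity)]
  have hc0 : c ≠ 0 := by
    rw [← norm_pos_iff, hcn]
    positivity
  have he : ∀ x : ℝ, ‖Complex.exp (c * (x : ℂ))‖ = 1 := by
    intro x
    have h0 : c * (x : ℂ) = ((-(2 * Real.pi / L * Real.log n) * x : ℝ) : ℂ) * Complex.I := by
      rw [hc]
      push_cast
      ring
    rw [h0, Complex.norm_exp_ofReal_mul_I]
  have h1 : (∫ v in (0 : ℝ)..Lam,
      Complex.exp (((-(2 * Real.pi * v / L * Real.log n) : ℝ) : ℂ) * Complex.I)) =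
      (Complex.exp (c * (Lam : ℝ)) - Complex.exp (c * ((0 : ℝ) : ℂ))) / c := by
    rw [← integral_exp_mul_complex hc0]
    refine intervalIntegral.integral_congr fun v _ => ?_
    rw [hc]
    congr 1
    push_cast
    ring
  have h2 : ‖Complex.exp (c * (Lam : ℝ)) - Complex.exp (c * ((0 : ℝ) : ℂ))‖ ≤ 2 := by
    refine (norm_sub_le _ _).trans ?_
    rw [he, he]
    norm_num
  have h3 : 2 * δ ≤ ‖c‖ := by
    rw [hcn]
    have h4 : 2 * Real.pi / L * (δ * L) ≤ 2 * Real.pi / L * Real.log n :=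
      mul_le_mul_of_nonneg_left hn.le (by positivity)
    have h5 : 2 * Real.pi / L * (δ * L) = 2 * Real.pi * δ := by
      field_simp
    nlinarith
  unfold ph
  rw [h1, norm_mul, norm_div, Complex.norm_real, Real.norm_eq_abs, abs_of_pos (by positivity)]
  have h6 : ‖Complex.exp (c * (Lam : ℝ)) - Complex.exp (c * ((0 : ℝ) : ℂ))‖ / ‖c‖ ≤ 2 / (2 * δ) :=
    div_le_div₀ (by norm_num) h2 (by positivity) h3
  refine (mul_le_mul_of_nonneg_left h6 (by positivity)).trans (le_of_eq ?_)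
  field_simp

lemma sep {m n : ℕ} {T : ℝ} (hm : 1 ≤ m) (hmn : m < n) (hn : (n : ℝ) ≤ T) :
    1 / T ≤ Real.log n - Real.log m := by
  have hm0 : (0 : ℝ) < m := by exact_mod_cast (by omega : 0 < m)
  have hn0 : (0 : ℝ) < n := by exact_mod_cast (by omega : 0 < n)
  have h1 := Real.log_le_sub_one_of_pos (x := (m : ℝ) / n) (by positivity)
  rw [Real.log_div hm0.ne' hn0.ne'] at h1
  have h2 : (m : ℝ) + 1 ≤ n := by exact_mod_cast hmn
  have h3 : (m : ℝ) / n - 1 ≤ -(1 / n) := by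
    rw [div_sub_one hn0.ne', ← neg_div, div_le_div_iff_of_pos_right hn0]
    linarith
  have h4 : 1 / T ≤ 1 / (n : ℝ) := one_div_le_one_div_of_le hn0 hn
  linarith

lemma key {C : ℝ} (hLS : ∀ (ι : Type) (s : Finset ι) (lam : ι → ℝ) (c : ι → ℂ) (η : ℝ), 0 < η →
    (∀ i ∈ s, ∀ j ∈ s, i ≠ j → η ≤ |lam i - lam j|) → ∀ A B : ℝ, A ≤ B →
    ∫ t in A..B, ‖∑ i ∈ s, c i * Complex.exp (((lam i * t : ℝ) : ℂ) * Complex.I)‖ ^ 2 ≤
      C * (B - A + 1 / η) * ∑ i ∈ s, ‖c i‖ ^ 2)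
    (γ : ℕ → ℝ) {M : ℕ} {T : ℝ} (hT : 0 < T) (hM : (M : ℝ) ≤ T) (L Lam : ℝ) :
    ∫ t in T..(2 * T), ‖wm (fun s => dp γ M s) L Lam t‖ ^ 2 ≤
      C * (2 * T) * ∑ n ∈ Finset.Icc 2 M, γ n ^ 2 * ‖ph L Lam n‖ ^ 2 := by
  have h1 := hLS ℕ (Finset.Icc 2 M) (fun n => -(Real.log n)) (fun n => (γ n : ℂ) * ph L Lam n)
    (1 / T) (by positivity) (by
      intro m hm n hn hmn
      rw [Finset.mem_Icc] at hm hn
      have e1 : -(Real.log m) - -(Real.log n) = Real.log n - Real.log m := by ring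
      rw [e1]
      rcases lt_or_gt_of_ne hmn with h | h
      · exact (sep (by omega) h ((Nat.cast_le.2 hn.2).trans hM)).trans (le_abs_self _)
      · rw [abs_sub_comm]
        exact (sep (by omega) h ((Nat.cast_le.2 hm.2).trans hM)).trans (le_abs_self _))
    T (2 * T) (by linarith)
  have h2 : ∀ t, ‖wm (fun s => dp γ M s) L Lam t‖ ^ 2 = ‖∑ n ∈ Finset.Icc 2 M,
      ((γ n : ℂ) * ph L Lam n) * Complex.exp (((-(Real.log n) * t : ℝ) : ℂ) * Complex.I)‖ ^ 2 :=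
    fun t => by rw [wm_dp]
  simp only [h2]
  refine h1.trans (le_of_eq ?_)
  have h3 : 2 * T - T + 1 / (1 / T) = 2 * T := by
    rw [one_div_one_div]
    ring
  have h4 : ∑ n ∈ Finset.Icc 2 M, ‖(γ n : ℂ) * ph L Lam n‖ ^ 2 =
      ∑ n ∈ Finset.Icc 2 M, γ n ^ 2 * ‖ph L Lam n‖ ^ 2 := by
    refine Finset.sum_congr rfl fun n _ => ?_
    rw [norm_mul, mul_pow, Complex.norm_real, Real.norm_eq_abs, sq_abs]
  rw [h3, h4]

lemma sq_le {A L : ℝ} {α : ℕ → ℝ} (hα : ∀ n, |α n| ≤ A / L * lm n) (n : ℕ) :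
    α n ^ 2 ≤ (A / L) ^ 2 * lm n ^ 2 := by
  rw [← sq_abs, ← mul_pow]
  exact pow_le_pow_left₀ (abs_nonneg _) (hα n) 2

lemma sum_sq {C A T : ℝ} (hMW3 : ∀ N : ℕ, ∑ n ∈ Finset.Icc 1 N, lm n ^ 2 ≤ C * (Real.log N + 1) ^ 2)
    (hC : 0 < C) (hT : 0 < T) (hL : 1 ≤ Real.log T) {N : ℕ} (hN : (N : ℝ) ≤ T) {α : ℕ → ℝ}
    (hα : ∀ n, |α n| ≤ A / Real.log T * lm n) (s : Finset ℕ) (hs : s ⊆ Finset.Icc 1 N) :
    ∑ n ∈ s, α n ^ 2 ≤ 4 * A ^ 2 * C := by
  have h1 : ∑ n ∈ s, α n ^ 2 ≤ ∑ n ∈ Finset.Icc 1 N, (A / Real.log T) ^ 2 * lm n ^ 2 :=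
    (Finset.sum_le_sum fun n _ => sq_le hα n).trans
      (Finset.sum_le_sum_of_subset_of_nonneg hs fun _ _ _ => by positivity)
  rw [← Finset.mul_sum] at h1
  have hlogN : Real.log N ≤ Real.log T := by
    rcases Nat.eq_zero_or_pos N with h0 | h0
    · rw [h0, Nat.cast_zero, Real.log_zero]
      linarith
    · exact Real.log_le_log (by exact_mod_cast h0) hN
  have h2 : (Real.log N + 1) ^ 2 ≤ (2 * Real.log T) ^ 2 :=
    pow_le_pow_left₀ (by have := Real.log_natCast_nonneg N; linarith) (by linarith) 2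
  have h3 := mul_le_mul_of_nonneg_left ((hMW3 N).trans (mul_le_mul_of_nonneg_left h2 hC.le))
    (sq_nonneg (A / Real.log T))
  refine h1.trans (h3.trans (le_of_eq ?_))
  have h4 : Real.log T ≠ 0 := by linarith
  field_simp
  ring

lemma sum_small {C A T δ : ℝ} (hMW1 : ∀ x y : ℝ, 1 ≤ x → x ≤ y → ∀ s : Finset ℕ,
    (∀ p ∈ s, p.Prime ∧ x < p ∧ (p : ℝ) ≤ y) → ∑ p ∈ s, Real.log p / p ≤ C * (Real.log (y / x) + 1))
    (hC : 0 < C) (hL : 1 ≤ Real.log T) (hδ : 0 < δ) (hδ1 : δ ≤ 1) {α : ℕ → ℝ}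
    (hα : ∀ n, |α n| ≤ A / Real.log T * lm n) (s : Finset ℕ)
    (hs : ∀ p ∈ s, p.Prime ∧ Real.log p ≤ δ * Real.log T) :
    ∑ n ∈ s, α n ^ 2 ≤ 2 * A ^ 2 * C * δ := by
  obtain ⟨L, hLd⟩ : ∃ L : ℝ, L = Real.log T := ⟨_, rfl⟩
  rw [← hLd] at hL hα hs
  have hL0 : 0 < L := by linarith
  have h1 : ∀ p ∈ s, α p ^ 2 ≤ (A / L) ^ 2 * (δ * L) * (Real.log p / p) := by
    intro p hp
    obtain ⟨hpp, hpl⟩ := hs p hp
    have hp0 : (0 : ℝ) < p := by exact_mod_cast hpp.pos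
    have hlog : 0 ≤ Real.log p := Real.log_natCast_nonneg p
    refine (sq_le hα p).trans ?_
    rw [mul_assoc]
    refine mul_le_mul_of_nonneg_left ?_ (sq_nonneg _)
    unfold lm
    rw [ArithmeticFunction.vonMangoldt_apply_prime hpp, div_pow, Real.sq_sqrt hp0.le, pow_two,
      mul_div_assoc]
    exact mul_le_mul_of_nonneg_right hpl (by positivity)
  have h2 := hMW1 1 (Real.exp (δ * L)) le_rfl (Real.one_le_exp (by positivity)) s (by
    intro p hp
    obtain ⟨hpp, hpl⟩ := hs p hp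
    have hp0 : (0 : ℝ) < p := by exact_mod_cast hpp.pos
    refine ⟨hpp, by exact_mod_cast hpp.one_lt, ?_⟩
    rw [← Real.exp_log hp0]
    exact Real.exp_le_exp.2 hpl)
  rw [div_one, Real.log_exp] at h2
  have h3 : ∑ n ∈ s, α n ^ 2 ≤ (A / L) ^ 2 * (δ * L) * (C * (δ * L + 1)) := by
    refine (Finset.sum_le_sum h1).trans ?_
    rw [← Finset.mul_sum]
    exact mul_le_mul_of_nonneg_left h2 (by positivity)
  refine h3.trans ?_
  have h4 : δ * L + 1 ≤ 2 * L := by nlinarith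
  have h5 : (A / L) ^ 2 * (δ * L) * (C * (δ * L + 1)) ≤ (A / L) ^ 2 * (δ * L) * (C * (2 * L)) :=
    mul_le_mul_of_nonneg_left (mul_le_mul_of_nonneg_left h4 hC.le) (by positivity)
  refine h5.trans (le_of_eq ?_)
  field_simp

/-- the prime pairs with product `n` -/
noncomputable def fib (N n : ℕ) : Finset (ℕ × ℕ) :=
  ((Finset.Icc 2 N).filter Nat.Prime ×ˢ (Finset.Icc 2 N).filter Nat.Prime).filter
    fun x => x.1 * x.2 = n

lemma fib_card (N n : ℕ) : (fib N n).card ≤ 2 := by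
  rcases (fib N n).eq_empty_or_nonempty with h | h
  · rw [h]
    simp
  · obtain ⟨x, hx⟩ := h
    unfold fib at hx
    rw [Finset.mem_filter, Finset.mem_product, Finset.mem_filter, Finset.mem_filter] at hx
    obtain ⟨⟨⟨-, hx1⟩, -, hx2⟩, hx3⟩ := hx
    refine (Finset.card_le_card (t := {(x.1, x.2), (x.2, x.1)}) ?_).trans Finset.card_le_two
    intro y hy
    unfold fib at hy
    rw [Finset.mem_filter, Finset.mem_product, Finset.mem_filter, Finset.mem_filter] at hy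
    obtain ⟨⟨⟨-, hy1⟩, -, hy2⟩, hy3⟩ := hy
    rw [Finset.mem_insert, Finset.mem_singleton]
    have h1 : y.1 ∣ x.1 * x.2 := by
      rw [hx3, ← hy3]
      exact dvd_mul_right _ _
    rcases (hy1.dvd_mul).1 h1 with h2 | h2
    · left
      have h3 : y.1 = x.1 := (Nat.prime_dvd_prime_iff_eq hy1 hx1).1 h2
      have h4 : y.2 = x.2 := by
        rw [h3, ← hx3] at hy3
        exact Nat.eq_of_mul_eq_mul_left hx1.pos hy3
      exact Prod.ext h3 h4
    · right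
      have h3 : y.1 = x.2 := (Nat.prime_dvd_prime_iff_eq hy1 hx2).1 h2
      have h4 : y.2 = x.1 := by
        rw [h3, ← hx3, mul_comm x.1 x.2] at hy3
        exact Nat.eq_of_mul_eq_mul_left hx2.pos hy3
      exact Prod.ext h3 h4

lemma fib_maps {N : ℕ} : ∀ x ∈ (Finset.Icc 2 N).filter Nat.Prime ×ˢ (Finset.Icc 2 N).filter Nat.Prime,
    x.1 * x.2 ∈ Finset.Icc 2 (N ^ 2) := by
  intro x hx
  rw [Finset.mem_product, Finset.mem_filter, Finset.mem_filter, Finset.mem_Icc, Finset.mem_Icc] at hx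
  obtain ⟨⟨⟨h1, h2⟩, -⟩, ⟨h3, h4⟩, -⟩ := hx
  rw [Finset.mem_Icc, pow_two]
  exact ⟨by nlinarith, Nat.mul_le_mul h2 h4⟩

/-- the coefficients of the product -/
noncomputable def cv (α β : ℕ → ℝ) (N n : ℕ) : ℝ := ∑ x ∈ fib N n, α x.1 * β x.2

lemma dp_prime {α : ℕ → ℝ} (hα : ∀ n : ℕ, ¬ n.Prime → α n = 0) (N : ℕ) (s : ℝ) :
    dp α N s = ∑ n ∈ (Finset.Icc 2 N).filter Nat.Prime,
      (α n : ℂ) * Complex.exp (((-(s * Real.log n) : ℝ) : ℂ) * Complex.I) := by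
  unfold dp
  rw [Finset.sum_filter]
  refine Finset.sum_congr rfl fun n _ => ?_
  split_ifs with h
  · rfl
  · rw [hα n h, Complex.ofReal_zero, zero_mul]

lemma dp_mul {α β : ℕ → ℝ} (hα : ∀ n : ℕ, ¬ n.Prime → α n = 0) (hβ : ∀ n : ℕ, ¬ n.Prime → β n = 0)
    (N : ℕ) (s : ℝ) : dp α N s * dp β N s = dp (cv α β N) (N ^ 2) s := by
  rw [dp_prime hα, dp_prime hβ, Finset.sum_mul_sum, ← Finset.sum_product',
    ← Finset.sum_fiberwise_of_maps_to (t := Finset.Icc 2 (N ^ 2)) (g := fun x : ℕ × ℕ => x.1 * x.2)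
      fib_maps]
  unfold dp cv
  refine Finset.sum_congr rfl fun n _ => ?_
  rw [Complex.ofReal_sum, Finset.sum_mul]
  refine Finset.sum_congr rfl fun x hx => ?_
  unfold fib at hx
  rw [Finset.mem_filter, Finset.mem_product, Finset.mem_filter, Finset.mem_filter] at hx
  obtain ⟨⟨⟨-, hx1⟩, -, hx2⟩, hx3⟩ := hx
  have h1 : Real.log n = Real.log x.1 + Real.log x.2 := by
    rw [← hx3, Nat.cast_mul, Real.log_mul (by exact_mod_cast hx1.ne_zero) (by exact_mod_cast hx2.ne_zero)]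
  rw [h1]
  have h2 : (((-(s * (Real.log x.1 + Real.log x.2)) : ℝ) : ℂ) * Complex.I) =
      ((-(s * Real.log x.1) : ℝ) : ℂ) * Complex.I + ((-(s * Real.log x.2) : ℝ) : ℂ) * Complex.I := by
    push_cast
    ring
  rw [h2, Complex.exp_add]
  push_cast
  ring

lemma cv_sum (α β : ℕ → ℝ) (N : ℕ) (g : ℕ → ℝ) (hg : ∀ n, 0 ≤ g n) :
    ∑ n ∈ Finset.Icc 2 (N ^ 2), cv α β N n ^ 2 * g n ≤
      2 * ∑ x ∈ (Finset.Icc 2 N).filter Nat.Prime ×ˢ (Finset.Icc 2 N).filter Nat.Prime,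
        α x.1 ^ 2 * β x.2 ^ 2 * g (x.1 * x.2) := by
  rw [← Finset.sum_fiberwise_of_maps_to (t := Finset.Icc 2 (N ^ 2)) (g := fun x : ℕ × ℕ => x.1 * x.2)
      fib_maps, Finset.mul_sum]
  refine Finset.sum_le_sum fun n _ => ?_
  have h1 : cv α β N n ^ 2 ≤ 2 * ∑ x ∈ fib N n, (α x.1 * β x.2) ^ 2 := by
    unfold cv
    refine sq_sum_le_card_mul_sum_sq.trans ?_
    have h2 : ((fib N n).card : ℝ) ≤ 2 := by exact_mod_cast fib_card N n
    exact mul_le_mul_of_nonneg_right h2 (Finset.sum_nonneg fun _ _ => sq_nonneg _)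
  refine (mul_le_mul_of_nonneg_right h1 (hg n)).trans (le_of_eq ?_)
  rw [mul_assoc, Finset.sum_mul]
  congr 1
  refine Finset.sum_congr rfl fun x hx => ?_
  rw [Finset.mem_filter] at hx
  rw [hx.2, mul_pow]

theorem t_V2 (h1 : S_LS) (h2 : S_MW) : S_V2 := by
  obtain ⟨C1, hC1, hLS⟩ := h1
  obtain ⟨C2, hC2, hMW1, -, hMW3⟩ := h2
  intro A ε hA hε
  obtain ⟨Q, hQ⟩ : ∃ Q : ℝ, Q = 1 + 4 * A ^ 2 * C2 := ⟨_, rfl⟩
  have hQ1 : 1 ≤ Q := by
    rw [hQ]
    have : 0 ≤ 4 * A ^ 2 * C2 := by positivity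
    linarith
  have hQ0 : 0 < Q := by linarith
  obtain ⟨D, hD⟩ : ∃ D : ℝ, D = C1 * (A ^ 2 * C2 + 1) * Q ^ 2 := ⟨_, rfl⟩
  have hD0 : 0 < D := by rw [hD]; positivity
  obtain ⟨δ, hδ⟩ : ∃ δ : ℝ, δ = min 1 (ε / (16 * D)) := ⟨_, rfl⟩
  have hδ0 : 0 < δ := by
    rw [hδ]
    exact lt_min one_pos (by positivity)
  have hδ1 : δ ≤ 1 := by
    rw [hδ]
    exact min_le_left _ _
  have hδD : 8 * D * δ ≤ ε / 2 := by
    have h3 : δ ≤ ε / (16 * D) := by
      rw [hδ]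
      exact min_le_right _ _
    rw [le_div_iff₀ (by positivity)] at h3
    linarith
  refine ⟨(1 + 8 * D / ε) / δ, by positivity, fun Lam hLam => ⟨3, le_rfl, ?_⟩⟩
  intro T hT N hN α β hα hβ hα0 hβ0
  have hLam0 : 0 < Lam := lt_of_lt_of_le (by positivity) hLam
  obtain ⟨κ, hκ⟩ : ∃ κ : ℝ, κ = 1 / (Lam * δ) := ⟨_, rfl⟩
  have hκ0 : 0 < κ := by rw [hκ]; positivity
  have hLd : 1 + 8 * D / ε ≤ Lam * δ := by
    rwa [div_le_iff₀ hδ0] at hLam
  have hκ1 : κ ≤ 1 := by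
    rw [hκ, div_le_one (by positivity)]
    have : 0 ≤ 8 * D / ε := by positivity
    linarith
  have hκD : 4 * D * κ ^ 2 ≤ ε / 2 := by
    have h3 : κ * (8 * D / ε) ≤ 1 := by
      have h4 : κ * (Lam * δ) = 1 := by
        rw [hκ]
        field_simp
      rw [← h4]
      exact mul_le_mul_of_nonneg_left (by linarith) hκ0.le
    have h5 : κ * (8 * D) ≤ ε := by
      have h6 : κ * (8 * D / ε) * ε = κ * (8 * D) := by
        field_simp
      rw [← h6]
      calc κ * (8 * D / ε) * ε ≤ 1 * ε := mul_le_mul_of_nonneg_right h3 hε.le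
        _ = ε := one_mul ε
    have h7 : κ ^ 2 ≤ κ := by nlinarith
    nlinarith [mul_le_mul_of_nonneg_left h7 hD0.le]
  have hT0 : 0 < T := by linarith
  have hL : 1 ≤ Real.log T := by
    rw [Real.le_log_iff_exp_le hT0]
    linarith [Real.exp_one_lt_d9]
  have hL0 : 0 < Real.log T := by linarith
  have hNT : (N : ℝ) ≤ T := by
    rcases Nat.eq_zero_or_pos N with h0 | h0
    · rw [h0, Nat.cast_zero]
      exact hT0.le
    · have h3 : (1 : ℝ) ≤ N := by exact_mod_cast h0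
      nlinarith
  have hP1 : (Finset.Icc 2 N).filter Nat.Prime ⊆ Finset.Icc 1 N :=
    (Finset.filter_subset _ _).trans (Finset.Icc_subset_Icc_left (by norm_num))
  have hsα := sum_sq hMW3 hC2 hT0 hL hNT hα _ hP1
  have hsβ := sum_sq hMW3 hC2 hT0 hL hNT hβ _ hP1
  have hsm := sum_small hMW1 hC2 hL hδ0 hδ1 hα
    (((Finset.Icc 2 N).filter Nat.Prime).filter fun p => Real.log p ≤ δ * Real.log T) (by
      intro p hp
      rw [Finset.mem_filter, Finset.mem_filter] at hp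
      exact ⟨hp.1.2, hp.2⟩)
  rw [Finset.sum_filter] at hsm
  have hsα' : ∑ n ∈ (Finset.Icc 2 N).filter Nat.Prime, α n ^ 2 ≤ Q := by
    rw [hQ]
    linarith
  have hsβ' : ∑ n ∈ (Finset.Icc 2 N).filter Nat.Prime, β n ^ 2 ≤ Q := by
    rw [hQ]
    linarith
  have hsα0 : 0 ≤ ∑ n ∈ (Finset.Icc 2 N).filter Nat.Prime, α n ^ 2 :=
    Finset.sum_nonneg fun _ _ => sq_nonneg _
  have hsβ0 : 0 ≤ ∑ n ∈ (Finset.Icc 2 N).filter Nat.Prime, β n ^ 2 :=
    Finset.sum_nonneg fun _ _ => sq_nonneg _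
  -- the end of the argument
  have fin : ∀ S : ℝ, S ≤ 2 * (2 * A ^ 2 * C2 * δ * Q + κ ^ 2 * Q ^ 2) →
      C1 * (2 * T) * S ≤ ε * T := by
    intro S hS
    have h3 : C1 * S ≤ C1 * (2 * (2 * A ^ 2 * C2 * δ * Q + κ ^ 2 * Q ^ 2)) :=
      mul_le_mul_of_nonneg_left hS hC1.le
    have h4 : 2 * (C1 * (2 * (2 * A ^ 2 * C2 * δ * Q + κ ^ 2 * Q ^ 2))) ≤ 8 * D * δ + 4 * D * κ ^ 2 := by
      have h5 : C1 * (A ^ 2 * C2) * Q ≤ D := by
        rw [hD]
        have h6 : Q ≤ Q ^ 2 := by nlinarith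
        calc C1 * (A ^ 2 * C2) * Q ≤ C1 * (A ^ 2 * C2 + 1) * Q :=
              mul_le_mul_of_nonneg_right (mul_le_mul_of_nonneg_left (by linarith) hC1.le) hQ0.le
          _ ≤ C1 * (A ^ 2 * C2 + 1) * Q ^ 2 := mul_le_mul_of_nonneg_left h6 (by positivity)
      have h7 : C1 * Q ^ 2 ≤ D := by
        rw [hD]
        have h8 : (1 : ℝ) ≤ A ^ 2 * C2 + 1 := by
          have : 0 ≤ A ^ 2 * C2 := by positivity
          linarith
        calc C1 * Q ^ 2 = C1 * 1 * Q ^ 2 := by ring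
          _ ≤ C1 * (A ^ 2 * C2 + 1) * Q ^ 2 :=
              mul_le_mul_of_nonneg_right (mul_le_mul_of_nonneg_left h8 hC1.le) (sq_nonneg Q)
      have h9 := mul_le_mul_of_nonneg_right h5 hδ0.le
      have h10 := mul_le_mul_of_nonneg_right h7 (sq_nonneg κ)
      linarith
    have h11 : 2 * (C1 * S) ≤ ε := by linarith
    calc C1 * (2 * T) * S = 2 * (C1 * S) * T := by ring
      _ ≤ ε * T := mul_le_mul_of_nonneg_right h11 hT0.le
  have hph : ∀ n : ℕ, δ * Real.log T < Real.log n → ‖ph (Real.log T) Lam n‖ ^ 2 ≤ κ ^ 2 := by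
    intro n hn
    rw [hκ]
    exact pow_le_pow_left₀ (norm_nonneg _) (ph_le hL0 hLam0 hδ0 hn) 2
  have hph1 : ∀ n : ℕ, ‖ph (Real.log T) Lam n‖ ^ 2 ≤ 1 := fun n =>
    pow_le_one₀ (norm_nonneg _) (ph_le_one _ hLam0 n)
  constructor
  · have e1 : (fun s => dp α N s * dp β N s) = fun s => dp (cv α β N) (N ^ 2) s :=
      funext fun s => dp_mul hα0 hβ0 N s
    rw [e1]
    refine (key hLS (cv α β N) hT0 (M := N ^ 2) (by push_cast; exact hN) (Real.log T) Lam).trans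
      (fin _ ?_)
    refine (cv_sum α β N (fun n => ‖ph (Real.log T) Lam n‖ ^ 2) fun n => sq_nonneg _).trans ?_
    refine mul_le_mul_of_nonneg_left ?_ (by norm_num)
    have h3 : ∀ x ∈ (Finset.Icc 2 N).filter Nat.Prime ×ˢ (Finset.Icc 2 N).filter Nat.Prime,
        α x.1 ^ 2 * β x.2 ^ 2 * ‖ph (Real.log T) Lam (x.1 * x.2)‖ ^ 2 ≤
          (if Real.log x.1 ≤ δ * Real.log T then α x.1 ^ 2 else 0) * β x.2 ^ 2 +
            κ ^ 2 * (α x.1 ^ 2 * β x.2 ^ 2) := by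
      intro x hx
      rw [Finset.mem_product, Finset.mem_filter, Finset.mem_filter] at hx
      obtain ⟨⟨-, hx1⟩, -, hx2⟩ := hx
      have h4 : 0 ≤ α x.1 ^ 2 * β x.2 ^ 2 := by positivity
      split_ifs with h5
      · have h6 := mul_le_mul_of_nonneg_left (hph1 (x.1 * x.2)) h4
        have h7 : 0 ≤ κ ^ 2 * (α x.1 ^ 2 * β x.2 ^ 2) := by positivity
        linarith
      · rw [not_le] at h5
        have h8 : Real.log x.1 ≤ Real.log ((x.1 * x.2 : ℕ) : ℝ) := by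
          refine Real.log_le_log (by exact_mod_cast hx1.pos) ?_
          exact_mod_cast Nat.le_mul_of_pos_right x.1 hx2.pos
        have h6 := mul_le_mul_of_nonneg_left (hph (x.1 * x.2) (lt_of_lt_of_le h5 h8)) h4
        linarith
    refine (Finset.sum_le_sum h3).trans ?_
    rw [Finset.sum_add_distrib, ← Finset.mul_sum,
      Finset.sum_product' (f := fun a b : ℕ =>
        (if Real.log a ≤ δ * Real.log T then α a ^ 2 else 0) * β b ^ 2),
      Finset.sum_product' (f := fun a b : ℕ => α a ^ 2 * β b ^ 2),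
      ← Finset.sum_mul_sum, ← Finset.sum_mul_sum]
    refine add_le_add ?_ ?_
    · refine mul_le_mul hsm hsβ' hsβ0 (by positivity)
    · refine mul_le_mul_of_nonneg_left ?_ (sq_nonneg κ)
      rw [pow_two]
      exact mul_le_mul hsα' hsβ' hsβ0 hQ0.le
  · refine (key hLS α hT0 hNT (Real.log T) Lam).trans (fin _ ?_)
    have h3 : ∑ n ∈ Finset.Icc 2 N, α n ^ 2 * ‖ph (Real.log T) Lam n‖ ^ 2 =
        ∑ n ∈ (Finset.Icc 2 N).filter Nat.Prime, α n ^ 2 * ‖ph (Real.log T) Lam n‖ ^ 2 := by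
      rw [Finset.sum_filter]
      refine Finset.sum_congr rfl fun n _ => ?_
      split_ifs with h
      · rfl
      · rw [hα0 n h]
        ring
    have h4 : ∀ n ∈ (Finset.Icc 2 N).filter Nat.Prime, α n ^ 2 * ‖ph (Real.log T) Lam n‖ ^ 2 ≤
        (if Real.log n ≤ δ * Real.log T then α n ^ 2 else 0) + κ ^ 2 * α n ^ 2 := by
      intro n _
      have h0 : 0 ≤ α n ^ 2 := sq_nonneg _
      split_ifs with h5
      · have h6 := mul_le_mul_of_nonneg_left (hph1 n) h0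
        have h7 : 0 ≤ κ ^ 2 * α n ^ 2 := by positivity
        linarith
      · rw [not_le] at h5
        have h6 := mul_le_mul_of_nonneg_left (hph n h5) h0
        linarith
    rw [h3]
    refine (Finset.sum_le_sum h4).trans ?_
    rw [Finset.sum_add_distrib, ← Finset.mul_sum]
    have h5 : κ ^ 2 * ∑ n ∈ (Finset.Icc 2 N).filter Nat.Prime, α n ^ 2 ≤ κ ^ 2 * Q ^ 2 := by
      refine mul_le_mul_of_nonneg_left (hsα'.trans ?_) (sq_nonneg κ)
      nlinarith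
    have h6 : 2 * A ^ 2 * C2 * δ ≤ 2 * A ^ 2 * C2 * δ * Q :=
      le_mul_of_one_le_right (by positivity) hQ1
    have h7 : 0 ≤ 2 * A ^ 2 * C2 * δ * Q := by positivity
    have h8 : 0 ≤ κ ^ 2 * Q ^ 2 := by positivity
    linarith

end Pool.Agent.H478.QM.V2
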