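import Pool.Agent.H478.QM.Stm2

/-! ZET: pair sums over the ordinates with multiplicity, written with indices
(helper972 for helper478). -/

open Complex Filter Topology Set

namespace Pool.Agent.H478.QM.ZET

open SG (ord NZ zmult ZS)
open W200.HW (Ix mem_Ix)
open TC (ordT ordz mu)

/-- the ordinates of a window in a block -/
lemma mem_win {U1 U2 t t' : ℝ} (hU : 1 ≤ U1) (ht : U1 ≤ t) (ht' : t' ≤ U2) {g : ℝ} :
    g ∈ (ordz U1 U2).filter (fun z => t < z ∧ z ≤ t') ↔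
      g ∈ (ordT t').filter (fun z => t < z) := by
  rw [Finset.mem_filter, Finset.mem_filter, W249.TCF.mem_ordT_iff]
  unfold TC.ordz
  rw [Finset.mem_image]
  constructor
  · rintro ⟨⟨s, hs, rfl⟩, h1, h2⟩
    rw [H370.mem_Zf H370.good_zeta hU] at hs
    obtain ⟨a1, a2, a3, a4, a5⟩ := hs
    exact ⟨⟨s, ⟨a5, a1, a2, by linarith, h2⟩, rfl⟩, h1⟩
  · rintro ⟨⟨s, ⟨a1, a2, a3, a4, a5⟩, rfl⟩, h1⟩
    refine ⟨⟨s, ?_, rfl⟩, h1, a5⟩
    rw [H370.mem_Zf H370.good_zeta hU]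
    exact ⟨a2, a3, by linarith, by linarith, a1⟩

lemma ix_win {t t' : ℝ} : (Ix t').filter (fun n => t < ord n) = Finset.Ioc (NZ t) (NZ t') := by
  ext n
  rw [Finset.mem_filter, mem_Ix, Finset.mem_Ioc]
  constructor
  · rintro ⟨⟨h1, h2⟩, h3⟩
    refine ⟨?_, (SG.ord_le_iff h1 t').1 h2⟩
    by_contra h
    exact absurd h3 (not_lt.2 ((SG.ord_le_iff h1 t).2 (not_lt.1 h)))
  · rintro ⟨h1, h2⟩
    have h0 : 1 ≤ n := by omega
    refine ⟨⟨h0, (SG.ord_le_iff h0 t').2 h2⟩, ?_⟩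
    by_contra h
    exact absurd ((SG.ord_le_iff h0 t).1 (not_lt.1 h)) (not_le.2 h1)

lemma sum_win (RH : RiemannHypothesis) {U1 U2 t t' : ℝ} (hU : 1 ≤ U1) (ht : U1 ≤ t)
    (ht' : t' ≤ U2) (f : ℝ → ℝ) :
    ∑ g ∈ (ordz U1 U2).filter (fun z => t < z ∧ z ≤ t'), (mu g : ℝ) * f g =
      ∑ n ∈ Finset.Ioc (NZ t) (NZ t'), f (ord n) := by
  have e : (ordz U1 U2).filter (fun z => t < z ∧ z ≤ t') = (ordT t').filter (fun z => t < z) :=
    Finset.ext fun g => mem_win hU ht ht'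
  rw [e, ← ix_win, Finset.sum_filter, Finset.sum_filter,
    ← W249.TCF.sum_ord RH t' (fun g => if t < g then f g else 0)]
  refine Finset.sum_congr rfl fun g _ => ?_
  split_ifs <;> simp

/-- **ZET**. -/
theorem t_ZET : S_ZET := by
  intro RH F T U1 U2 t Lam hT h1 h2 h3 h4 hL ht ht'
  have hU : 1 ≤ U1 := by linarith
  unfold Ps
  rw [← sum_win RH hU ht ht' (fun x => ∑ k ∈ Finset.Ioc (NZ t)
    (NZ (t + 2 * Real.pi * Lam / Real.log T)), F ((x - ord k) * Real.log T / (2 * Real.pi)))]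
  refine Finset.sum_congr rfl fun z _ => ?_
  rw [← sum_win RH hU ht ht' (fun y => F ((z - y) * Real.log T / (2 * Real.pi))),
    Finset.mul_sum]
  refine Finset.sum_congr rfl fun y _ => ?_
  ring

end Pool.Agent.H478.QM.ZET
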